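import Pool.Agent.R859.BT.Stm

set_option autoImplicit false

/-! Project BT, piece BASE: small scales, Euclidean form. -/

namespace R859.BT

open Metric Set Filter Topology
open scoped Classical

lemma base_min {α : Type*} (f : α → ℝ) (hf : ∀ x, 0 < f x) (T : Finset α) :
    ∃ τ : ℝ, 0 < τ ∧ ∀ x ∈ T, τ ≤ f x := by
  classical
  induction T using Finset.induction_on with
  | empty => exact ⟨1, one_pos, fun x hx => absurd hx (Finset.notMem_empty x)⟩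
  | insert a T _ ih =>
    obtain ⟨τ, hτ, h⟩ := ih
    refine ⟨min τ (f a), lt_min hτ (hf a), ?_⟩
    intro x hx
    rcases Finset.mem_insert.1 hx with rfl | hx
    · exact min_le_right _ _
    · exact (min_le_left _ _).trans (h x hx)

theorem t_BASE (hC : S_CORE) (hN : S_NET) (hG : S_GEO) (hCh : S_CHART) : S_BASE := by
  intro m n hm
  obtain ⟨L, hL⟩ := hN n
  obtain ⟨δ1, hδ1, hcore⟩ := hC m L hm
  refine ⟨min δ1 (1 / 1000), lt_min hδ1 (by norm_num), ?_⟩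
  intro M δ R hM hδ hδ0 hR hLAP
  have hδ2 : δ ≤ 1 / 1000 := hδ0.trans (min_le_right _ _)
  have hcoord : ∀ (y : ↥M) (t : ℝ), 0 < t → t < R → ∃ X : ↥M → E m, Coord y t (2 * (δ * t)) X := by
    intro y t ht htR
    obtain ⟨P, hP, hfl⟩ := hLAP y y.2 t ht htR
    obtain ⟨X, hX, _⟩ := hG m n M y t (δ * t) P ht (by positivity) hP hfl
    exact ⟨X, hX⟩
  have hloc : ∀ x : ↥M, ∃ (r t0 : ℝ), 0 < r ∧ 0 < t0 ∧ ∀ z : ↥M, dist z x < r →
      ∀ t, 0 < t → t < t0 → ∀ X : ↥M → E m, Coord z t (2 * (δ * t)) X → ∀ p : E m, ‖p‖ ≤ t / 4 →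
        ∃ w : ↥M, dist w z ≤ 9 / 10 * t ∧ ‖X w - p‖ ≤ t / 400 := by
    intro x
    obtain ⟨ψ, ρ, hρ, hψ, r, hr, hcov⟩ := hCh m n M hm hM x
    obtain ⟨t0, ht0, _, H⟩ := hcore ↥M δ R ρ ψ hδ (hδ0.trans (min_le_left _ _)) hR hρ
      (hL M) hcoord hψ
    refine ⟨r, t0, hr, ht0, ?_⟩
    intro z hz t ht htt X hX p hp
    obtain ⟨u, hu, rfl⟩ := hcov z hz
    exact H t ht htt u hu X hX p hp
  choose r t0 hr ht0 hloc' using hloc
  haveI : CompactSpace ↥M := isCompact_iff_compactSpace.1 hM.1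
  obtain ⟨T, hT⟩ := CompactSpace.elim_nhds_subcover (fun x : ↥M => ball x (r x))
    (fun x => ball_mem_nhds x (hr x))
  obtain ⟨τ, hτ, hτ'⟩ := base_min t0 ht0 T
  refine ⟨τ, hτ, ?_⟩
  intro t ht htτ htR y hy P hP hfl u' hu' hu'n
  have hyT : (⟨y, hy⟩ : ↥M) ∈ ⋃ x ∈ T, ball x (r x) := by
    rw [hT]
    trivial
  simp only [mem_iUnion, mem_ball, exists_prop] at hyT
  obtain ⟨x, hxT, hx⟩ := hyT
  obtain ⟨X, hX, hXP⟩ := hG m n M ⟨y, hy⟩ t (δ * t) P ht (by positivity) hP hfl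
  obtain ⟨p, hp, hp2⟩ := hXP u' hu'
  obtain ⟨w, hw1, hw2⟩ := hloc' x ⟨y, hy⟩ hx t ht (htτ.trans_le (hτ' x hxT)) X hX p
    (by rw [hp]; exact hu'n)
  refine ⟨w, w.2, ?_⟩
  rw [hp2 w] at hw2
  have hw3 : dist (w : E n) y ≤ t := by
    have : dist (w : E n) y = dist w (⟨y, hy⟩ : ↥M) := rfl
    rw [this]
    linarith
  have h1 := hfl w w.2 hw3
  have h2 : (w : E n) - (y + u') = ((w : E n) - y - P.starProjection ((w : E n) - y)) +
      (P.starProjection ((w : E n) - y) - u') := by abel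
  rw [dist_eq_norm, h2]
  have h3 := norm_add_le ((w : E n) - y - P.starProjection ((w : E n) - y))
    (P.starProjection ((w : E n) - y) - u')
  have h4 : ‖P.starProjection ((w : E n) - y) - u'‖ ≤ t / 400 := hw2
  have h5 : δ * t ≤ 1 / 1000 * t := mul_le_mul_of_nonneg_right hδ2 ht.le
  linarith

end R859.BT
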