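import Pool.Agent.R859.BT.Stm

set_option autoImplicit false

/-! BT-CHART (helper316): cube charts of closed manifolds. -/

namespace R859.BT

open Metric Set Filter Topology

namespace C316

/-- clamping to the cube `[-1,1]^m` -/
noncomputable def cl {m : ℕ} (u : Fin m → ℝ) : Fin m → ℝ := fun i => max (-1) (min 1 (u i))

theorem cl_cont {m : ℕ} : Continuous (cl : (Fin m → ℝ) → Fin m → ℝ) := by
  unfold cl
  fun_prop

theorem cl_abs {m : ℕ} (u : Fin m → ℝ) (i : Fin m) : |cl u i| ≤ 1 := by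
  unfold cl
  rw [abs_le]
  constructor
  · exact le_max_left _ _
  · exact max_le (by norm_num) (min_le_left _ _)

theorem cl_eq {m : ℕ} (u : Fin m → ℝ) (h : ∀ i, |u i| ≤ 1) : cl u = u := by
  funext i
  have := abs_le.1 (h i)
  unfold cl
  rw [min_eq_right this.2, max_eq_right this.1]

theorem cl_idem {m : ℕ} (u : Fin m → ℝ) : cl (cl u) = cl u := cl_eq _ (cl_abs u)

end C316

open C316

theorem t_CHART : S_CHART := by
  intro m n M _hm hM x
  obtain ⟨e, hx⟩ := hM.2 x
  let c : Fin m → ℝ := fun i => e x i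
  let A : (Fin m → ℝ) → E m := fun w => WithLp.toLp 2 (c + w)
  have hAc : Continuous A := by
    exact (PiLp.continuous_toLp 2 _).comp (continuous_const.add continuous_id)
  have hA0 : A 0 = e x := by
    ext i
    simp [A, c]
  have hT : IsOpen (A ⁻¹' e.target) := e.open_target.preimage hAc
  have h0 : (0 : Fin m → ℝ) ∈ A ⁻¹' e.target := by
    show A 0 ∈ e.target
    rw [hA0]
    exact e.map_source hx
  obtain ⟨r1, hr1, hb⟩ := Metric.isOpen_iff.1 hT 0 h0
  set r0 : ℝ := r1 / 2 with hr0d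
  have hr0 : 0 < r0 := by positivity
  have hmem : ∀ u : Fin m → ℝ, (∀ i, |u i| ≤ 1) → A (r0 • u) ∈ e.target := by
    intro u hu
    apply hb
    rw [mem_ball, dist_zero_right, norm_smul, Real.norm_eq_abs, abs_of_pos hr0]
    have : ‖u‖ ≤ 1 := (pi_norm_le_iff_of_nonneg (by norm_num)).2 (fun i => by
      rw [Real.norm_eq_abs]; exact hu i)
    nlinarith
  let ψ : (Fin m → ℝ) → ↥M := fun u => e.symm (A (r0 • cl u))
  have hψc : Continuous ψ := by
    refine e.symm.continuousOn.comp_continuous (hAc.comp (cl_cont.const_smul r0)) ?_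
    intro u
    exact hmem _ (cl_abs u)
  have hAinj : Function.Injective A := by
    intro a b hab
    have : c + a = c + b := (WithLp.toLp_injective 2) hab
    exact add_left_cancel this
  have hψe : ∀ u, e (ψ u) = A (r0 • cl u) := fun u => e.right_inv (hmem _ (cl_abs u))
  have hIcc : ∀ (s : ℝ) (u : Fin m → ℝ), u ∈ Icc (fun _ => -s) (fun _ => s) ↔ ∀ i, |u i| ≤ s := by
    intro s u
    constructor
    · intro h i
      exact abs_le.2 ⟨h.1 i, h.2 i⟩
    · intro h
      exact ⟨fun i => (abs_le.1 (h i)).1, fun i => (abs_le.1 (h i)).2⟩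
  -- the open sets
  have hO : ∀ s : ℝ, IsOpen {z : ↥M | z ∈ e.source ∧ ∀ i, |e z i - c i| < s * r0} := by
    intro s
    have hbox : IsOpen {w : E m | ∀ i, |w i - c i| < s * r0} := by
      have : {w : E m | ∀ i, |w i - c i| < s * r0} = ⋂ i, {w : E m | |w i - c i| < s * r0} := by
        ext w; simp
      rw [this]
      apply isOpen_iInter_of_finite
      intro i
      apply isOpen_lt
      · fun_prop
      · fun_prop
    exact e.isOpen_inter_preimage hbox
  have hback : ∀ s : ℝ, 0 < s → s ≤ 1 → ∀ z : ↥M, z ∈ e.source →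
      (∀ i, |e z i - c i| < s * r0) → ∃ u : Fin m → ℝ, (∀ i, |u i| < s) ∧ ψ u = z := by
    intro s hs0 hs1 z hz hzi
    refine ⟨fun i => (e z i - c i) / r0, ?_, ?_⟩
    · intro i
      rw [abs_div, abs_of_pos hr0, div_lt_iff₀ hr0]
      exact hzi i
    · have hcl : cl (fun i => (e z i - c i) / r0) = fun i => (e z i - c i) / r0 := by
        apply cl_eq
        intro i
        rw [abs_div, abs_of_pos hr0, div_le_iff₀ hr0]
        have := (hzi i).le
        nlinarith
      have hA : A (r0 • cl (fun i => (e z i - c i) / r0)) = e z := by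
        rw [hcl]
        ext i
        simp only [A, Pi.add_apply, Pi.smul_apply, smul_eq_mul]
        field_simp
        ring
      show e.symm _ = z
      rw [hA]
      exact e.left_inv hz
  have hfor : ∀ (s t : ℝ), 0 ≤ t → t < s → t ≤ 1 → ∀ u : Fin m → ℝ, (∀ i, |u i| ≤ t) →
      ψ u ∈ {z : ↥M | z ∈ e.source ∧ ∀ i, |e z i - c i| < s * r0} := by
    intro s t ht0 hts ht1 u hu
    refine ⟨e.map_target (hmem _ (cl_abs u)), ?_⟩
    intro i
    rw [hψe, cl_eq u (fun i => (hu i).trans ht1)]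
    simp only [A, Pi.add_apply, Pi.smul_apply, smul_eq_mul, add_sub_cancel_left]
    rw [abs_mul, abs_of_pos hr0]
    have := hu i
    nlinarith
  have hKc : IsCompact (ψ '' Icc (fun _ : Fin m => (-1 / 2 : ℝ)) (fun _ => 1 / 2)) :=
    isCompact_Icc.image hψc
  obtain ⟨ρ, hρ, hρs⟩ := hKc.exists_thickening_subset_open (hO (3 / 4)) (by
    rintro _ ⟨u, hu, rfl⟩
    refine hfor (3 / 4) (1 / 2) (by norm_num) (by norm_num) (by norm_num) u ?_
    intro i
    rw [abs_le]
    exact ⟨by have := hu.1 i; simpa [neg_div] using this, hu.2 i⟩)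
  have hxO : x ∈ {z : ↥M | z ∈ e.source ∧ ∀ i, |e z i - c i| < (1 / 2) * r0} := by
    refine ⟨hx, ?_⟩
    intro i
    simp only [c, sub_self, abs_zero]
    positivity
  obtain ⟨r, hr, hrs⟩ := Metric.isOpen_iff.1 (hO (1 / 2)) x hxO
  refine ⟨ψ, ρ, hρ, ⟨hψc, ?_, ?_, ?_⟩, r, hr, ?_⟩
  · intro u hu v hv huv
    have hu' : ∀ i, |u i| ≤ 1 := (hIcc 1 u).1 hu
    have hv' : ∀ i, |v i| ≤ 1 := (hIcc 1 v).1 hv
    have h1 : A (r0 • cl u) = A (r0 • cl v) := by rw [← hψe, ← hψe, huv]
    have h2 := hAinj h1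
    rw [cl_eq u hu', cl_eq v hv'] at h2
    exact smul_right_injective _ hr0.ne' h2
  · intro u
    show ψ u = ψ (cl u)
    simp only [ψ, cl_idem]
  · intro u hu z hz
    have hz' : z ∈ thickening ρ (ψ '' Icc (fun _ : Fin m => (-1 / 2 : ℝ)) (fun _ => 1 / 2)) :=
      mem_thickening_iff.2 ⟨ψ u, ⟨u, hu, rfl⟩, hz⟩
    have h1 := hρs hz'
    obtain ⟨w, hw, hwz⟩ := hback (3 / 4) (by norm_num) (by norm_num) z h1.1 h1.2
    refine ⟨w, ⟨fun i => ?_, fun i => (abs_lt.1 (hw i)).2.le⟩, hwz⟩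
    have := (abs_lt.1 (hw i)).1.le
    simpa [neg_div] using this
  · intro z hz
    have h1 := hrs (mem_ball.2 hz)
    obtain ⟨w, hw, hwz⟩ := hback (1 / 2) (by norm_num) (by norm_num) z h1.1 h1.2
    refine ⟨w, ⟨fun i => ?_, fun i => (abs_lt.1 (hw i)).2.le⟩, hwz⟩
    have := (abs_lt.1 (hw i)).1.le
    simpa [neg_div] using this

end R859.BT
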