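import Pool.Agent.R859.BT.Stm

set_option autoImplicit false

/-!
Project BT (MP_e0d06b_an), piece CLIMB: from the scale `T/4` to the scale `T`.
-/

namespace R859.BT

open Metric Set Filter Topology

namespace CLIMB

variable {n : ℕ}

theorem pn (Q : Submodule ℝ (E n)) (v : E n) : ‖Q.starProjection v‖ ≤ ‖v‖ :=
  Q.norm_starProjection_apply_le v

theorem qn (Q : Submodule ℝ (E n)) (v : E n) : ‖v - Q.starProjection v‖ ≤ ‖v‖ := by
  rw [← Q.starProjection_orthogonal_val]
  exact Qᗮ.norm_starProjection_apply_le v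

theorem self (Q : Submodule ℝ (E n)) {v : E n} (h : v ∈ Q) : Q.starProjection v = v :=
  Submodule.starProjection_eq_self_iff.2 h

theorem step {m : ℕ} {M : Set (E n)} {δ R T : ℝ} (hL : S_LIN) (hM : IsCompact M) (hδ : 0 < δ)
    (hδ1 : δ ≤ 1 / 1000) (hLAP : LAP' m δ R M) (hT : 0 < T) (hTR : T < R)
    (hs : FF m δ M (T / 4)) : FF m δ M T := by
  intro z hz Q hQ hflat u0 hu0 hu0n
  have hdT : δ * T ≤ T / 1000 := by nlinarith
  -- the minimiser
  have hK : IsCompact (M ∩ closedBall z T) := hM.inter_right isClosed_closedBall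
  have hzK : z ∈ M ∩ closedBall z T := ⟨hz, mem_closedBall_self hT.le⟩
  obtain ⟨w, ⟨hwM, hwT⟩, hmin⟩ := hK.exists_isMinOn ⟨z, hzK⟩
    (f := fun w => ‖Q.starProjection (w - z) - u0‖) (by
      apply Continuous.continuousOn
      fun_prop)
  have hmin' : ∀ x ∈ M, dist x z ≤ T → ‖Q.starProjection (w - z) - u0‖ ≤
      ‖Q.starProjection (x - z) - u0‖ := fun x hx hxT => hmin ⟨hx, hxT⟩
  set h := ‖Q.starProjection (w - z) - u0‖ with hh
  have hhle : h ≤ T / 4 := by
    have := hmin' z hz (by simpa using hT.le)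
    simp only [sub_self, map_zero, zero_sub, norm_neg] at this
    linarith
  have hwperp : ‖(w - z) - Q.starProjection (w - z)‖ ≤ δ * T := hflat w hwM hwT
  have hwz : ‖w - z‖ ≤ T / 2 + δ * T := by
    have e : w - z = (Q.starProjection (w - z) - u0) + u0
        + ((w - z) - Q.starProjection (w - z)) := by abel
    calc ‖w - z‖ = ‖(Q.starProjection (w - z) - u0) + u0
        + ((w - z) - Q.starProjection (w - z))‖ := by rw [← e]
      _ ≤ ‖Q.starProjection (w - z) - u0‖ + ‖u0‖ + ‖(w - z) - Q.starProjection (w - z)‖ :=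
        norm_add₃_le
      _ ≤ T / 2 + δ * T := by linarith
  -- the plane at `w`
  obtain ⟨Q', hQ', hflat'⟩ := hLAP w hwM (T / 4) (by linarith) (by linarith)
  have hfull := hs w hwM Q' hQ' hflat'
  -- points of `M` near `w + u`
  have hpt : ∀ u ∈ Q', ‖u‖ ≤ T / 16 → ∃ x ∈ M, dist x z ≤ T ∧ ‖x - w - u‖ ≤ T / 400 := by
    intro u hu hun
    obtain ⟨x, hx, hxd⟩ := hfull u hu (by linarith)
    have h1 : ‖x - w - u‖ ≤ T / 400 := by
      rw [dist_eq_norm] at hxd
      have : x - w - u = x - (w + u) := by abel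
      rw [this]
      linarith
    refine ⟨x, hx, ?_, h1⟩
    rw [dist_eq_norm]
    have e : x - z = (x - w - u) + u + (w - z) := by abel
    rw [e]
    calc ‖(x - w - u) + u + (w - z)‖ ≤ ‖x - w - u‖ + ‖u‖ + ‖w - z‖ := norm_add₃_le
      _ ≤ T := by linarith
  -- `Q'` is transverse to the orthogonal complement of `Q`
  have hang : ∀ u ∈ Q', ‖u - Q.starProjection u‖ ≤ 4 / 5 * ‖u‖ := by
    intro u hu
    by_cases hu00 : u = 0
    · subst hu00; simp
    have hunp : 0 < ‖u‖ := norm_pos_iff.2 hu00
    set c := (T / 16) / ‖u‖ with hc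
    have hcp : 0 < c := by positivity
    have hcn : ‖c • u‖ = T / 16 := by
      rw [norm_smul, Real.norm_eq_abs, abs_of_pos hcp, hc, div_mul_cancel₀ _ hunp.ne']
    obtain ⟨x, hx, hxT, hx1⟩ := hpt (c • u) (Q'.smul_mem c hu) hcn.le
    have hxperp : ‖(x - z) - Q.starProjection (x - z)‖ ≤ δ * T := hflat x hx hxT
    have e : c • (u - Q.starProjection u) = ((x - z) - Q.starProjection (x - z))
        - ((w - z) - Q.starProjection (w - z))
        - ((x - w - c • u) - Q.starProjection (x - w - c • u)) := by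
      simp only [map_sub, map_smul, smul_sub]
      abel
    have h2 : ‖c • (u - Q.starProjection u)‖ ≤ δ * T + δ * T + T / 400 := by
      rw [e]
      calc _ ≤ ‖((x - z) - Q.starProjection (x - z)) - ((w - z) - Q.starProjection (w - z))‖
            + ‖(x - w - c • u) - Q.starProjection (x - w - c • u)‖ := norm_sub_le _ _
        _ ≤ (‖(x - z) - Q.starProjection (x - z)‖ + ‖(w - z) - Q.starProjection (w - z)‖)
            + ‖(x - w - c • u) - Q.starProjection (x - w - c • u)‖ := by
          gcongr; exact norm_sub_le _ _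
        _ ≤ δ * T + δ * T + T / 400 := by
          have := qn Q (x - w - c • u)
          linarith
    rw [norm_smul, Real.norm_eq_abs, abs_of_pos hcp] at h2
    have h3 : c * ‖u - Q.starProjection u‖ ≤ c * (4 / 5 * ‖u‖) := by
      have : c * (4 / 5 * ‖u‖) = 4 / 5 * (T / 16) := by
        rw [hc]; field_simp
      rw [this]
      linarith
    exact le_of_mul_le_mul_left h3 hcp
  have hlin := hL n Q Q' (hQ.trans hQ'.symm) hang
  -- the vector to be corrected
  set v := u0 - Q.starProjection (w - z) with hv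
  have hvQ : v ∈ Q := Q.sub_mem hu0 (Q.starProjection_apply_mem _)
  have hvn : ‖v‖ = h := by rw [hv, hh, norm_sub_rev]
  have hcorr : ∀ v' ∈ Q, ‖v'‖ ≤ T / 32 → h ≤ ‖v - v'‖ + T / 400 := by
    intro v' hv' hvn'
    obtain ⟨u, hu, hpu, hun⟩ := hlin v' hv'
    obtain ⟨x, hx, hxT, hx1⟩ := hpt u hu (by linarith)
    have h1 := hmin' x hx hxT
    have e : Q.starProjection (x - z) - u0 = -(v - v') + Q.starProjection (x - w - u) := by
      rw [hv]
      simp only [map_sub, hpu]
      abel
    rw [e] at h1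
    calc h ≤ ‖-(v - v') + Q.starProjection (x - w - u)‖ := h1
      _ ≤ ‖-(v - v')‖ + ‖Q.starProjection (x - w - u)‖ := norm_add_le _ _
      _ ≤ ‖v - v'‖ + T / 400 := by
        rw [norm_neg]
        have := pn Q (x - w - u)
        linarith
  have hsmall : h ≤ T / 400 := by
    by_cases hbig : h ≤ T / 32
    · have := hcorr v hvQ (by rw [hvn]; exact hbig)
      simpa using this
    · push Not at hbig
      exfalso
      have hhp : 0 < h := by linarith
      have h1 := hcorr (((T / 32) / h) • v) (Q.smul_mem _ hvQ) (by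
        rw [norm_smul, Real.norm_eq_abs, abs_of_pos (by positivity), hvn,
          div_mul_cancel₀ _ hhp.ne'])
      have e : v - ((T / 32) / h) • v = (1 - (T / 32) / h) • v := by
        rw [sub_smul, one_smul]
      rw [e, norm_smul, Real.norm_eq_abs, abs_of_nonneg (by
        rw [sub_nonneg, div_le_one hhp]; exact hbig.le), hvn, sub_mul, one_mul,
        div_mul_cancel₀ _ hhp.ne'] at h1
      linarith
  refine ⟨w, hwM, ?_⟩
  rw [dist_eq_norm]
  have e : w - (z + u0) = (Q.starProjection (w - z) - u0)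
      + ((w - z) - Q.starProjection (w - z)) := by abel
  rw [e]
  calc _ ≤ ‖Q.starProjection (w - z) - u0‖ + ‖(w - z) - Q.starProjection (w - z)‖ :=
        norm_add_le _ _
    _ ≤ T / 100 := by linarith

end CLIMB

theorem t_CLIMB (hL : S_LIN) : S_CLIMB := by
  intro m n M δ R t0 hM hδ hδ1 ht0 hLAP hsm
  have key : ∀ k : ℕ, ∀ t, 0 < t → t < 4 ^ k * t0 → t < R → FF m δ M t := by
    intro k
    induction k with
    | zero =>
      intro t ht ht1 ht2
      exact hsm t ht (by simpa using ht1) ht2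
    | succ k ih =>
      intro t ht ht1 ht2
      apply CLIMB.step hL hM hδ hδ1 hLAP ht ht2
      apply ih (t / 4) (by linarith) _ (by linarith)
      rw [pow_succ] at ht1
      linarith
  intro t ht htR
  obtain ⟨k, hk⟩ := pow_unbounded_of_one_lt (t / t0) (by norm_num : (1 : ℝ) < 4)
  apply key k t ht _ htR
  rwa [div_lt_iff₀ ht0] at hk

end R859.BT
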