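import Pool.Agent.R859.BT.Stm

set_option autoImplicit false

/-!
Project BT, piece CORE: small scales.
-/

namespace R859.BT

open Metric Set Filter Topology
open scoped Classical

namespace CoreAux

variable {m : ℕ} {M : Type} [MetricSpace M]

/-- clamping -/
noncomputable def cl (u : Fin m → ℝ) : Fin m → ℝ := fun i => max (-1) (min 1 (u i))

abbrev cube (m : ℕ) : Set (Fin m → ℝ) := Icc (fun _ => -1) (fun _ => 1)

lemma cl_mem (u : Fin m → ℝ) : cl u ∈ cube m :=
  ⟨fun _ => le_max_left _ _, fun _ => max_le (by norm_num) (min_le_left _ _)⟩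

lemma kappa {ψ : (Fin m → ℝ) → M} (hc : Continuous ψ) (hi : InjOn ψ (cube m)) :
    ∃ κ : ℝ, 0 < κ ∧ ∀ u ∈ cube m, ∀ u' ∈ cube m, dist (ψ u) (ψ u') ≤ κ →
      ∀ i, |u i - u' i| < 1 / 8 := by
  set K : Set ((Fin m → ℝ) × (Fin m → ℝ)) := (cube m ×ˢ cube m) ∩
    ⋃ i, {p | 1 / 8 ≤ |p.1 i - p.2 i|} with hK
  have hKc : IsCompact K := by
    refine (isCompact_Icc.prod isCompact_Icc).inter_right ?_
    refine isClosed_iUnion_of_finite fun i => ?_
    exact isClosed_le continuous_const (by fun_prop)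
  have hf : ContinuousOn (fun p : (Fin m → ℝ) × (Fin m → ℝ) => dist (ψ p.1) (ψ p.2)) K := by
    have : Continuous (fun p : (Fin m → ℝ) × (Fin m → ℝ) => dist (ψ p.1) (ψ p.2)) := by
      fun_prop
    exact this.continuousOn
  have hpos : ∀ p ∈ K, 0 < dist (ψ p.1) (ψ p.2) := by
    rintro ⟨u, u'⟩ ⟨⟨h1, h2⟩, h3⟩
    obtain ⟨i, hi3⟩ := mem_iUnion.1 h3
    rw [dist_pos]
    intro h4
    have h5 := hi h1 h2 h4
    simp only at h5
    rw [mem_setOf_eq] at hi3
    simp only at hi3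
    rw [h5, sub_self, abs_zero] at hi3
    norm_num at hi3
  obtain ⟨κ, hκ, hκ2⟩ := hKc.exists_forall_le' hf hpos
  refine ⟨κ / 2, by linarith, fun u hu u' hu' hd i => ?_⟩
  by_contra hcon
  have h1 : (u, u') ∈ K := ⟨⟨hu, hu'⟩, mem_iUnion.2 ⟨i, not_lt.1 hcon⟩⟩
  have h2 := hκ2 _ h1
  simp only at h2
  linarith

/-- the label of a point of the cube -/
noncomputable def lab (u : Fin m → ℝ) : ℕ := sInf {i : ℕ | (∃ h : i < m, 0 < u ⟨i, h⟩) ∨ i = m}

lemma lab_le (u : Fin m → ℝ) : lab u ≤ m := Nat.sInf_le (Or.inr rfl)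

lemma lab_pos {u : Fin m → ℝ} (i : Fin m) (h : lab u = i) : 0 < u i := by
  have h1 : sInf {i : ℕ | (∃ h : i < m, 0 < u ⟨i, h⟩) ∨ i = m} ∈
      {i : ℕ | (∃ h : i < m, 0 < u ⟨i, h⟩) ∨ i = m} := Nat.sInf_mem ⟨m, Or.inr rfl⟩
  change (∃ h : lab u < m, 0 < u ⟨lab u, h⟩) ∨ lab u = m at h1
  rcases h1 with ⟨h2, h3⟩ | h2
  · have : (⟨lab u, h2⟩ : Fin m) = i := Fin.ext h
    rwa [this] at h3
  · have := i.2
    omega

lemma lab_le_of {u : Fin m → ℝ} (i : Fin m) (h : 0 < u i) : lab u ≤ i :=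
  Nat.sInf_le (Or.inl ⟨i.2, h⟩)

/-- the label of a point of the chart -/
noncomputable def La (ψ : (Fin m → ℝ) → M) (z : M) : ℕ :=
  if h : ∃ u ∈ cube m, ψ u = z then lab h.choose else m

lemma La_eq {ψ : (Fin m → ℝ) → M} (hi : InjOn ψ (cube m)) {u : Fin m → ℝ} (hu : u ∈ cube m) :
    La ψ (ψ u) = lab u := by
  have h : ∃ u' ∈ cube m, ψ u' = ψ u := ⟨u, hu, rfl⟩
  unfold La
  rw [dif_pos h]
  congr 1
  exact hi h.choose_spec.1 hu h.choose_spec.2

lemma La_le (ψ : (Fin m → ℝ) → M) (z : M) : La ψ z ≤ m := by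
  unfold La
  split_ifs
  · exact lab_le _
  · exact le_rfl

/-- the grid in the chart -/
noncomputable def U (m N : ℕ) (v : V) : Fin m → ℝ := fun i => -1 + 2 * (v i : ℝ) / N

lemma U_mem {N : ℕ} (hN : 0 < N) {x v : V} (h : Cell m N x v) : U m N v ∈ cube m := by
  obtain ⟨h1, h2, -⟩ := h
  have hNR : (0 : ℝ) < N := by exact_mod_cast hN
  refine ⟨fun i => ?_, fun i => ?_⟩
  · change (-1 : ℝ) ≤ -1 + 2 * (v i : ℝ) / N
    have : (0 : ℝ) ≤ 2 * (v i : ℝ) / N := by positivity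
    linarith
  · change -1 + 2 * (v i : ℝ) / N ≤ 1
    have h3 : v i ≤ N := by
      have h4 := h1 i i.2
      rcases h2 i i.2 with h5 | h5 <;> omega
    have h4 : (v i : ℝ) ≤ N := by exact_mod_cast h3
    have h5 : 2 * (v i : ℝ) / N ≤ 2 := by
      rw [div_le_iff₀ hNR]
      linarith
    linarith

lemma U_close {N : ℕ} (hN : 0 < N) {x v w : V} (h : Cell m N x v) (h' : Cell m N x w) :
    dist (U m N v) (U m N w) ≤ 2 / N := by
  obtain ⟨-, h2, -⟩ := h
  obtain ⟨-, h2', -⟩ := h'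
  have hNR : (0 : ℝ) < N := by exact_mod_cast hN
  rw [dist_pi_le_iff (by positivity)]
  intro i
  change |(-1 + 2 * (v i : ℝ) / N) - (-1 + 2 * (w i : ℝ) / N)| ≤ 2 / N
  have e : (-1 + 2 * (v i : ℝ) / N) - (-1 + 2 * (w i : ℝ) / N) = 2 / N * ((v i : ℝ) - w i) := by
    field_simp
    ring
  rw [e, abs_mul, abs_of_pos (by positivity : (0 : ℝ) < 2 / N)]
  have h3 : |(v i : ℝ) - w i| ≤ 1 := by
    rcases h2 i i.2 with h | h <;> rcases h2' i i.2 with h' | h' <;> rw [h, h'] <;> push_cast <;>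
      rw [abs_le] <;> constructor <;> linarith
  calc 2 / (N : ℝ) * |(v i : ℝ) - w i| ≤ 2 / N * 1 :=
        mul_le_mul_of_nonneg_left h3 (by positivity)
    _ = _ := mul_one _

/-- fine grids have small mesh -/
lemma mesh {ψ : (Fin m → ℝ) → M} (hc : Continuous ψ) {μ : ℝ} (hμ : 0 < μ) :
    ∃ N : ℕ, 0 < N ∧ Mesh m N (fun v => ψ (U m N v)) μ := by
  have h1 : UniformContinuousOn ψ (cube m) :=
    isCompact_Icc.uniformContinuousOn_of_continuous hc.continuousOn
  rw [Metric.uniformContinuousOn_iff] at h1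
  obtain ⟨δ, hδ, h2⟩ := h1 μ hμ
  obtain ⟨N, hN⟩ := exists_nat_gt (2 / δ)
  have hN0 : 0 < N := by
    have : (0 : ℝ) < N := lt_trans (by positivity) hN
    exact_mod_cast this
  refine ⟨N, hN0, fun x v w hv hw => ?_⟩
  have h3 : 2 / (N : ℝ) < δ := by
    rw [div_lt_iff₀ (by exact_mod_cast hN0)]
    rw [div_lt_iff₀ hδ] at hN
    linarith
  exact (h2 _ (U_mem hN0 hv) _ (U_mem hN0 hw) ((U_close hN0 hv hw).trans_lt h3)).le

lemma small_cube {u : Fin m → ℝ} {a : ℝ} (ha : a ≤ 1)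
    (hu : u ∈ Icc (fun _ : Fin m => -a) (fun _ => a)) : u ∈ cube m :=
  ⟨fun i => (by linarith : (-1 : ℝ) ≤ -a).trans (hu.1 i), fun i => (hu.2 i).trans ha⟩

/-- points near the middle of the chart -/
lemma near {ψ : (Fin m → ℝ) → M} {ρ : ℝ} (hψ : Chart m ψ ρ) {u : Fin m → ℝ}
    (hu : u ∈ Icc (fun _ : Fin m => (-1 / 2 : ℝ)) (fun _ => 1 / 2)) {z : M}
    (hz : dist z (ψ u) < ρ) : ∃ u' ∈ Icc (fun _ : Fin m => (-3 / 4 : ℝ)) (fun _ => 3 / 4),
      u' ∈ cube m ∧ ψ u' = z := by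
  obtain ⟨u', hu', h⟩ := hψ.2.2.2 u hu z hz
  refine ⟨u', hu', ⟨fun i => ?_, fun i => ?_⟩, h⟩
  · have h1 : (-3 / 4 : ℝ) ≤ u' i := hu'.1 i
    change (-1 : ℝ) ≤ u' i
    linarith
  · have h1 : u' i ≤ (3 / 4 : ℝ) := hu'.2 i
    change u' i ≤ (1 : ℝ)
    linarith

lemma psi_cl {ψ : (Fin m → ℝ) → M} {ρ : ℝ} (hψ : Chart m ψ ρ) (u : Fin m → ℝ) :
    ψ u = ψ (cl u) := hψ.2.2.1 u

lemma inter {ψ : (Fin m → ℝ) → M} {ρ : ℝ} (hψ : Chart m ψ ρ) {u : Fin m → ℝ}
    (hu : u ∈ Icc (fun _ : Fin m => (-1 / 2 : ℝ)) (fun _ => 1 / 2)) {N : ℕ} (hN : 0 < N)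
    {t : ℝ} (ht : t < ρ) : Inter m N (fun v => ψ (U m N v)) (ψ u) t := by
  intro v hv i hi
  obtain ⟨u', hu', hc', h⟩ := near hψ hu (hv.trans_lt ht)
  beta_reduce at h
  rw [psi_cl hψ (U m N v)] at h
  have h1 := hψ.2.1 hc' (cl_mem _) h
  have hNR : (N : ℝ) ≠ 0 := by exact_mod_cast hN.ne'
  have h2 : u' ⟨i, hi⟩ = max (-1) (min 1 (-1 + 2 * (v i : ℝ) / N)) := by
    rw [h1]
    rfl
  have h3 : (-3 / 4 : ℝ) ≤ u' ⟨i, hi⟩ := hu'.1 ⟨i, hi⟩
  have h4 : u' ⟨i, hi⟩ ≤ (3 / 4 : ℝ) := hu'.2 ⟨i, hi⟩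
  constructor
  · intro h0
    rw [h2, h0] at h3
    norm_num at h3
  · intro h0
    rw [h2, h0] at h4
    have e : (-1 : ℝ) + 2 * (N : ℝ) / N = 1 := by
      field_simp
      ring
    rw [e] at h4
    norm_num at h4

end CoreAux

open CoreAux

theorem t_CORE (hhole : S_HOLE) (hprop : S_PROP) (hseq : S_SEQ) (hgrp : S_GRP) : S_CORE := by
  intro m L hm
  obtain ⟨c, hc, hseqc⟩ := hseq m L hm
  have hmR : (1 : ℝ) ≤ m := by exact_mod_cast hm
  refine ⟨min (c / 2) (1 / (4000 * m)), lt_min (by positivity) (by positivity), ?_⟩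
  intro M _ δ R ρ ψ hδ hδ0 hR hρ hnet hcoord hψ
  have hδc : δ ≤ c / 2 := hδ0.trans (min_le_left _ _)
  have hδm : δ ≤ 1 / (4000 * m) := hδ0.trans (min_le_right _ _)
  obtain ⟨κ, hκ, hκ2⟩ := kappa hψ.1 hψ.2.1
  refine ⟨min R (min (ρ / 2) κ), lt_min hR (lt_min (by linarith) hκ), min_le_left _ _, ?_⟩
  intro t ht htt u hu X hX p hp
  have htR : t < R := htt.trans_le (min_le_left _ _)
  have htρ : t < ρ / 2 := htt.trans_le ((min_le_right _ _).trans (min_le_left _ _))
  have htκ : t < κ := htt.trans_le ((min_le_right _ _).trans (min_le_right _ _))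
  by_contra hcon
  push Not at hcon
  set ε : ℝ := 2 * (δ * t) with hε
  have hε0 : 0 ≤ ε := by positivity
  have hεc : ε ≤ c * t := by
    rw [hε]
    have := mul_le_mul_of_nonneg_right hδc ht.le
    linarith
  have hεm : ε ≤ t / (1000 * m) := by
    have h1 := mul_le_mul_of_nonneg_right hδm ht.le
    have h2 : 1 / (4000 * (m : ℝ)) * t = t / (1000 * m) / 4 := by
      field_simp
      ring
    have h3 : 0 ≤ t / (1000 * m) := by positivity
    rw [hε]
    linarith
  have hεt : ε ≤ t / 100 := by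
    refine hεm.trans ?_
    apply div_le_div_of_nonneg_left ht.le (by norm_num)
    linarith
  set μ : ℝ := min (c * t) (min (t / (10000 * (m + 1) ^ 3)) (t / (400 * m))) with hμ
  have hμ0 : 0 < μ := lt_min (by positivity) (lt_min (by positivity) (by positivity))
  have hμc : μ ≤ c * t := min_le_left _ _
  have hμp : μ ≤ t / (10000 * (m + 1) ^ 3) := (min_le_right _ _).trans (min_le_left _ _)
  have hμm : μ ≤ t / (400 * m) := (min_le_right _ _).trans (min_le_right _ _)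
  have hμ100 : μ ≤ t / (100 * m) := by
    refine hμm.trans ?_
    apply div_le_div_of_nonneg_left ht.le (by positivity)
    linarith
  have hμt : μ ≤ t / 400 := by
    refine hμm.trans ?_
    apply div_le_div_of_nonneg_left ht.le (by norm_num)
    linarith
  obtain ⟨N, hN, hmesh⟩ := mesh (m := m) hψ.1 hμ0
  set g : V → M := fun v => ψ (U m N v) with hg
  have hint : ∀ u' ∈ Icc (fun _ : Fin m => (-1 / 2 : ℝ)) (fun _ => 1 / 2), Inter m N g (ψ u') t :=
    fun u' hu' => inter hψ hu' hN (by linarith)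
  -- the degree is zero at `ψ u`
  have hD0 : DZ m N g (ψ u) t X := by
    refine hhole m N hm M g (ψ u) t ε μ (t / 400) X ht hεt hμ0.le hμ100 hX hmesh (hint u hu) p
      (by linarith) ?_ (fun v hv => hcon (g v) hv)
    have h1 := mul_le_mul_of_nonneg_left hμm (by positivity : (0 : ℝ) ≤ m)
    have h2 : (m : ℝ) * (t / (400 * m)) = t / 400 := by
      field_simp
    linarith
  -- propagation
  set Pd : (Fin m → ℝ) → Prop := fun a => ∀ X' : M → E m, Coord (ψ a) t ε X' →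
    DZ m N g (ψ a) t X' with hPd
  have hstep : ∀ a ∈ Icc (fun _ : Fin m => (-1 / 2 : ℝ)) (fun _ => 1 / 2),
      ∀ b ∈ Icc (fun _ : Fin m => (-1 / 2 : ℝ)) (fun _ => 1 / 2),
      dist (ψ a) (ψ b) ≤ t / 8 → Pd a → Pd b := by
    intro a _ b hb hab hPa X' hX'
    obtain ⟨Xa, hXa⟩ := hcoord (ψ a) t ht htR
    exact hprop m N hm M g (ψ a) (ψ b) t ε μ Xa X' ht hε0 hεm hμ0.le hμp hXa hX' hmesh
      (hint b hb) hab (hPa Xa hXa)
  have hPu : Pd u := by
    intro X' hX'
    exact hprop m N hm M g (ψ u) (ψ u) t ε μ X X' ht hε0 hεm hμ0.le hμp hX hX' hmesh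
      (hint u hu) (by rw [dist_self]; positivity) hD0
  have hPall : ∀ b ∈ Icc (fun _ : Fin m => (-1 / 2 : ℝ)) (fun _ => 1 / 2), Pd b := by
    intro b hb
    have hconn : IsPreconnected (Icc (fun _ : Fin m => (-1 / 2 : ℝ)) (fun _ => 1 / 2)) :=
      (convex_Icc _ _).isPreconnected
    have h1 := hconn.induction₂ (fun a b => Pd a ↔ Pd b) (fun a ha => ?_)
      (fun _ _ _ _ _ _ h1 h2 => h1.trans h2) (fun _ _ _ _ h => h.symm) hu hb
    · exact h1.1 hPu
    · have h2 : ∀ᶠ y in 𝓝 a, dist (ψ a) (ψ y) < t / 8 := by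
        have h3 : Tendsto (fun y => dist (ψ a) (ψ y)) (𝓝 a) (𝓝 (dist (ψ a) (ψ a))) :=
          (continuous_const.dist hψ.1).tendsto a
        rw [dist_self] at h3
        exact h3.eventually_lt_const (by positivity)
      filter_upwards [nhdsWithin_le_nhds h2, self_mem_nhdsWithin] with y hy hyI
      exact ⟨hstep a ha y hyI hy.le, hstep y hyI a ha (by rw [dist_comm]; exact hy.le)⟩
  -- the net
  obtain ⟨Y, hsep, hcov⟩ := hnet t ht
  set Y' : ℕ → Set M := fun k => Y k ∩ ψ '' Icc (fun _ : Fin m => (-1 / 2 : ℝ)) (fun _ => 1 / 2)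
    with hY'
  have hXex : ∀ y : M, ∃ X : M → E m, Coord y t ε X := fun y => hcoord y t ht htR
  choose XX hXX using hXex
  obtain ⟨f, hf1, hf2, hf3⟩ := hseqc N M g t ε μ Y' XX ht hε0 hεc hμ0.le hμc hmesh
    (fun k hk y hy y' hy' hne => hsep k hk y hy.1 y' hy'.1 hne)
    (fun k _ y hy => by
      obtain ⟨-, u', hu', rfl⟩ := hy
      exact ⟨hXX _, hPall u' hu' _ (hXX _)⟩)
  -- boundary vertices are not moved
  have hbd : ∀ (v : V) (i : ℕ), i < m → (v i = 0 ∨ v i = N) → f v = g v := by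
    intro v i hi hv
    apply hf2
    intro k _ y hy
    obtain ⟨-, u', hu', rfl⟩ := hy
    by_contra hlt
    obtain ⟨h1, h2⟩ := hint u' hu' v (not_lt.1 hlt) i hi
    rcases hv with h | h
    · exact h1 h
    · exact h2 h
  -- all the points are in the chart
  have hchart : ∀ v, ∃ u' ∈ cube m, ψ u' = f v := by
    intro v
    by_cases h : ∀ k, k < L → ∀ y ∈ Y' k, t < dist (g v) y
    · rw [hf2 v h]
      exact ⟨cl (U m N v), cl_mem _, (psi_cl hψ _).symm⟩
    · push Not at h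
      obtain ⟨k, _, y, hy, hd⟩ := h
      obtain ⟨-, u', hu', rfl⟩ := hy
      have h1 : dist (f v) (ψ u') < ρ := by
        have h2 := dist_triangle (f v) (g v) (ψ u')
        have h3 := hf1 v
        linarith
      obtain ⟨u'', -, hc'', h2⟩ := near hψ hu' h1
      exact ⟨u'', hc'', h2⟩
  choose W hWc hWf using hchart
  set lam : V → ℕ := fun v => La ψ (f v) with hlam
  have hlamW : ∀ v, lam v = lab (W v) := by
    intro v
    simp only [hlam]
    rw [← hWf v]
    exact La_eq hψ.2.1 (hWc v)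
  have hNR : (N : ℝ) ≠ 0 := by exact_mod_cast hN.ne'
  have hWbd : ∀ (v : V) (i : ℕ) (hi : i < m), (v i = 0 ∨ v i = N) →
      W v = cl (U m N v) := by
    intro v i hi hv
    apply hψ.2.1 (hWc v) (cl_mem _)
    rw [hWf, hbd v i hi hv, ← psi_cl hψ]
  have hpar : sumG m N (fun l => rain m (l.map lam)) = 1 := by
    refine H63Fed.Kuhn.kuhn_parity N (fun _ => 0) m lam (fun v => La_le ψ _) ?_ ?_
    · intro i hi v hv h
      rw [hlamW] at h
      have h1 := lab_pos (⟨i, hi⟩ : Fin m) h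
      rw [hWbd v i hi (Or.inl hv)] at h1
      change 0 < max (-1) (min 1 (-1 + 2 * (v i : ℝ) / N)) at h1
      rw [hv] at h1
      norm_num at h1
    · intro i hi v hv
      rw [hlamW]
      refine lab_le_of (⟨i, hi⟩ : Fin m) ?_
      rw [hWbd v i hi (Or.inr hv)]
      change 0 < max (-1) (min 1 (-1 + 2 * (v i : ℝ) / N))
      rw [hv]
      have e : (-1 : ℝ) + 2 * (N : ℝ) / N = 1 := by
        field_simp
        ring
      rw [e]
      norm_num
  -- grouping
  have hzero := hgrp m N M f {a | ∃ k, k < L ∧ ∃ y ∈ Y' k, dist a y ≤ t / 4}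
    (fun l => rain m (l.map (La ψ)))
    (fun l l' hl => by
      unfold rain H63Fed.Kuhn.ind
      have : ((l.map (La ψ) : List ℕ) : Multiset ℕ) = (l'.map (La ψ) : List ℕ) :=
        Multiset.coe_eq_coe.2 (hl.map _)
      simp only [this])
    (fun l hl => by
      unfold rain H63Fed.Kuhn.ind
      rw [if_neg]
      intro h
      apply hl
      have h1 : (l.map (La ψ)).Nodup := by
        rw [← Multiset.coe_nodup, h]
        exact Multiset.nodup_range _
      exact h1.of_map _)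
    (fun x l hl hne => by
      have h0 : ((l.map f).map (La ψ) : Multiset ℕ) = Multiset.range (m + 1) := by
        by_contra hcon
        apply hne
        unfold rain H63Fed.Kuhn.ind
        rw [if_neg hcon]
      have hlab : ∀ j, j ≤ m → ∃ v ∈ l, lab (W v) = j := by
        intro j hj
        have h1 : j ∈ ((l.map f).map (La ψ) : Multiset ℕ) := by
          rw [h0, Multiset.mem_range]
          omega
        rw [Multiset.mem_coe, List.mem_map] at h1
        obtain ⟨z, hz, rfl⟩ := h1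
        rw [List.mem_map] at hz
        obtain ⟨v, hv, rfl⟩ := hz
        exact ⟨v, hv, (hlamW v).symm⟩
      have hclose : ∀ v ∈ l, ∀ v' ∈ l, ∀ i, |W v i - W v' i| < 1 / 8 := by
        intro v hv v' hv'
        apply hκ2 _ (hWc v) _ (hWc v')
        rw [hWf, hWf]
        have h1 := dist_triangle4 (f v) (g v) (g v') (f v')
        have h2 := hf1 v
        have h3 := hf1 v'
        rw [dist_comm] at h3
        have h4 := hmesh x v v' (hl v hv) (hl v' hv')
        change dist (g v) (g v') ≤ μ at h4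
        linarith
      obtain ⟨v, hv, hvm⟩ := hlab m le_rfl
      have hW8 : ∀ i, |W v i| ≤ 1 / 8 := by
        intro i
        have h1 : W v i ≤ 0 := by
          by_contra hcon
          have h2 := lab_le_of i (not_le.1 hcon)
          have := i.2
          omega
        obtain ⟨v', hv', h2⟩ := hlab i i.2.le
        have h3 := lab_pos i h2
        have h4 := abs_lt.1 (hclose v hv v' hv' i)
        rw [abs_le]
        constructor <;> linarith
      obtain ⟨k, hk, y, hy, hd⟩ := hcov (f v)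
      have hu2 : W v ∈ Icc (fun _ : Fin m => (-1 / 2 : ℝ)) (fun _ => 1 / 2) :=
        ⟨fun i => by have := (abs_le.1 (hW8 i)).1; change (-1 / 2 : ℝ) ≤ W v i; linarith,
          fun i => by have := (abs_le.1 (hW8 i)).2; change W v i ≤ (1 / 2 : ℝ); linarith⟩
      obtain ⟨u'', -, hc'', hyu⟩ := near hψ (z := y) hu2 (by
        rw [hWf, dist_comm]
        linarith)
      refine ⟨v, hv, k, hk, y, ⟨hy, u'', ?_, hyu⟩, by linarith⟩
      have h5 := hκ2 _ (hWc v) _ hc'' (by rw [hWf, hyu]; linarith)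
      refine ⟨fun i => ?_, fun i => ?_⟩
      · have h6 := abs_lt.1 (h5 i)
        have h7 := abs_le.1 (hW8 i)
        change (-1 / 2 : ℝ) ≤ u'' i
        linarith
      · have h6 := abs_lt.1 (h5 i)
        have h7 := abs_le.1 (hW8 i)
        change u'' i ≤ (1 / 2 : ℝ)
        linarith)
    (fun A h1 h2 h3 => hf3 A h1 h2 h3)
  have hfin : (1 : ZMod 2) = 0 := by
    rw [← hpar, ← hzero]
    congr 1
    funext l
    rw [List.map_map]
    rfl
  exact one_ne_zero hfin

end R859.BT
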