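import Pool.Agent.R859.BT.Stm

set_option autoImplicit false

/-! BT-DZH: the local degree does not depend on the labelling. -/

namespace R859.BT

open Metric Set Filter Topology
open scoped Classical

namespace DZHaux

theorem norm_bound {m : ℕ} (a p : E m) (s : ℝ) (hs : 0 ≤ s)
    (h : ∀ i, |a i| ≤ |p i| + s) : ‖a‖ ≤ ‖p‖ + m * s := by
  have h0 : 0 ≤ ‖p‖ + m * s := by positivity
  refine abs_le_of_sq_le_sq' ?_ h0 |>.2
  rw [EuclideanSpace.norm_sq_eq]
  have hp : ‖p‖ ^ 2 = ∑ i, ‖p i‖ ^ 2 := EuclideanSpace.norm_sq_eq p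
  have hpi : ∀ i, |p i| ≤ ‖p‖ := fun i => by
    have := PiLp.norm_apply_le p i
    simpa [Real.norm_eq_abs] using this
  have h1 : ∀ i, ‖a i‖ ^ 2 ≤ ‖p i‖ ^ 2 + (2 * s * ‖p‖ + s ^ 2) := by
    intro i
    rw [Real.norm_eq_abs, Real.norm_eq_abs]
    have h2 : |a i| ^ 2 ≤ (|p i| + s) ^ 2 := pow_le_pow_left₀ (abs_nonneg _) (h i) 2
    nlinarith [hpi i, abs_nonneg (p i)]
  calc ∑ i, ‖a i‖ ^ 2 ≤ ∑ i, (‖p i‖ ^ 2 + (2 * s * ‖p‖ + s ^ 2)) :=
        Finset.sum_le_sum fun i _ => h1 i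
    _ = ‖p‖ ^ 2 + m * (2 * s * ‖p‖ + s ^ 2) := by
        rw [Finset.sum_add_distrib, ← hp, Finset.sum_const, Finset.card_univ, Fintype.card_fin,
          nsmul_eq_mul]
    _ ≤ (‖p‖ + m * s) ^ 2 := by
        have hm : (m : ℝ) ≤ (m : ℝ) ^ 2 := by
          rcases Nat.eq_zero_or_pos m with h0 | h0
          · subst h0; simp
          · have : (1 : ℝ) ≤ m := by exact_mod_cast h0
            nlinarith
        nlinarith [mul_nonneg (sq_nonneg s) (sub_nonneg.2 hm), norm_nonneg p]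

/-- the direct labelling at `0` -/
noncomputable def ref {m : ℕ} {M : Type} (g : V → M) (X : M → E m) (v : V) : ℕ :=
  if h : ∃ i : Fin m, X (g v) i < 0 then (h.choose : ℕ) + 1 else 0

theorem ref_le {m : ℕ} {M : Type} (g : V → M) (X : M → E m) (v : V) : ref g X v ≤ m := by
  unfold ref
  split_ifs with h
  · exact h.choose.2
  · exact Nat.zero_le _

theorem ref_zero {m : ℕ} {M : Type} (g : V → M) (X : M → E m) (v : V) (h : ref g X v = 0)
    (i : Fin m) : 0 ≤ X (g v) i := by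
  unfold ref at h
  split_ifs at h with h'
  push Not at h'
  exact h' i

theorem ref_succ {m : ℕ} {M : Type} (g : V → M) (X : M → E m) (v : V) (i : Fin m)
    (h : ref g X v = (i : ℕ) + 1) : X (g v) i ≤ 0 := by
  unfold ref at h
  split_ifs at h with h'
  · have h2 : h'.choose = i := Fin.ext (by omega)
    have h3 := h'.choose_spec
    rw [h2] at h3
    exact h3.le

theorem eq_ref (hHOM : S_HOM) (m N : ℕ) (hm : 1 ≤ m) (M : Type) [MetricSpace M] (g : V → M) (y : M)
    (t ε μ : ℝ) (X : M → E m) (ht : 0 < t) (hε : ε ≤ t / 100) (hμ0 : 0 ≤ μ)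
    (hμ : μ ≤ t / (100 * m)) (hX : Coord y t ε X) (hM : Mesh m N g μ) (hI : Inter m N g y t)
    (lam : V → ℕ) (p : E m) (r : ℝ) (hp : ‖p‖ ≤ 6 / 10 * t) (hr0 : 0 ≤ r)
    (hr : r ≤ t / (100 * m)) (hA : Adm g y t X p r lam) :
    cutB m N g y t lam = cutB m N g y t (ref g X) := by
  have hm' : (1 : ℝ) ≤ m := by exact_mod_cast hm
  have hm0 : (0 : ℝ) < m := by linarith
  have hμt : μ ≤ t / 100 := hμ.trans (by
    rw [div_le_div_iff₀ (by positivity) (by norm_num)]
    nlinarith)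
  have hmμ : (m : ℝ) * (r + μ) ≤ 2 / 100 * t := by
    have h1 : (m : ℝ) * (t / (100 * m)) = t / 100 := by field_simp
    have h2 : (m : ℝ) * r ≤ t / 100 := by
      rw [← h1]; exact mul_le_mul_of_nonneg_left hr hm0.le
    have h3 : (m : ℝ) * μ ≤ t / 100 := by
      rw [← h1]; exact mul_le_mul_of_nonneg_left hμ hm0.le
    nlinarith
  apply hHOM m N _ lam (ref g X) hA.1 (ref_le g X)
  · intro v hv i hi
    have hv' : dist (g v) y ≤ 9 / 10 * t := hv
    exact hI v (by linarith) i hi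
  · intro x l hl hW hlab w hw
    show dist (g w) y ≤ 9 / 10 * t
    have hlow : ∀ i : Fin m, ∃ v ∈ l, -(|p i| + r) ≤ X (g v) i := by
      intro i
      obtain ⟨v, hv, h⟩ := hlab 0 (Nat.zero_le _)
      refine ⟨v, hv, ?_⟩
      have hvW : dist (g v) y ≤ 9 / 10 * t := hW v hv
      rcases h with h | h
      · have h1 := (hA.2 v hvW).1 h i
        have h2 := neg_abs_le (p i)
        linarith
      · have h1 := ref_zero g X v h i
        have h2 := abs_nonneg (p i)
        linarith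
    have hup : ∀ i : Fin m, ∃ v ∈ l, X (g v) i ≤ |p i| + r := by
      intro i
      obtain ⟨v, hv, h⟩ := hlab ((i : ℕ) + 1) i.2
      refine ⟨v, hv, ?_⟩
      have hvW : dist (g v) y ≤ 9 / 10 * t := hW v hv
      rcases h with h | h
      · have h1 := (hA.2 v hvW).2 i h
        have h2 := le_abs_self (p i)
        linarith
      · have h1 := ref_succ g X v i h
        have h2 := abs_nonneg (p i)
        linarith
    have hclose : ∀ v ∈ l, ∀ i : Fin m, |X (g w) i - X (g v) i| ≤ μ := by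
      intro v hv i
      have h1 : dist (X (g w)) (X (g v)) ≤ μ := (hX.2.1 _ _).trans (hM x w v hw (hl v hv))
      have h2 : ‖(X (g w) - X (g v)) i‖ ≤ ‖X (g w) - X (g v)‖ := PiLp.norm_apply_le _ i
      rw [dist_eq_norm] at h1
      have h3 : ‖(X (g w) - X (g v)) i‖ = |X (g w) i - X (g v) i| := by
        rw [Real.norm_eq_abs]; rfl
      rw [h3] at h2
      linarith
    have hco : ∀ i : Fin m, |X (g w) i| ≤ |p i| + (r + μ) := by
      intro i
      obtain ⟨v, hv, h1⟩ := hlow i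
      obtain ⟨v', hv', h2⟩ := hup i
      have h3 := abs_le.1 (hclose v hv i)
      have h4 := abs_le.1 (hclose v' hv' i)
      rw [abs_le]
      constructor
      · linarith [h3.1]
      · linarith [h4.2]
    have hnorm : ‖X (g w)‖ ≤ 62 / 100 * t := by
      have h1 := norm_bound (X (g w)) p (r + μ) (by linarith) hco
      linarith
    obtain ⟨v, hv, -⟩ := hlab 0 (Nat.zero_le _)
    have hvW : dist (g v) y ≤ 9 / 10 * t := hW v hv
    have h1 : dist (g w) (g v) ≤ μ := hM x w v hw (hl v hv)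
    have h2 : dist (g w) y ≤ t := by
      have := dist_triangle (g w) (g v) y
      linarith
    have h3 := hX.2.2 (g w) y h2 (by rw [dist_self]; exact ht.le)
    rw [hX.1, dist_zero_right] at h3
    linarith

end DZHaux

theorem t_DZH (hHOM : S_HOM) : S_DZH := by
  intro m N hm M _ g y t ε μ X ht hε hμ0 hμ hX hM hI lam0 p0 r0 hp0 hr0 hr0' hA0 h0 lam p r hp hr hr'
    hA
  rw [DZHaux.eq_ref hHOM m N hm M g y t ε μ X ht hε hμ0 hμ hX hM hI lam p r hp hr hr' hA,
    ← DZHaux.eq_ref hHOM m N hm M g y t ε μ X ht hε hμ0 hμ hX hM hI lam0 p0 r0 hp0 hr0 hr0' hA0]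
  exact h0

end R859.BT
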