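import Mathlib
import Pool.Agent.H63Fed.Kuhn

set_option autoImplicit false

/-!
Project BT (MP_e0d06b_an): beta and theta numbers of closed manifolds with small beta numbers.
Common definitions.  See notes.md for the complete proof and the list of pieces.
-/

namespace R859.BT

open Metric Set Filter Topology
open scoped Classical

/-- Vertices of integer grids (only the first `m` coordinates matter). -/
abbrev V := ℕ → ℕ

abbrev E (n : ℕ) := EuclideanSpace ℝ (Fin n)

/-- `v` is a vertex of the cell of the grid `{0,…,N}^m` with lower corner `x`. -/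
def Cell (m N : ℕ) (x v : V) : Prop :=
  (∀ i, i < m → x i < N) ∧ (∀ i, i < m → v i = x i ∨ v i = x i + 1) ∧ ∀ i, m ≤ i → v i = 0

/-- Mod 2 sum of `φ` over the simplices (lists of `m+1` vertices) of the Kuhn triangulation of the
grid `{0,…,N}^m`. -/
noncomputable def sumG (m N : ℕ) (φ : List V → ZMod 2) : ZMod 2 :=
  H63Fed.Kuhn.grid N (fun _ => 0) m φ

/-- Indicator of the lists of labels which are a permutation of `0,…,m`. -/
noncomputable def rain (m : ℕ) (L : List ℕ) : ZMod 2 :=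
  H63Fed.Kuhn.ind (Multiset.range (m + 1)) L

/-- Number (mod 2) of the completely labelled simplices all of whose vertices lie in `W`. -/
noncomputable def cut (m N : ℕ) (W : Set V) (lam : V → ℕ) : ZMod 2 :=
  sumG m N (fun l => if ∀ v ∈ l, v ∈ W then rain m (l.map lam) else 0)

/-- Number (mod 2) of the simplices with image (under `f`) the set `A`. -/
noncomputable def par {M : Type} (m N : ℕ) (f : V → M) (A : Multiset M) : ZMod 2 :=
  sumG m N (fun l => if ((l.map f : List M) : Multiset M) = A then 1 else 0)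

/-- A finite set of integer points which spans a simplex of the Kuhn triangulation. -/
def Simp {m : ℕ} (s : Multiset (Fin m → ℤ)) : Prop :=
  ∀ g ∈ s, ∀ h ∈ s, (g ≤ h ∨ h ≤ g) ∧ ∀ i, |g i - h i| ≤ 1

section metric

variable {M : Type} [MetricSpace M]

/-- the images of the vertices of a cell are at mutual distance at most `μ` -/
def Mesh (m N : ℕ) (g : V → M) (μ : ℝ) : Prop :=
  ∀ x v w, Cell m N x v → Cell m N x w → dist (g v) (g w) ≤ μ

/-- the points of `V` mapped into the ball `B(y,t)` are interior points of the grid -/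
def Inter (m N : ℕ) (g : V → M) (y : M) (t : ℝ) : Prop :=
  ∀ v, dist (g v) y ≤ t → ∀ i, i < m → v i ≠ 0 ∧ v i ≠ N

/-- `X` is a system of `m` orthogonal coordinates centred at `y`; in the ball `B(y,t)` it
determines the points up to `ε`. -/
def Coord {m : ℕ} (y : M) (t ε : ℝ) (X : M → E m) : Prop :=
  X y = 0 ∧ (∀ z z', dist (X z) (X z') ≤ dist z z') ∧
    ∀ z z', dist z y ≤ t → dist z' y ≤ t → dist z z' ≤ dist (X z) (X z') + ε

/-- labelling compatible with the coordinates near `p`, up to `r` -/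
def Adm {m : ℕ} (g : V → M) (y : M) (t : ℝ) (X : M → E m) (p : E m) (r : ℝ)
    (lam : V → ℕ) : Prop :=
  (∀ v, lam v ≤ m) ∧ ∀ v, dist (g v) y ≤ 9 / 10 * t →
    (lam v = 0 → ∀ i : Fin m, p i - r ≤ X (g v) i) ∧
    (∀ i : Fin m, lam v = (i : ℕ) + 1 → X (g v) i ≤ p i + r)

/-- The local degree at `y`, computed with the labelling `lam`. -/
noncomputable def cutB (m N : ℕ) (g : V → M) (y : M) (t : ℝ) (lam : V → ℕ) : ZMod 2 :=
  cut m N {v | dist (g v) y ≤ 9 / 10 * t} lam

/-- The local degree at `y` is zero. -/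
def DZ (m N : ℕ) (g : V → M) (y : M) (t : ℝ) (X : M → E m) : Prop :=
  ∀ (lam : V → ℕ) (p : E m) (r : ℝ), ‖p‖ ≤ 6 / 10 * t → 0 ≤ r → r ≤ t / (100 * (m : ℝ)) →
    Adm g y t X p r lam → cutB m N g y t lam = 0

/-- Properties of the rounding map onto integer points. -/
def IsSnap {m : ℕ} (s : (Fin m → ℝ) → (Fin m → ℤ)) : Prop :=
  (∀ (x : Fin m → ℝ) (i : Fin m), |x i - (s x i : ℝ)| < 1) ∧
  ∀ x y : Fin m → ℝ, (∀ i, |x i - y i| < 1 / (2 * ((m : ℝ) + 1))) →
    (s x ≤ s y ∨ s y ≤ s x) ∧ ∀ i, |s x i - s y i| ≤ 1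

/-- the rounded coordinates (grid of mesh `h`) -/
noncomputable def snapX {m : ℕ} (s : (Fin m → ℝ) → (Fin m → ℤ)) (X : M → E m) (h : ℝ) (z : M) : Fin m → ℤ :=
  s (fun i => X z i / h)

/-- `F` is the elimination map at `y` (mesh `h`, radius `8t/10`): points of the ball with the same
rounded coordinates are mapped to one point with these rounded coordinates. -/
def IsElim {m : ℕ} (s : (Fin m → ℝ) → (Fin m → ℤ)) (X : M → E m) (y : M) (t h : ℝ)
    (F : M → M) : Prop :=
  (∀ z, dist z y ≤ 8 / 10 * t → dist (F z) y ≤ 8 / 10 * t ∧ snapX s X h (F z) = snapX s X h z) ∧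
  (∀ z w, dist z y ≤ 8 / 10 * t → dist w y ≤ 8 / 10 * t → snapX s X h z = snapX s X h w →
    F z = F w)

/-- `ψ` is a topological chart of `M` on the cube `[-1,1]^m`, extended by clamping. -/
def Chart (m : ℕ) (ψ : (Fin m → ℝ) → M) (ρ : ℝ) : Prop :=
  Continuous ψ ∧ InjOn ψ (Icc (fun _ => -1) (fun _ => 1)) ∧
  (∀ u, ψ u = ψ (fun i => max (-1) (min 1 (u i)))) ∧
  ∀ u ∈ Icc (fun _ : Fin m => (-1 / 2 : ℝ)) (fun _ => 1 / 2), ∀ z, dist z (ψ u) < ρ →
    ∃ u' ∈ Icc (fun _ : Fin m => (-3 / 4 : ℝ)) (fun _ => 3 / 4), ψ u' = z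

/-- `M` has, at the scale `t`, a net divided in `L` classes of points far from each other. -/
def Net (M : Type) [MetricSpace M] (L : ℕ) (t : ℝ) : Prop :=
  ∃ Y : ℕ → Set M, (∀ k, k < L → ∀ y ∈ Y k, ∀ y' ∈ Y k, y ≠ y' → 3 * t < dist y y') ∧
    ∀ z, ∃ k, k < L ∧ ∃ y ∈ Y k, dist z y ≤ t / 8

end metric

/-! ### Euclidean part -/

/-- `M ∩ B(y,t)` lies within `ε` of the plane `y + P`. -/
def Flat {n : ℕ} (M : Set (E n)) (P : Submodule ℝ (E n)) (y : E n) (t ε : ℝ) : Prop :=
  ∀ z ∈ M, dist z y ≤ t → ‖(z - y) - P.starProjection (z - y)‖ ≤ ε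

/-- the plane `y + P` is, near `y`, close to `M` -/
def Full {n : ℕ} (M : Set (E n)) (P : Submodule ℝ (E n)) (y : E n) (t : ℝ) : Prop :=
  ∀ u ∈ P, ‖u‖ ≤ t / 4 → ∃ w ∈ M, dist w (y + u) ≤ t / 100

/-- the linear approximation property in terms of planes -/
def LAP' {n : ℕ} (m : ℕ) (δ R : ℝ) (M : Set (E n)) : Prop :=
  ∀ y ∈ M, ∀ t, 0 < t → t < R → ∃ P : Submodule ℝ (E n), Module.finrank ℝ P = m ∧
    Flat M P y t (δ * t)

/-- flatness implies fullness at the scale `t` -/
def FF {n : ℕ} (m : ℕ) (δ : ℝ) (M : Set (E n)) (t : ℝ) : Prop :=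
  ∀ y ∈ M, ∀ P : Submodule ℝ (E n), Module.finrank ℝ P = m → Flat M P y t (δ * t) → Full M P y t

/-- The beta number of the closed ball `B(x,r)`. -/
noncomputable def beta (m : ℕ) {n : ℕ} (X : Set (E n)) (x : E n) (r : ℝ) : ℝ :=
  1 / r * ⨅ P : {P : Submodule ℝ (E n) // Module.finrank ℝ P = m},
    ⨆ z : ↥(closedBall x r ∩ X), infDist (z : E n) ((fun u => x + u) '' (P.1 : Set (E n)))

/-- The theta number of the closed ball `B(x,r)`. -/
noncomputable def theta (m : ℕ) {n : ℕ} (X : Set (E n)) (x : E n) (r : ℝ) : ℝ :=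
  1 / r * ⨅ P : {P : Submodule ℝ (E n) // Module.finrank ℝ P = m},
    hausdorffDist ((fun u => x + u) '' (P.1 : Set (E n)) ∩ closedBall x r) (X ∩ closedBall x r)

/-- The `(m,δ,R)`-linear approximation property. -/
def LAP (m : ℕ) {n : ℕ} (δ R : ℝ) (X : Set (E n)) : Prop :=
  ∀ x ∈ X, ∀ r, 0 < r → r < R → beta m X x r < δ

/-- A closed `m`-manifold in `ℝ^n`: a compact subset which is locally homeomorphic to `ℝ^m`. -/
def ClosedManifold (m : ℕ) {n : ℕ} (M : Set (E n)) : Prop :=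
  IsCompact M ∧ ∀ x : M, ∃ e : OpenPartialHomeomorph M (E m), x ∈ e.source

end R859.BT
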