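import Pool.Agent.R859.BT.Stm

set_option autoImplicit false

/-!
Project BT (MP_e0d06b_an), piece EL: after the elimination map no simplex is left near `y`.
-/

namespace R859.BT

open Metric Set Filter Topology
open scoped Classical

theorem el_coord {m : ℕ} (x y : E m) (i : Fin m) : |x i - y i| ≤ dist x y := by
  have h := PiLp.norm_apply_le (x - y) i
  rw [dist_eq_norm]
  simpa using h

theorem el_norm {m : ℕ} (hm : 1 ≤ m) (x : E m) (c : ℝ) (h : ∀ i, |x i| ≤ c) :
    ‖x‖ ≤ m * c := by
  have hc : 0 ≤ c := le_trans (abs_nonneg _) (h ⟨0, hm⟩)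
  have hm1 : (1 : ℝ) ≤ m := by exact_mod_cast hm
  have h1 : ‖x‖ ^ 2 ≤ (m * c) ^ 2 := by
    rw [EuclideanSpace.norm_sq_eq]
    have h2 : ∑ i : Fin m, ‖x i‖ ^ 2 ≤ ∑ _i : Fin m, c ^ 2 := by
      apply Finset.sum_le_sum
      intro i _
      rw [Real.norm_eq_abs]
      exact pow_le_pow_left₀ (abs_nonneg _) (h i) 2
    rw [Finset.sum_const, Finset.card_univ, Fintype.card_fin, nsmul_eq_mul] at h2
    have h3 : (m : ℝ) * c ^ 2 ≤ (m * c) ^ 2 := by
      rw [mul_pow]
      exact mul_le_mul_of_nonneg_right (by nlinarith) (sq_nonneg c)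
    linarith
  exact abs_le_of_sq_le_sq' h1 (by positivity) |>.2

theorem el_sum_congr {m N : ℕ} (hR : S_REP) (φ ψ : List V → ZMod 2)
    (h : ∀ x (l : List V), (∀ v ∈ l, Cell m N x v) → φ l = ψ l) : sumG m N φ = sumG m N ψ := by
  obtain ⟨S, hS, hS2⟩ := hR m N
  rw [hS, hS]
  congr 1
  apply Multiset.map_congr rfl
  intro l hl
  obtain ⟨_, x, hx⟩ := hS2 l hl
  exact h x l hx

theorem el_sum_zero {m N : ℕ} (hR : S_REP) : sumG m N (fun _ => 0) = 0 := by
  obtain ⟨S, hS, hS2⟩ := hR m N
  rw [hS]
  simp

theorem t_EL (hR : S_REP) (hU : S_UNIQ) : S_EL := by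
  intro m N hm M _ g f y t ε μ D0 D h X s F ht hh hht hε hC hs hF hD hDt hfg hD0 hD0t hM hμ hDZ
    A hAn hAc hAy
  obtain ⟨a, haA, hay⟩ := hAy
  have hm1 : (1 : ℝ) ≤ m := by exact_mod_cast hm
  have hht' : (m : ℝ) * h ≤ t / 1000 := by
    rw [le_div_iff₀ (by positivity)] at hht
    linarith
  have hD0t' : (m : ℝ) * D0 ≤ t / 1000 := by
    rw [le_div_iff₀ (by positivity)] at hD0t
    linarith
  have hh1 : h ≤ t / 1000 := by nlinarith
  have hD1 : D0 ≤ t / 1000 := by nlinarith
  have hμh : μ < h / 4 := by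
    refine lt_of_lt_of_le hμ ?_
    apply div_le_div_of_nonneg_left hh.le (by norm_num)
    linarith
  -- the rounded coordinates of the vertices of a cell
  have hsimp : ∀ x (v w : V), Cell m N x v → Cell m N x w →
      (snapX s X h (f v) ≤ snapX s X h (f w) ∨ snapX s X h (f w) ≤ snapX s X h (f v)) ∧
        ∀ i, |snapX s X h (f v) i - snapX s X h (f w) i| ≤ 1 := by
    intro x v w hv hw
    apply hs.2
    intro i
    have h1 := hM x v w hv hw
    have h2 := hC.2.1 (f v) (f w)
    have h3 := el_coord (X (f v)) (X (f w)) i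
    have h4 : |X (f v) i - X (f w) i| < h / (2 * ((m : ℝ) + 1)) := by linarith
    rw [← sub_div, abs_div, abs_of_pos hh, div_lt_iff₀ hh]
    calc |X (f v) i - X (f w) i| < h / (2 * ((m : ℝ) + 1)) := h4
      _ = 1 / (2 * ((m : ℝ) + 1)) * h := by ring
  -- lists with image A
  have hlA : ∀ x (l : List V), (∀ v ∈ l, Cell m N x v) →
      ((l.map (fun v => F (f v)) : List M) : Multiset M) = A →
      ∀ v ∈ l, dist (f v) y ≤ 521 / 1000 * t := by
    intro x l hl hlA v hv
    have ha : a ∈ l.map (fun v => F (f v)) := by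
      rw [← Multiset.mem_coe, hlA]
      exact haA
    obtain ⟨v1, hv1, ha1⟩ := List.mem_map.1 ha
    have h1 := hD (f v1)
    rw [ha1, dist_comm] at h1
    have h2 := dist_triangle (f v1) a y
    have h3 := hM x v v1 (hl v hv) (hl v1 hv1)
    have h4 := dist_triangle (f v) (f v1) y
    linarith
  by_cases hex : ∃ (x : V) (l : List V), (∀ v ∈ l, Cell m N x v) ∧
      ((l.map (fun v => F (f v)) : List M) : Multiset M) = A
  swap
  · push Not at hex
    unfold par
    rw [el_sum_congr hR _ (fun _ => 0), el_sum_zero hR]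
    intro x l hl
    rw [if_neg (hex x l hl)]
  obtain ⟨x0, l0, hl0, hl0A⟩ := hex
  have hA1 : ∀ b ∈ A, ∃ v ∈ l0, b = F (f v) ∧ dist (f v) y ≤ 521 / 1000 * t := by
    intro b hb
    rw [← hl0A, Multiset.mem_coe] at hb
    obtain ⟨v, hv, hb⟩ := List.mem_map.1 hb
    exact ⟨v, hv, hb.symm, hlA x0 l0 hl0 hl0A v hv⟩
  have hball : ∀ z, dist z y ≤ 8 / 10 * t → snapX s X h (F z) = snapX s X h z :=
    fun z hz => (hF.1 z hz).2
  have hA2 : ∀ b ∈ A, dist b y ≤ 541 / 1000 * t ∧ F b = b := by
    intro b hb
    obtain ⟨v, hv, hbv, hvy⟩ := hA1 b hb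
    have h1 := hD (f v)
    rw [← hbv] at h1
    have h2 := dist_triangle b (f v) y
    refine ⟨by linarith, ?_⟩
    have h3 : snapX s X h b = snapX s X h (f v) := by
      rw [hbv]
      exact hball _ (by linarith)
    have h4 := hF.2 b (f v) (by linarith) (by linarith) h3
    rw [h4, ← hbv]
  have hinj : ∀ b ∈ A, ∀ b' ∈ A, snapX s X h b = snapX s X h b' → b = b' := by
    intro b hb b' hb' he
    have h1 := hA2 b hb
    have h2 := hA2 b' hb'
    have h3 := hF.2 b b' (by linarith) (by linarith) he
    rw [h1.2, h2.2] at h3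
    exact h3
  have hσn : (A.map (snapX s X h)).Nodup :=
    Multiset.Nodup.map_on (fun b hb b' hb' he => hinj b hb b' hb' he) hAn
  have hσc : Multiset.card (A.map (snapX s X h)) = m + 1 := by
    rw [Multiset.card_map, hAc]
  have hσs : Simp (A.map (snapX s X h)) := by
    intro b hb b' hb'
    obtain ⟨c, hc, rfl⟩ := Multiset.mem_map.1 hb
    obtain ⟨c', hc', rfl⟩ := Multiset.mem_map.1 hb'
    obtain ⟨v, hv, hcv, hvy⟩ := hA1 c hc
    obtain ⟨v', hv', hcv', hvy'⟩ := hA1 c' hc'
    have h1 : snapX s X h c = snapX s X h (f v) := by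
      rw [hcv]
      exact hball _ (by linarith)
    have h2 : snapX s X h c' = snapX s X h (f v') := by
      rw [hcv']
      exact hball _ (by linarith)
    rw [h1, h2]
    exact hsimp x0 v v' (hl0 v hv) (hl0 v' hv')
  obtain ⟨p, hp, lam, hlam, hlam0, hlam1, hσl, huniq⟩ := hU m _ hσn hσc hσs
  -- the labelling
  have hsn : ∀ (z : M) (i : Fin m), |X z i - h * (snapX s X h z i : ℝ)| < h := by
    intro z i
    have h1 := hs.1 (fun i => X z i / h) i
    have h2 : X z i - h * (snapX s X h z i : ℝ) = h * (X z i / h - (snapX s X h z i : ℝ)) := by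
      rw [mul_sub, mul_div_cancel₀ _ hh.ne']
    rw [h2, abs_mul, abs_of_pos hh]
    have h3 : |X z i / h - (snapX s X h z i : ℝ)| < 1 := h1
    nlinarith
  -- characterisation of the simplices with image A
  have hchar : ∀ x (l : List V), (∀ v ∈ l, Cell m N x v) →
      ((((l.map (fun v => F (f v)) : List M) : Multiset M) = A) ↔
        ((∀ v ∈ l, v ∈ {v | dist (g v) y ≤ 9 / 10 * t}) ∧
          ((l.map (fun v => lam (snapX s X h (f v))) : List ℕ) : Multiset ℕ) =
            Multiset.range (m + 1))) := by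
    intro x l hl
    constructor
    · intro hA
      have h1 := hlA x l hl hA
      refine ⟨?_, ?_⟩
      · intro v hv
        have h2 := h1 v hv
        have h3 := hfg v
        have h4 := dist_triangle (g v) (f v) y
        rw [dist_comm (g v) (f v)] at h4
        change dist (g v) y ≤ 9 / 10 * t
        linarith
      · rw [← hσl, ← hA, Multiset.map_coe, Multiset.map_coe, List.map_map, List.map_map]
        congr 1
        apply List.map_congr_left
        intro v hv
        simp only [Function.comp_apply]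
        rw [hball _ (by linarith [h1 v hv])]
    · rintro ⟨hW, hlab⟩
      have hτ : (((l.map (fun v => snapX s X h (f v))) : List (Fin m → ℤ)) :
          Multiset (Fin m → ℤ)) = A.map (snapX s X h) := by
        apply huniq
        · intro b hb b' hb'
          rw [Multiset.mem_coe] at hb hb'
          obtain ⟨v, hv, rfl⟩ := List.mem_map.1 hb
          obtain ⟨v', hv', rfl⟩ := List.mem_map.1 hb'
          exact hsimp x v v' (hl v hv) (hl v' hv')
        · rw [Multiset.map_coe, List.map_map]
          exact hlab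
      have h1 : ∀ v ∈ l, F (f v) ∈ A ∧ snapX s X h (F (f v)) = snapX s X h (f v) := by
        intro v hv
        have h2 : snapX s X h (f v) ∈ A.map (snapX s X h) := by
          rw [← hτ, Multiset.mem_coe]
          exact List.mem_map.2 ⟨v, hv, rfl⟩
        obtain ⟨b, hb, hbv⟩ := Multiset.mem_map.1 h2
        have h3 : dist (g v) y ≤ 9 / 10 * t := hW v hv
        have h4 := hfg v
        have h5 := dist_triangle (f v) (g v) y
        have h6 : dist (f v) y ≤ t := by linarith
        have h7 := hA2 b hb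
        have h8 : dist (X (f v)) (X b) ≤ m * (2 * h) := by
          rw [dist_eq_norm]
          apply el_norm hm
          intro i
          have e1 := hsn (f v) i
          have e2 := hsn b i
          rw [hbv] at e2
          rw [PiLp.sub_apply]
          rw [abs_lt] at e1 e2
          rw [abs_le]
          constructor <;> linarith [e1.1, e1.2, e2.1, e2.2]
        have h9 := hC.2.2 (f v) b h6 (by linarith)
        have h10 := dist_triangle (f v) b y
        have h11 := hF.2 (f v) b (by linarith) (by linarith) hbv.symm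
        rw [h11, h7.2]
        exact ⟨hb, hbv⟩
      -- recover A
      have hinv : ∃ inv : (Fin m → ℤ) → M, ∀ b ∈ A, inv (snapX s X h b) = b := by
        have hne : Nonempty M := ⟨y⟩
        refine ⟨fun q => if hq : ∃ b ∈ A, snapX s X h b = q then hq.choose else y, ?_⟩
        intro b hb
        have hq : ∃ b' ∈ A, snapX s X h b' = snapX s X h b := ⟨b, hb, rfl⟩
        simp only [hq, dif_pos]
        exact hinj _ hq.choose_spec.1 _ hb hq.choose_spec.2
      obtain ⟨inv, hinv⟩ := hinv
      have h2 : A = (A.map (snapX s X h)).map inv := by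
        rw [Multiset.map_map]
        conv_lhs => rw [← Multiset.map_id A]
        apply Multiset.map_congr rfl
        intro b hb
        exact (hinv b hb).symm
      rw [h2, ← hτ, Multiset.map_coe, List.map_map]
      congr 1
      apply List.map_congr_left
      intro v hv
      simp only [Function.comp_apply]
      rw [← (h1 v hv).2]
      exact (hinv _ (h1 v hv).1).symm
  -- the number is a local degree
  have hpar : par m N (fun v => F (f v)) A =
      cutB m N g y t (fun v => lam (snapX s X h (f v))) := by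
    unfold par cutB cut
    apply el_sum_congr hR
    intro x l hl
    have h1 := hchar x l hl
    unfold rain H63Fed.Kuhn.ind
    by_cases hA : (((l.map (fun v => F (f v)) : List M) : Multiset M) = A)
    · rw [if_pos hA, if_pos (h1.1 hA).1, if_pos (h1.1 hA).2]
    · rw [if_neg hA]
      by_cases hW : ∀ v ∈ l, v ∈ {v | dist (g v) y ≤ 9 / 10 * t}
      · rw [if_pos hW, if_neg]
        intro h2
        exact hA (h1.2 ⟨hW, h2⟩)
      · rw [if_neg hW]
  rw [hpar]
  obtain ⟨b, hb, hbp⟩ := Multiset.mem_map.1 hp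
  have hdp : dist (WithLp.toLp 2 (fun i => h * (p i : ℝ)) : E m) (X b) ≤ m * h := by
    rw [dist_eq_norm]
    apply el_norm hm
    intro i
    have e1 := hsn b i
    rw [hbp] at e1
    rw [PiLp.sub_apply]
    change |h * (p i : ℝ) - X b i| ≤ h
    rw [abs_sub_comm]
    exact e1.le
  apply hDZ (fun v => lam (snapX s X h (f v))) (WithLp.toLp 2 (fun i => h * (p i : ℝ))) (h + D0)
  · have h1 := (hA2 b hb).1
    have h2 := hC.2.1 b y
    rw [hC.1, dist_zero_right] at h2
    have h3 : ‖(WithLp.toLp 2 (fun i => h * (p i : ℝ)) : E m)‖ ≤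
        ‖(WithLp.toLp 2 (fun i => h * (p i : ℝ)) : E m) - X b‖ + ‖X b‖ := by
      have := norm_add_le ((WithLp.toLp 2 (fun i => h * (p i : ℝ)) : E m) - X b) (X b)
      rwa [sub_add_cancel] at this
    rw [← dist_eq_norm] at h3
    linarith
  · linarith
  · rw [le_div_iff₀ (by positivity)]
    nlinarith
  · refine ⟨fun v => hlam _, ?_⟩
    intro v _
    have hx : ∀ i : Fin m, |X (f v) i - X (g v) i| ≤ D0 := by
      intro i
      exact le_trans (el_coord _ _ i) (le_trans (hC.2.1 _ _) (hfg v))
    refine ⟨?_, ?_⟩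
    · intro h0 i
      have h1 := hlam0 _ h0 i
      have h2 : ((p i : ℤ) : ℝ) + 1 ≤ (snapX s X h (f v) i : ℝ) := by exact_mod_cast h1
      have h3 := abs_lt.1 (hsn (f v) i)
      have h4 := abs_le.1 (hx i)
      change h * (p i : ℝ) - (h + D0) ≤ X (g v) i
      nlinarith [mul_le_mul_of_nonneg_left h2 hh.le]
    · intro i hi
      have h1 := hlam1 _ i hi
      have h2 : (snapX s X h (f v) i : ℝ) ≤ ((p i : ℤ) : ℝ) := by exact_mod_cast h1
      have h3 := abs_lt.1 (hsn (f v) i)
      have h4 := abs_le.1 (hx i)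
      change X (g v) i ≤ h * (p i : ℝ) + (h + D0)
      nlinarith [mul_le_mul_of_nonneg_left h2 hh.le]

end R859.BT
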