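import Pool.Agent.R859.BT.Stm

set_option autoImplicit false

/-!
Project BT (MP_e0d06b_an): the final theorem.
-/

namespace R859.BT

open Metric Set Filter Topology

namespace FINAL

lemma perp_le {n : ℕ} (P : Submodule ℝ (E n)) (v : E n) : ‖v - P.starProjection v‖ ≤ ‖v‖ := by
  rw [← P.starProjection_orthogonal_val]
  exact Pᗮ.norm_starProjection_apply_le v

lemma perp_le_infDist {n : ℕ} (P : Submodule ℝ (E n)) (x z : E n) :
    ‖(z - x) - P.starProjection (z - x)‖ ≤ infDist z ((fun u => x + u) '' (P : Set (E n))) := by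
  have hne : ((fun u => x + u) '' (P : Set (E n))).Nonempty := ⟨x + 0, 0, P.zero_mem, rfl⟩
  rw [le_infDist hne]
  rintro _ ⟨u, hu, rfl⟩
  have hu' : P.starProjection u = u := Submodule.starProjection_eq_self_iff.2 hu
  have h1 := perp_le P (z - x - u)
  rw [map_sub, hu'] at h1
  have e1 : z - x - u - (P.starProjection (z - x) - u) = (z - x) - P.starProjection (z - x) := by
    abel
  rw [e1] at h1
  rw [dist_eq_norm]
  have e2 : z - (x + u) = z - x - u := by abel
  rw [e2]
  exact h1

lemma exists_sub {m n : ℕ} (h : m ≤ n) : ∃ P : Submodule ℝ (E n), Module.finrank ℝ P = m := by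
  have hli : LinearIndependent ℝ (fun i : Fin m =>
      (EuclideanSpace.basisFun (Fin n) ℝ).toBasis (Fin.castLE h i)) :=
    (EuclideanSpace.basisFun (Fin n) ℝ).toBasis.linearIndependent.comp _
      (Fin.castLE_injective h)
  refine ⟨Submodule.span ℝ (Set.range fun i : Fin m =>
      (EuclideanSpace.basisFun (Fin n) ℝ).toBasis (Fin.castLE h i)), ?_⟩
  rw [finrank_span_eq_card hli, Fintype.card_fin]

lemma beta_nonneg (m : ℕ) {n : ℕ} (X : Set (E n)) (x : E n) {r : ℝ} (hr : 0 < r) :
    0 ≤ beta m X x r := by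
  unfold beta
  apply mul_nonneg (by positivity)
  apply Real.iInf_nonneg
  intro P
  apply Real.iSup_nonneg
  intro z
  exact infDist_nonneg

lemma flat_of_beta {m n : ℕ} (hmn : m ≤ n) {X : Set (E n)} {x : E n} {r b : ℝ} (hr : 0 < r)
    (hb : beta m X x r < b) :
    ∃ P : Submodule ℝ (E n), Module.finrank ℝ P = m ∧ Flat X P x r (b * r) := by
  obtain ⟨P0, hP0⟩ := exists_sub hmn
  have hne : Nonempty {P : Submodule ℝ (E n) // Module.finrank ℝ P = m} := ⟨⟨P0, hP0⟩⟩
  unfold beta at hb
  have h1 : (⨅ P : {P : Submodule ℝ (E n) // Module.finrank ℝ P = m},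
      ⨆ z : ↥(closedBall x r ∩ X), infDist (z : E n) ((fun u => x + u) '' (P.1 : Set (E n))))
      < b * r := by
    rw [one_div, inv_mul_lt_iff₀ hr] at hb
    linarith
  obtain ⟨P, hP⟩ := exists_lt_of_ciInf_lt h1
  refine ⟨P.1, P.2, ?_⟩
  intro z hz hzr
  have hbdd : BddAbove (Set.range fun z : ↥(closedBall x r ∩ X) =>
      infDist (z : E n) ((fun u => x + u) '' (P.1 : Set (E n)))) := by
    refine ⟨r, ?_⟩
    rintro _ ⟨w, rfl⟩
    have hx : x ∈ (fun u => x + u) '' (P.1 : Set (E n)) := ⟨0, P.1.zero_mem, add_zero x⟩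
    exact (infDist_le_dist_of_mem hx).trans w.2.1
  have h2 := le_ciSup hbdd ⟨z, hzr, hz⟩
  simp only at h2
  exact (perp_le_infDist P.1 x z).trans (h2.trans hP.le)

lemma lap' {m n : ℕ} (hmn : m ≤ n) {M : Set (E n)} {δ R : ℝ} (h : LAP m δ R M) :
    LAP' m δ R M := by
  intro y hy t ht htR
  exact flat_of_beta hmn ht (h y hy t ht htR)

end FINAL

open FINAL

theorem t_FINAL (hB : S_BASE) (hC : S_CLIMB) (hF : S_FINE) : S_FINAL := by
  intro m n hm hmn
  have hmn' : m ≤ n := by omega
  obtain ⟨δ0, hδ0, hbase⟩ := hB m n (by omega)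
  refine ⟨min δ0 (1 / 10000000), lt_min hδ0 (by norm_num),
    lt_of_le_of_lt (min_le_right _ _) (by norm_num), fun t => min 1 (5000000 * t ^ 2), ?_, ?_, ?_⟩
  · intro t _
    refine ⟨?_, min_le_left _ _⟩
    apply le_min (by norm_num)
    positivity
  · have h1 : Tendsto (fun t : ℝ => min 1 (5000000 * t ^ 2)) (𝓝 0) (𝓝 (min 1 (5000000 * 0 ^ 2))) := by
      apply Continuous.tendsto
      fun_prop
    have e : min (1 : ℝ) (5000000 * 0 ^ 2) = 0 := by norm_num
    rw [e] at h1
    exact h1.mono_left nhdsWithin_le_nhds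
  · intro M hM δ R hδ hδm hR hlap x hx r hr hrR
    have hδ1 : δ ≤ δ0 := hδm.le.trans (min_le_left _ _)
    have hδ2 : δ ≤ 1 / 10000000 := hδm.le.trans (min_le_right _ _)
    have hlap' := lap' hmn' hlap
    obtain ⟨t0, ht0, hff0⟩ := hbase M δ R hM hδ hδ1 hR hlap'
    have hff := hC m n M δ R t0 hM.1 hδ (hδ2.trans (by norm_num)) ht0 hlap' hff0
    have hphi : min 1 (5000000 * δ ^ 2) = 5000000 * δ ^ 2 := by
      apply min_eq_right
      have : δ ^ 2 ≤ (1 / 10000000) ^ 2 := by gcongr
      norm_num at this ⊢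
      linarith
    simp only [hphi]
    have hβ0 := beta_nonneg m M x hr
    have hβδ := hlap x hx r hr hrR
    have key : ∀ b, beta m M x r < b → b < δ → theta m M x r ≤ (1 + 5000000 * δ ^ 2) * b := by
      intro b hb hbδ
      have hb0 : 0 < b := lt_of_le_of_lt hβ0 hb
      obtain ⟨P, hP, hflat⟩ := flat_of_beta hmn' hr hb
      have hfine := hF m n M δ R hM.1 hδ hδ2 hlap' hff x hx r hr hrR P hP b hb0 hbδ hflat
      have hC0 : (0 : ℝ) ≤ 5000000 * δ ^ 2 := by positivity
      have hH : hausdorffDist ((fun u => x + u) '' (P : Set (E n)) ∩ closedBall x r)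
          (M ∩ closedBall x r) ≤ (1 + 5000000 * δ ^ 2) * (b * r) := by
        apply hausdorffDist_le_of_mem_dist (by positivity)
        · rintro _ ⟨⟨p, hp, rfl⟩, hpr⟩
          have hpr' : ‖p‖ ≤ r := by
            simpa [dist_eq_norm] using hpr
          obtain ⟨z, hz, hzr, hzd⟩ := hfine p hp hpr'
          refine ⟨z, ⟨hz, hzr⟩, ?_⟩
          rw [dist_comm]
          exact hzd
        · rintro z ⟨hz, hzr⟩
          have hzr' : dist z x ≤ r := hzr
          refine ⟨x + P.starProjection (z - x), ⟨⟨_, P.starProjection_apply_mem _, rfl⟩, ?_⟩, ?_⟩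
          · rw [mem_closedBall, dist_eq_norm, add_sub_cancel_left]
            refine (P.norm_starProjection_apply_le _).trans ?_
            rw [← dist_eq_norm]
            exact hzr'
          · rw [dist_eq_norm]
            have e : z - (x + P.starProjection (z - x)) = (z - x) - P.starProjection (z - x) := by
              abel
            rw [e]
            refine (hflat z hz hzr').trans ?_
            have : 0 ≤ b * r := by positivity
            nlinarith
      unfold theta
      have h1 : (⨅ P : {P : Submodule ℝ (E n) // Module.finrank ℝ P = m},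
          hausdorffDist ((fun u => x + u) '' (P.1 : Set (E n)) ∩ closedBall x r)
            (M ∩ closedBall x r)) ≤ (1 + 5000000 * δ ^ 2) * (b * r) := by
        refine (ciInf_le ⟨0, ?_⟩ (⟨P, hP⟩ : {P : Submodule ℝ (E n) // Module.finrank ℝ P = m})).trans hH
        rintro _ ⟨Q, rfl⟩
        exact hausdorffDist_nonneg
      rw [one_div, inv_mul_le_iff₀ hr]
      refine h1.trans (le_of_eq ?_)
      ring
    by_contra hcon
    push Not at hcon
    have hK : (0 : ℝ) < 1 + 5000000 * δ ^ 2 := by positivity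
    have h1 : beta m M x r < theta m M x r / (1 + 5000000 * δ ^ 2) := by
      rw [lt_div_iff₀ hK]
      linarith
    obtain ⟨b, hb1, hb2⟩ := exists_between (lt_min h1 hβδ)
    have hb3 := lt_of_lt_of_le hb2 (min_le_left _ _)
    have hb4 := lt_of_lt_of_le hb2 (min_le_right _ _)
    have h2 := key b hb1 hb4
    rw [lt_div_iff₀ hK] at hb3
    linarith

end R859.BT
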