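import Pool.Agent.R859.BT.Stm

set_option autoImplicit false

/-!
# BT-FINE: the sharp estimate
-/

namespace R859.BT

namespace Fine

open Metric Set Filter Topology

variable {n : ℕ}

/-- the component orthogonal to `P` -/
noncomputable def prp (P : Submodule ℝ (E n)) (u : E n) : E n := u - P.starProjection u

lemma prp_add (P : Submodule ℝ (E n)) (u v : E n) : prp P (u + v) = prp P u + prp P v := by
  unfold prp; rw [map_add]; abel

lemma prp_sub (P : Submodule ℝ (E n)) (u v : E n) : prp P (u - v) = prp P u - prp P v := by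
  unfold prp; rw [map_sub]; abel

lemma prp_smul (P : Submodule ℝ (E n)) (c : ℝ) (u : E n) : prp P (c • u) = c • prp P u := by
  unfold prp; rw [map_smul, smul_sub]

lemma norm_sq (P : Submodule ℝ (E n)) (u : E n) :
    ‖u‖ ^ 2 = ‖P.starProjection u‖ ^ 2 + ‖prp P u‖ ^ 2 := by
  have := P.norm_sq_eq_add_norm_sq_starProjection u
  rwa [Submodule.starProjection_orthogonal_val] at this

lemma pr_le (P : Submodule ℝ (E n)) (u : E n) : ‖P.starProjection u‖ ≤ ‖u‖ := by
  have := norm_sq P u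
  nlinarith [norm_nonneg u, norm_nonneg (P.starProjection u), sq_nonneg ‖prp P u‖]

lemma prp_le (P : Submodule ℝ (E n)) (u : E n) : ‖prp P u‖ ≤ ‖u‖ := by
  have := norm_sq P u
  nlinarith [norm_nonneg u, norm_nonneg (prp P u), sq_nonneg ‖P.starProjection u‖]

lemma split (P : Submodule ℝ (E n)) (u : E n) : u = P.starProjection u + prp P u := by
  unfold prp; abel

lemma norm_le_add (P : Submodule ℝ (E n)) (u : E n) :
    ‖u‖ ≤ ‖P.starProjection u‖ + ‖prp P u‖ := by
  conv_lhs => rw [split P u]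
  exact norm_add_le _ _

lemma pr_mem {P : Submodule ℝ (E n)} {u : E n} (h : u ∈ P) : P.starProjection u = u :=
  Submodule.starProjection_eq_self_iff.mpr h

lemma prp_mem {P : Submodule ℝ (E n)} {u : E n} (h : u ∈ P) : prp P u = 0 := by
  unfold prp; rw [pr_mem h, sub_self]

lemma scale (P Q : Submodule ℝ (E n)) (c a : ℝ) (ha : 0 < a)
    (h : ∀ u ∈ Q, ‖u‖ = a → ‖prp P u‖ ≤ c * ‖u‖) : ∀ u ∈ Q, ‖prp P u‖ ≤ c * ‖u‖ := by
  intro u hu
  by_cases h0 : u = 0
  · subst h0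
    have : prp P (0 : E n) = 0 := prp_mem P.zero_mem
    rw [this]
    simp
  · have hn : 0 < ‖u‖ := norm_pos_iff.mpr h0
    have h1 := h ((a / ‖u‖) • u) (Q.smul_mem _ hu) (by
      rw [norm_smul, Real.norm_of_nonneg (div_nonneg ha.le hn.le), div_mul_cancel₀ _ hn.ne'])
    rw [prp_smul, norm_smul, norm_smul, Real.norm_of_nonneg (div_nonneg ha.le hn.le)] at h1
    have h2 : 0 < a / ‖u‖ := div_pos ha hn
    have h3 : a / ‖u‖ * ‖prp P u‖ ≤ a / ‖u‖ * (c * ‖u‖) := by
      calc a / ‖u‖ * ‖prp P u‖ ≤ c * (a / ‖u‖ * ‖u‖) := h1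
        _ = a / ‖u‖ * (c * ‖u‖) := by ring
    exact le_of_mul_le_mul_left h3 h2

/-- the situation -/
structure Ctx (m n : ℕ) (M : Set (E n)) (δ R : ℝ) (x : E n) (r b : ℝ)
    (P : Submodule ℝ (E n)) : Prop where
  hδ : 0 < δ
  hδ1 : δ ≤ 1 / 10000000
  lap : LAP' m δ R M
  ff : ∀ t, 0 < t → t < R → FF m δ M t
  hx : x ∈ M
  hr : 0 < r
  hrR : r < R
  hP : Module.finrank ℝ P = m
  hb : 0 < b
  hbδ : b < δ
  flat : Flat M P x r (b * r)

variable {m : ℕ} {M : Set (E n)} {δ R : ℝ} {x : E n} {r b : ℝ} {P : Submodule ℝ (E n)}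

lemma Ctx.K_pos (C : Ctx m n M δ R x r b P) : 0 < b * r := mul_pos C.hb C.hr

lemma Ctx.K_small (C : Ctx m n M δ R x r b P) : 10000000 * (b * r) ≤ r := by
  have h1 : b ≤ 1 / 10000000 := C.hbδ.le.trans C.hδ1
  have h2 := C.hr
  nlinarith

lemma Ctx.e_pos (C : Ctx m n M δ R x r b P) : 0 < 1024 * δ * (b * r) :=
  mul_pos (mul_pos (by norm_num) C.hδ) C.K_pos

lemma Ctx.e_small (C : Ctx m n M δ R x r b P) : 1000 * (1024 * δ * (b * r)) ≤ b * r := by
  have h1 := C.hδ1
  have h2 := C.K_pos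
  have h3 : 1024000 * δ ≤ 1 := by linarith
  nlinarith

lemma star (C : Ctx m n M δ R x r b P) (z0 z : E n) (hz0 : z0 ∈ M)
    (hz0x : dist z0 x ≤ r - 64 * (b * r)) (hz : z ∈ M) (hzz : dist z z0 ≤ 384 * (b * r))
    (Q : Submodule ℝ (E n)) (hQ : Module.finrank ℝ Q = m)
    (hQf : Flat M Q z (16 * (1024 * δ * (b * r))) (δ * (16 * (1024 * δ * (b * r))))) :
    ∀ u ∈ Q, ‖prp P u‖ ≤ 4 / 5 * ‖u‖ := by
  have hK := C.K_pos
  have hKs := C.K_small
  have he := C.e_pos
  have hes := C.e_small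
  have hR := C.hrR
  have hr := C.hr
  set K := b * r with hKdef
  set e := 1024 * δ * K with hedef
  obtain ⟨Q2, hQ2, hQ2f⟩ := C.lap z0 hz0 (512 * K) (by linarith) (by linarith)
  have hfull2 := C.ff (512 * K) (by linarith) (by linarith) z0 hz0 Q2 hQ2 hQ2f
  have hx0 : ‖prp P (z0 - x)‖ ≤ K := C.flat z0 hz0 (by linarith)
  have s1 : ∀ u ∈ Q2, ‖prp P u‖ ≤ 0.2225 * ‖u‖ := by
    apply scale P Q2 0.2225 (32 * K) (by linarith)
    intro u hu hun
    obtain ⟨w, hw, hwd⟩ := hfull2 u hu (by rw [hun]; linarith)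
    rw [dist_eq_norm] at hwd
    have h1 : dist w x ≤ r := by
      have e1 : w - x = (w - (z0 + u)) + u + (z0 - x) := by abel
      rw [dist_eq_norm, e1]
      rw [dist_eq_norm] at hz0x
      have := norm_add₃_le (a := w - (z0 + u)) (b := u) (c := z0 - x)
      linarith
    have h2 : ‖prp P (w - x)‖ ≤ K := C.flat w hw h1
    have e2 : u = (w - x) - (z0 - x) - (w - (z0 + u)) := by abel
    have h3 : prp P u = prp P (w - x) - prp P (z0 - x) - prp P (w - (z0 + u)) := by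
      rw [← prp_sub, ← prp_sub, ← e2]
    have h4 := prp_le P (w - (z0 + u))
    have h5 : ‖prp P u‖ ≤ ‖prp P (w - x)‖ + ‖prp P (z0 - x)‖ + ‖prp P (w - (z0 + u))‖ := by
      rw [h3]
      exact (norm_sub_le _ _).trans (add_le_add_left (norm_sub_le _ _) _)
    rw [hun]
    linarith
  have hfull := C.ff (16 * e) (by linarith) (by linarith) z hz Q hQ hQf
  have hzQ2 : ‖prp Q2 (z - z0)‖ ≤ δ * (512 * K) := hQ2f z hz (by linarith)
  have s2 : ∀ u ∈ Q, ‖prp Q2 u‖ ≤ 0.29 * ‖u‖ := by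
    apply scale Q2 Q 0.29 (4 * e) (by linarith)
    intro u hu hun
    obtain ⟨w, hw, hwd⟩ := hfull u hu (by rw [hun]; linarith)
    rw [dist_eq_norm] at hwd
    have h1 : dist w z0 ≤ 512 * K := by
      have e1 : w - z0 = (w - (z + u)) + u + (z - z0) := by abel
      rw [dist_eq_norm, e1]
      rw [dist_eq_norm] at hzz
      have := norm_add₃_le (a := w - (z + u)) (b := u) (c := z - z0)
      linarith
    have h2 : ‖prp Q2 (w - z0)‖ ≤ δ * (512 * K) := hQ2f w hw h1
    have e2 : u = (w - z0) - (z - z0) - (w - (z + u)) := by abel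
    have h3 : prp Q2 u = prp Q2 (w - z0) - prp Q2 (z - z0) - prp Q2 (w - (z + u)) := by
      rw [← prp_sub, ← prp_sub, ← e2]
    have h4 := prp_le Q2 (w - (z + u))
    have h5 : ‖prp Q2 u‖ ≤ ‖prp Q2 (w - z0)‖ + ‖prp Q2 (z - z0)‖ + ‖prp Q2 (w - (z + u))‖ := by
      rw [h3]
      exact (norm_sub_le _ _).trans (add_le_add_left (norm_sub_le _ _) _)
    have h6 : δ * (512 * K) = e / 2 := by rw [hedef]; ring
    rw [hun]
    rw [h6] at h2 hzQ2
    linarith
  intro u hu
  have h1 := s2 u hu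
  have h2 := s1 (Q2.starProjection u) (Submodule.starProjection_apply_mem Q2 u)
  have h3 : prp P u = prp P (Q2.starProjection u) + prp P (prp Q2 u) := by
    rw [← prp_add, ← split Q2 u]
  have h4 := prp_le P (prp Q2 u)
  have h5 := pr_le Q2 u
  have h6 : ‖prp P u‖ ≤ ‖prp P (Q2.starProjection u)‖ + ‖prp P (prp Q2 u)‖ := by
    rw [h3]
    exact norm_add_le _ _
  have h7 := norm_nonneg u
  linarith

/-- the property which is propagated -/
def TT (M : Set (E n)) (x : E n) (r e : ℝ) (P : Submodule ℝ (E n)) (v : E n) (τ : ℝ)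
    (z : E n) : Prop := z ∈ M ∧ dist z x ≤ r ∧ ‖P.starProjection (z - x) - τ • v‖ ≤ e

lemma step (hLIN : S_LIN) (C : Ctx m n M δ R x r b P) (v : E n) (hv : v ∈ P) (hv1 : ‖v‖ = 1)
    (τ τ' : ℝ) (z : E n) (hz : TT M x r (1024 * δ * (b * r)) P v τ z)
    (hstar : ∃ z0 ∈ M, dist z0 x ≤ r - 64 * (b * r) ∧ dist z z0 ≤ 384 * (b * r))
    (h1 : τ ≤ τ') (h2 : τ' ≤ τ + 1024 * δ * (b * r)) (h0 : 0 ≤ τ')
    (h3 : τ' ≤ (1 - 4 * b ^ 2) * r - 1024 * δ * (b * r)) :
    ∃ w, TT M x r (1024 * δ * (b * r)) P v τ' w := by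
  have hK := C.K_pos
  have hKs := C.K_small
  have he := C.e_pos
  have hes := C.e_small
  have hR := C.hrR
  have hr := C.hr
  have hb := C.hb
  obtain ⟨hzM, hzx, hzτ⟩ := hz
  obtain ⟨z0, hz0, hz0x, hzz⟩ := hstar
  obtain ⟨Q, hQ, hQf⟩ := C.lap z hzM (16 * (1024 * δ * (b * r))) (by linarith) (by linarith)
  have hst := star C z0 z hz0 hz0x hzM hzz Q hQ hQf
  have hfull := C.ff (16 * (1024 * δ * (b * r))) (by linarith) (by linarith) z hzM Q hQ hQf
  have hflatz : ‖prp P (z - x)‖ ≤ b * r := C.flat z hzM hzx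
  set e := 1024 * δ * (b * r) with hedef
  set D := τ' • v - P.starProjection (z - x) with hD
  have hDP : D ∈ P := P.sub_mem (P.smul_mem _ hv) (Submodule.starProjection_apply_mem P _)
  have hDn : ‖D‖ ≤ 2 * e := by
    have e1 : D = (τ' - τ) • v - (P.starProjection (z - x) - τ • v) := by
      rw [hD, sub_smul]; abel
    have e2 : ‖(τ' - τ) • v‖ ≤ e := by
      rw [norm_smul, hv1, mul_one, Real.norm_of_nonneg (by linarith)]
      linarith
    rw [e1]
    have := norm_sub_le ((τ' - τ) • v) (P.starProjection (z - x) - τ • v)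
    linarith
  obtain ⟨D', hD'Q, hD'P, hD'n⟩ := hLIN n P Q (by rw [C.hP, hQ]) hst D hDP
  obtain ⟨w, hw, hwd⟩ := hfull D' hD'Q (by linarith)
  rw [dist_eq_norm] at hwd
  have e1 : P.starProjection (w - x) - τ' • v = P.starProjection (w - (z + D')) := by
    have e2 : w - x = (w - (z + D')) + (z - x) + D' := by abel
    rw [e2, map_add, map_add, hD'P, hD]
    abel
  have h4 := pr_le P (w - (z + D'))
  have h5 : ‖P.starProjection (w - x) - τ' • v‖ ≤ 0.16 * e := by
    rw [e1]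
    linarith
  refine ⟨w, hw, ?_, by linarith⟩
  have h6 : ‖P.starProjection (w - x)‖ ≤ (1 - 4 * b ^ 2) * r := by
    have e3 : P.starProjection (w - x) = (P.starProjection (w - x) - τ' • v) + τ' • v := by abel
    rw [e3]
    have := norm_add_le (P.starProjection (w - x) - τ' • v) (τ' • v)
    rw [norm_smul, hv1, mul_one, Real.norm_of_nonneg h0] at this
    linarith
  have h7 : ‖prp P (w - x)‖ ≤ 2 * (b * r) := by
    have e3 : w - x = (z - x) + ((w - (z + D')) + D') := by abel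
    have e4 : prp P (w - x) = prp P (z - x) + prp P ((w - (z + D')) + D') := by
      rw [← prp_add, ← e3]
    have h8 := prp_le P ((w - (z + D')) + D')
    have h9 := norm_add_le (w - (z + D')) D'
    rw [e4]
    have := norm_add_le (prp P (z - x)) (prp P ((w - (z + D')) + D'))
    linarith
  have h8 := norm_sq P (w - x)
  rw [dist_eq_norm]
  have h9 : ‖w - x‖ ^ 2 ≤ r ^ 2 := by
    have g1 : ‖P.starProjection (w - x)‖ ^ 2 ≤ ((1 - 4 * b ^ 2) * r) ^ 2 :=
      pow_le_pow_left₀ (norm_nonneg _) h6 2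
    have g2 : ‖prp P (w - x)‖ ^ 2 ≤ (2 * (b * r)) ^ 2 := pow_le_pow_left₀ (norm_nonneg _) h7 2
    have g3 : b ≤ 1 / 10000000 := C.hbδ.le.trans C.hδ1
    have g4 : b ^ 2 ≤ 1 / 4 := by nlinarith
    have g5 : ((1 - 4 * b ^ 2) * r) ^ 2 + (2 * (b * r)) ^ 2 ≤ r ^ 2 := by
      have : r ^ 2 - (((1 - 4 * b ^ 2) * r) ^ 2 + (2 * (b * r)) ^ 2) =
          4 * b ^ 2 * r ^ 2 * (1 - 4 * b ^ 2) := by ring
      have h10 : 0 ≤ 4 * b ^ 2 * r ^ 2 * (1 - 4 * b ^ 2) :=
        mul_nonneg (by positivity) (by linarith)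
      linarith
    linarith
  exact le_of_sq_le_sq h9 hr.le

lemma stage (hLIN : S_LIN) (C : Ctx m n M δ R x r b P) (v : E n) (hv : v ∈ P) (hv1 : ‖v‖ = 1)
    (a c : ℝ) (ha : 0 ≤ a) (hac : a ≤ c) (hc : c ≤ (1 - 4 * b ^ 2) * r - 1024 * δ * (b * r))
    (h0 : ∃ z, TT M x r (1024 * δ * (b * r)) P v a z)
    (hstar : ∀ τ, a ≤ τ → τ ≤ c → ∀ z, TT M x r (1024 * δ * (b * r)) P v τ z →
      ∃ z0 ∈ M, dist z0 x ≤ r - 64 * (b * r) ∧ dist z z0 ≤ 384 * (b * r)) :
    ∃ z, TT M x r (1024 * δ * (b * r)) P v c z := by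
  have he := C.e_pos
  set e := 1024 * δ * (b * r) with hedef
  have key : ∀ N : ℕ, ∃ z, TT M x r e P v (min c (a + N * e)) z := by
    intro N
    induction N with
    | zero =>
      rw [Nat.cast_zero, zero_mul, add_zero, min_eq_right hac]
      exact h0
    | succ N ih =>
      obtain ⟨z, hz⟩ := ih
      have hN : (0 : ℝ) ≤ N * e := mul_nonneg (Nat.cast_nonneg _) he.le
      have h1 : a ≤ min c (a + N * e) := le_min hac (by linarith)
      have h2 : min c (a + N * e) ≤ c := min_le_left _ _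
      have h3 : ((N + 1 : ℕ) : ℝ) * e = N * e + e := by push_cast; ring
      refine step hLIN C v hv hv1 (min c (a + N * e)) (min c (a + (N + 1 : ℕ) * e)) z hz
        (hstar _ h1 h2 z hz) ?_ ?_ ?_ ?_
      · rw [h3]
        exact min_le_min_left _ (by linarith)
      · rw [h3, ← min_add_add_right, ← add_assoc]
        exact min_le_min_right _ (by linarith)
      · rw [h3]
        exact le_min (ha.trans hac) (by linarith)
      · exact (min_le_left _ _).trans hc
  obtain ⟨N, hN⟩ := exists_nat_ge ((c - a) / e)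
  have h1 : c ≤ a + N * e := by
    rw [div_le_iff₀ he] at hN
    linarith
  have := key N
  rwa [min_eq_left h1] at this

lemma TT.norm_le (C : Ctx m n M δ R x r b P) {v : E n} (hv1 : ‖v‖ = 1) {τ : ℝ} (hτ : 0 ≤ τ)
    {z : E n} (hz : TT M x r (1024 * δ * (b * r)) P v τ z) :
    dist z x ≤ τ + 1024 * δ * (b * r) + b * r := by
  obtain ⟨hzM, hzx, hzτ⟩ := hz
  have h1 : ‖prp P (z - x)‖ ≤ b * r := C.flat z hzM hzx
  have h2 := norm_le_add P (z - x)
  have h3 : P.starProjection (z - x) = (P.starProjection (z - x) - τ • v) + τ • v := by abel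
  have h4 := norm_add_le (P.starProjection (z - x) - τ • v) (τ • v)
  rw [← h3, norm_smul, hv1, mul_one, Real.norm_of_nonneg hτ] at h4
  rw [dist_eq_norm]
  linarith

lemma reach (hLIN : S_LIN) (C : Ctx m n M δ R x r b P) (v : E n) (hv : v ∈ P) (hv1 : ‖v‖ = 1)
    (τ : ℝ) (h0 : 0 ≤ τ) (h1 : τ ≤ (1 - 4 * b ^ 2) * r - 1024 * δ * (b * r)) :
    ∃ z, TT M x r (1024 * δ * (b * r)) P v τ z := by
  have hK := C.K_pos
  have hKs := C.K_small
  have he := C.e_pos
  have hes := C.e_small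
  have hr := C.hr
  have hb := C.hb
  have hb1 : b ≤ 1 / 10000000 := C.hbδ.le.trans C.hδ1
  have hρ : (1 - 4 * b ^ 2) * r ≤ r := by nlinarith [sq_nonneg b]
  have hρ2 : r / 2 ≤ (1 - 4 * b ^ 2) * r := by nlinarith
  have hzero : ∃ z, TT M x r (1024 * δ * (b * r)) P v 0 z := by
    refine ⟨x, C.hx, by rw [dist_self]; exact hr.le, ?_⟩
    rw [sub_self, map_zero, zero_smul, sub_zero, norm_zero]
    exact he.le
  have st1 : ∀ c, 0 ≤ c → c ≤ (1 - 4 * b ^ 2) * r - 256 * (b * r) →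
      ∃ z, TT M x r (1024 * δ * (b * r)) P v c z := by
    intro c hc0 hc1
    refine stage hLIN C v hv hv1 0 c le_rfl hc0 (by linarith) hzero ?_
    intro τ hτ0 hτc z hz
    have := TT.norm_le C hv1 hτ0 hz
    exact ⟨z, hz.1, by linarith, by rw [dist_self]; linarith⟩
  by_cases hτ : τ ≤ (1 - 4 * b ^ 2) * r - 256 * (b * r)
  · exact st1 τ h0 hτ
  · push Not at hτ
    set a := (1 - 4 * b ^ 2) * r - 256 * (b * r) with hadef
    have ha0 : 0 ≤ a := by rw [hadef]; linarith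
    obtain ⟨z0, hz0⟩ := st1 a ha0 le_rfl
    refine stage hLIN C v hv hv1 a τ ha0 hτ.le h1 ⟨z0, hz0⟩ ?_
    intro σ hσ0 hσc z hz
    have h2 := TT.norm_le C hv1 ha0 hz0
    refine ⟨z0, hz0.1, by linarith, ?_⟩
    have h3 : ‖prp P (z - x)‖ ≤ b * r := C.flat z hz.1 hz.2.1
    have h4 : ‖prp P (z0 - x)‖ ≤ b * r := C.flat z0 hz0.1 hz0.2.1
    have e1 : z - z0 = (z - x) - (z0 - x) := by abel
    have h5 : ‖prp P (z - z0)‖ ≤ 2 * (b * r) := by
      rw [e1, prp_sub]
      have := norm_sub_le (prp P (z - x)) (prp P (z0 - x))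
      linarith
    have h6 : ‖P.starProjection (z - z0)‖ ≤ 2 * (1024 * δ * (b * r)) + (σ - a) := by
      have e2 : P.starProjection (z - z0) = (P.starProjection (z - x) - σ • v) +
          (σ - a) • v - (P.starProjection (z0 - x) - a • v) := by
        rw [e1, map_sub, sub_smul]; abel
      have h7 : ‖(σ - a) • v‖ = σ - a := by
        rw [norm_smul, hv1, mul_one, Real.norm_of_nonneg (by linarith)]
      rw [e2]
      have h8 := norm_sub_le ((P.starProjection (z - x) - σ • v) + (σ - a) • v)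
        (P.starProjection (z0 - x) - a • v)
      have h9 := norm_add_le (P.starProjection (z - x) - σ • v) ((σ - a) • v)
      have h10 := hz.2.2
      have h11 := hz0.2.2
      linarith
    have h7 := norm_le_add P (z - z0)
    rw [dist_eq_norm]
    linarith

end Fine

open Fine Metric in
theorem t_FINE (hLIN : S_LIN) : S_FINE := by
  intro m n M δ R _ hδ hδ1 hLAP hFF x hx r hr hrR P hP b hb hbδ hflat p hp hpr
  have C : Ctx m n M δ R x r b P := ⟨hδ, hδ1, hLAP, hFF, hx, hr, hrR, hP, hb, hbδ, hflat⟩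
  have hK := C.K_pos
  have hKs := C.K_small
  have he := C.e_pos
  have hes := C.e_small
  by_cases hp0 : p = 0
  · subst hp0
    refine ⟨x, hx, by rw [dist_self]; exact hr.le, ?_⟩
    rw [add_zero, dist_self]
    positivity
  · have hn : 0 < ‖p‖ := norm_pos_iff.mpr hp0
    set v := (1 / ‖p‖) • p with hvdef
    have hvP : v ∈ P := P.smul_mem _ hp
    have hv1 : ‖v‖ = 1 := by
      rw [hvdef, norm_smul, Real.norm_of_nonneg (by positivity), one_div, inv_mul_cancel₀ hn.ne']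
    have hpv : p = ‖p‖ • v := by
      rw [hvdef, smul_smul, mul_one_div, div_self hn.ne', one_smul]
    have hb1 : b ≤ 1 / 10000000 := hbδ.le.trans hδ1
    have hρ2 : r / 2 ≤ (1 - 4 * b ^ 2) * r := by nlinarith
    set ρe := (1 - 4 * b ^ 2) * r - 1024 * δ * (b * r) with hρe
    obtain ⟨z, hzM, hzx, hzτ⟩ := reach hLIN C v hvP hv1 (min ‖p‖ ρe)
      (le_min hn.le (by rw [hρe]; linarith)) (min_le_right _ _)
    refine ⟨z, hzM, hzx, ?_⟩
    have hfz : ‖prp P (z - x)‖ ≤ b * r := C.flat z hzM hzx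
    have h1 : z - (x + p) = (z - x) - p := by abel
    have h2 : ‖prp P (z - (x + p))‖ ≤ b * r := by
      rw [h1, prp_sub, prp_mem hp, sub_zero]
      exact hfz
    have h3 : ‖P.starProjection (z - (x + p))‖ ≤ 2052 * δ * (b * r) := by
      have e1 : P.starProjection (z - (x + p)) = (P.starProjection (z - x) - (min ‖p‖ ρe) • v) -
          (‖p‖ - min ‖p‖ ρe) • v := by
        rw [h1, map_sub, pr_mem hp, sub_smul, ← hpv]
        abel
      have e2 : 0 ≤ ‖p‖ - min ‖p‖ ρe := sub_nonneg.mpr (min_le_left _ _)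
      have e3 : ‖(‖p‖ - min ‖p‖ ρe) • v‖ ≤ 4 * b * (b * r) + 1024 * δ * (b * r) := by
        rw [norm_smul, hv1, mul_one, Real.norm_of_nonneg e2]
        rcases min_cases ‖p‖ ρe with ⟨h, _⟩ | ⟨h, _⟩
        · rw [h, sub_self]
          positivity
        · rw [h, hρe]
          nlinarith
      have e4 := norm_sub_le (P.starProjection (z - x) - (min ‖p‖ ρe) • v)
        ((‖p‖ - min ‖p‖ ρe) • v)
      rw [← e1] at e4
      have e5 : 4 * b * (b * r) ≤ 4 * δ * (b * r) :=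
        mul_le_mul_of_nonneg_right (by linarith) hK.le
      linarith
    have h4 := norm_sq P (z - (x + p))
    rw [dist_eq_norm]
    have h5 : ‖z - (x + p)‖ ^ 2 ≤ ((1 + 5000000 * δ ^ 2) * (b * r)) ^ 2 := by
      have g1 : ‖P.starProjection (z - (x + p))‖ ^ 2 ≤ (2052 * δ * (b * r)) ^ 2 :=
        pow_le_pow_left₀ (norm_nonneg _) h3 2
      have g2 : ‖prp P (z - (x + p))‖ ^ 2 ≤ (b * r) ^ 2 := pow_le_pow_left₀ (norm_nonneg _) h2 2
      have g3 : (2052 * δ * (b * r)) ^ 2 + (b * r) ^ 2 ≤ ((1 + 5000000 * δ ^ 2) * (b * r)) ^ 2 := by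
        have : ((1 + 5000000 * δ ^ 2) * (b * r)) ^ 2 - ((2052 * δ * (b * r)) ^ 2 + (b * r) ^ 2) =
            (b * r) ^ 2 * ((10000000 - 4210704) * δ ^ 2 + (5000000 * δ ^ 2) ^ 2) := by ring
        have h10 : 0 ≤ (b * r) ^ 2 * ((10000000 - 4210704) * δ ^ 2 + (5000000 * δ ^ 2) ^ 2) := by
          positivity
        linarith
      linarith
    exact le_of_sq_le_sq h5 (by positivity)

end R859.BT
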