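import Pool.Agent.R859.BT.FINAL

set_option autoImplicit false

/-!
Project BT (MP_e0d06b_an): the final theorem with the quadratic bound (same proof as `t_FINAL`).
-/

namespace R859.BT

open Metric Set Filter Topology

/-- The final theorem with the quadratic bound. -/
def S_FINAL2 : Prop := ∀ m n : ℕ, 2 ≤ m → m + 1 ≤ n →
  ∃ δm : ℝ, 0 < δm ∧ δm < 1 ∧ ∃ φ : ℝ → ℝ, (∀ t ∈ Icc (0 : ℝ) 1, φ t ∈ Icc (0 : ℝ) 1) ∧
    Tendsto φ (𝓝[>] 0) (𝓝 0) ∧ (∀ t : ℝ, φ t ≤ 5000000 * t ^ 2) ∧
    ∀ M : Set (E n), ClosedManifold m M → ∀ δ R : ℝ, 0 < δ → δ < δm → 0 < R → LAP m δ R M →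
      ∀ x ∈ M, ∀ r, 0 < r → r < R → theta m M x r ≤ (1 + φ δ) * beta m M x r

open FINAL

theorem final2 (hB : S_BASE) (hC : S_CLIMB) (hF : S_FINE) : S_FINAL2 := by
  intro m n hm hmn
  have hmn' : m ≤ n := by omega
  obtain ⟨δ0, hδ0, hbase⟩ := hB m n (by omega)
  refine ⟨min δ0 (1 / 10000000), lt_min hδ0 (by norm_num),
    lt_of_le_of_lt (min_le_right _ _) (by norm_num), fun t => min 1 (5000000 * t ^ 2), ?_, ?_,
    fun t => min_le_right _ _, ?_⟩
  · intro t _
    refine ⟨?_, min_le_left _ _⟩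
    apply le_min (by norm_num)
    positivity
  · have h1 : Tendsto (fun t : ℝ => min 1 (5000000 * t ^ 2)) (𝓝 0) (𝓝 (min 1 (5000000 * 0 ^ 2))) := by
      apply Continuous.tendsto
      fun_prop
    have e : min (1 : ℝ) (5000000 * 0 ^ 2) = 0 := by norm_num
    rw [e] at h1
    exact h1.mono_left nhdsWithin_le_nhds
  · intro M hM δ R hδ hδm hR hlap x hx r hr hrR
    have hδ1 : δ ≤ δ0 := hδm.le.trans (min_le_left _ _)
    have hδ2 : δ ≤ 1 / 10000000 := hδm.le.trans (min_le_right _ _)
    have hlap' := lap' hmn' hlap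
    obtain ⟨t0, ht0, hff0⟩ := hbase M δ R hM hδ hδ1 hR hlap'
    have hff := hC m n M δ R t0 hM.1 hδ (hδ2.trans (by norm_num)) ht0 hlap' hff0
    have hphi : min 1 (5000000 * δ ^ 2) = 5000000 * δ ^ 2 := by
      apply min_eq_right
      have : δ ^ 2 ≤ (1 / 10000000) ^ 2 := by gcongr
      norm_num at this ⊢
      linarith
    simp only [hphi]
    have hβ0 := beta_nonneg m M x hr
    have hβδ := hlap x hx r hr hrR
    have key : ∀ b, beta m M x r < b → b < δ → theta m M x r ≤ (1 + 5000000 * δ ^ 2) * b := by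
      intro b hb hbδ
      have hb0 : 0 < b := lt_of_le_of_lt hβ0 hb
      obtain ⟨P, hP, hflat⟩ := flat_of_beta hmn' hr hb
      have hfine := hF m n M δ R hM.1 hδ hδ2 hlap' hff x hx r hr hrR P hP b hb0 hbδ hflat
      have hC0 : (0 : ℝ) ≤ 5000000 * δ ^ 2 := by positivity
      have hH : hausdorffDist ((fun u => x + u) '' (P : Set (E n)) ∩ closedBall x r)
          (M ∩ closedBall x r) ≤ (1 + 5000000 * δ ^ 2) * (b * r) := by
        apply hausdorffDist_le_of_mem_dist (by positivity)
        · rintro _ ⟨⟨p, hp, rfl⟩, hpr⟩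
          have hpr' : ‖p‖ ≤ r := by
            simpa [dist_eq_norm] using hpr
          obtain ⟨z, hz, hzr, hzd⟩ := hfine p hp hpr'
          refine ⟨z, ⟨hz, hzr⟩, ?_⟩
          rw [dist_comm]
          exact hzd
        · rintro z ⟨hz, hzr⟩
          have hzr' : dist z x ≤ r := hzr
          refine ⟨x + P.starProjection (z - x), ⟨⟨_, P.starProjection_apply_mem _, rfl⟩, ?_⟩, ?_⟩
          · rw [mem_closedBall, dist_eq_norm, add_sub_cancel_left]
            refine (P.norm_starProjection_apply_le _).trans ?_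
            rw [← dist_eq_norm]
            exact hzr'
          · rw [dist_eq_norm]
            have e : z - (x + P.starProjection (z - x)) = (z - x) - P.starProjection (z - x) := by
              abel
            rw [e]
            refine (hflat z hz hzr').trans ?_
            have : 0 ≤ b * r := by positivity
            nlinarith
      unfold theta
      have h1 : (⨅ P : {P : Submodule ℝ (E n) // Module.finrank ℝ P = m},
          hausdorffDist ((fun u => x + u) '' (P.1 : Set (E n)) ∩ closedBall x r)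
            (M ∩ closedBall x r)) ≤ (1 + 5000000 * δ ^ 2) * (b * r) := by
        refine (ciInf_le ⟨0, ?_⟩ (⟨P, hP⟩ : {P : Submodule ℝ (E n) // Module.finrank ℝ P = m})).trans hH
        rintro _ ⟨Q, rfl⟩
        exact hausdorffDist_nonneg
      rw [one_div, inv_mul_le_iff₀ hr]
      refine h1.trans (le_of_eq ?_)
      ring
    by_contra hcon
    push Not at hcon
    have hK : (0 : ℝ) < 1 + 5000000 * δ ^ 2 := by positivity
    have h1 : beta m M x r < theta m M x r / (1 + 5000000 * δ ^ 2) := by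
      rw [lt_div_iff₀ hK]
      linarith
    obtain ⟨b, hb1, hb2⟩ := exists_between (lt_min h1 hβδ)
    have hb3 := lt_of_lt_of_le hb2 (min_le_left _ _)
    have hb4 := lt_of_lt_of_le hb2 (min_le_right _ _)
    have h2 := key b hb1 hb4
    rw [lt_div_iff₀ hK] at hb3
    linarith

end R859.BT
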