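import Pool.Agent.R859.BT.Stm

set_option autoImplicit false

/-!
# BT-GEO: flatness gives coordinates
-/

namespace R859.BT

theorem t_GEO : S_GEO := by
  intro m n M y t ε P ht hε hm hF
  subst hm
  let φ := (stdOrthonormalBasis ℝ P).repr
  let X : ↥M → E (Module.finrank ℝ P) := fun w => φ (P.orthogonalProjection ((w : E n) - (y : E n)))
  have hsub : ∀ z z' : ↥M, X z - X z' = φ (P.orthogonalProjection ((z : E n) - (z' : E n))) := by
    intro z z'
    show φ _ - φ _ = _
    rw [← map_sub, ← map_sub]
    congr 2
    abel
  have hnorm : ∀ z z' : ↥M, ‖X z - X z'‖ = ‖P.starProjection ((z : E n) - (z' : E n))‖ := by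
    intro z z'
    rw [hsub, LinearIsometryEquiv.norm_map]
    rfl
  refine ⟨X, ⟨?_, ?_, ?_⟩, ?_⟩
  · show φ (P.orthogonalProjection ((y : E n) - (y : E n))) = 0
    rw [sub_self, map_zero, map_zero]
  · intro z z'
    rw [dist_eq_norm, hnorm, Subtype.dist_eq, dist_eq_norm]
    exact P.norm_starProjection_apply_le _
  · intro z z' hz hz'
    rw [dist_eq_norm, hnorm, Subtype.dist_eq, dist_eq_norm]
    have h1 := hF z z.2 hz
    have h2 := hF z' z'.2 hz'
    have e : (z : E n) - (z' : E n) = P.starProjection ((z : E n) - (z' : E n)) +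
        ((((z : E n) - (y : E n)) - P.starProjection ((z : E n) - (y : E n))) -
          (((z' : E n) - (y : E n)) - P.starProjection ((z' : E n) - (y : E n)))) := by
      have h3 : P.starProjection ((z : E n) - (z' : E n)) =
          P.starProjection ((z : E n) - (y : E n)) - P.starProjection ((z' : E n) - (y : E n)) := by
        rw [← map_sub]
        congr 1
        abel
      rw [h3]
      abel
    calc ‖(z : E n) - (z' : E n)‖ = ‖P.starProjection ((z : E n) - (z' : E n)) +
        ((((z : E n) - (y : E n)) - P.starProjection ((z : E n) - (y : E n))) -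
          (((z' : E n) - (y : E n)) - P.starProjection ((z' : E n) - (y : E n))))‖ := by rw [← e]
      _ ≤ ‖P.starProjection ((z : E n) - (z' : E n))‖ +
        ‖(((z : E n) - (y : E n)) - P.starProjection ((z : E n) - (y : E n))) -
          (((z' : E n) - (y : E n)) - P.starProjection ((z' : E n) - (y : E n)))‖ :=
          norm_add_le _ _
      _ ≤ ‖P.starProjection ((z : E n) - (z' : E n))‖ + (ε + ε) := by
          have := norm_sub_le (((z : E n) - (y : E n)) - P.starProjection ((z : E n) - (y : E n)))
            (((z' : E n) - (y : E n)) - P.starProjection ((z' : E n) - (y : E n)))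
          linarith
      _ = _ := by ring
  · intro u hu
    refine ⟨φ ⟨u, hu⟩, ?_, ?_⟩
    · rw [LinearIsometryEquiv.norm_map]
      rfl
    · intro w
      show ‖φ (P.orthogonalProjection ((w : E n) - (y : E n))) - φ ⟨u, hu⟩‖ = _
      rw [← map_sub, LinearIsometryEquiv.norm_map]
      rfl

end R859.BT
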