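import Pool.Agent.R859.BT.Stm

set_option autoImplicit false

/-!
Project BT, piece GRP: grouping the simplices according to their image.
-/

namespace R859.BT

open scoped Classical

theorem t_GRP (hrep : S_REP) : S_GRP := by
  intro m N M f Ex φ hperm hnodup hex hpar
  obtain ⟨S, hS, hS2⟩ := hrep m N
  rw [hS]
  set im : List V → Multiset M := fun l => ((l.map f : List M) : Multiset M) with him
  set imgs : Finset (Multiset M) := (S.map im).toFinset with himgs
  -- one image
  have key : ∀ A ∈ imgs, (S.map (fun l => if im l = A then φ (l.map f) else 0)).sum = 0 := by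
    intro A hA
    rw [himgs, Multiset.mem_toFinset, Multiset.mem_map] at hA
    obtain ⟨l0, hl0, rfl⟩ := hA
    obtain ⟨hlen, x, hx⟩ := hS2 l0 hl0
    have h1 : ∀ l, (if im l = im l0 then φ (l.map f) else 0)
        = φ (l0.map f) * (if im l = im l0 then 1 else 0) := by
      intro l
      split_ifs with h
      · rw [mul_one]
        exact hperm _ _ (Multiset.coe_eq_coe.1 h)
      · rw [mul_zero]
    simp only [h1]
    rw [Multiset.sum_map_mul_left]
    by_cases h0 : φ (l0.map f) = 0
    · rw [h0, zero_mul]
    · have hnd : (l0.map f).Nodup := by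
        by_contra hcon
        exact h0 (hnodup _ hcon)
      obtain ⟨v, hv, hvE⟩ := hex x l0 hx h0
      have h2 := hpar (im l0) (Multiset.coe_nodup.2 hnd)
        (by rw [him]; simp [hlen]) ⟨f v, by rw [him]; simp only [Multiset.mem_coe]; exact List.mem_map_of_mem hv, hvE⟩
      unfold par at h2
      rw [hS] at h2
      rw [h2, mul_zero]
  have h3 : (S.map (fun l => φ (l.map f))).sum
      = (S.map (fun l => (imgs.val.map (fun A => if im l = A then φ (l.map f) else 0)).sum)).sum := by
    congr 1
    refine Multiset.map_congr rfl fun l hl => ?_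
    have hmem : im l ∈ imgs := by
      rw [himgs, Multiset.mem_toFinset]
      exact Multiset.mem_map_of_mem im hl
    have h4 : ∑ A ∈ imgs, (if im l = A then φ (l.map f) else 0) = φ (l.map f) := by
      rw [Finset.sum_ite_eq, if_pos hmem]
    exact h4.symm
  rw [h3, Multiset.sum_map_sum_map]
  have h5 : ∑ A ∈ imgs, (S.map (fun l => if im l = A then φ (l.map f) else 0)).sum = 0 :=
    Finset.sum_eq_zero key
  exact h5

end R859.BT
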