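import Pool.Agent.R859.BT.Stm

set_option autoImplicit false

/-!
Piece BT-HOLE: a hole gives degree zero.
-/

namespace R859.BT

open Metric Set Filter Topology

namespace HOLEaux

theorem norm_le_mul {n : ℕ} (hn : 1 ≤ n) (x : E n) {a : ℝ} (ha : 0 ≤ a) (h : ∀ i, |x i| ≤ a) :
    ‖x‖ ≤ n * a := by
  rw [EuclideanSpace.norm_eq]
  have h1 : ∑ i, ‖x i‖ ^ 2 ≤ n * a ^ 2 := by
    calc ∑ i, ‖x i‖ ^ 2 ≤ ∑ _i : Fin n, a ^ 2 := by
          refine Finset.sum_le_sum fun i _ => ?_
          rw [Real.norm_eq_abs]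
          exact pow_le_pow_left₀ (abs_nonneg _) (h i) 2
      _ = n * a ^ 2 := by simp
  have hn1 : (1 : ℝ) ≤ n := by exact_mod_cast hn
  have h2 : ∑ i, ‖x i‖ ^ 2 ≤ (n * a) ^ 2 := by
    refine h1.trans ?_
    have : 0 ≤ a ^ 2 := sq_nonneg a
    nlinarith
  calc Real.sqrt (∑ i, ‖x i‖ ^ 2) ≤ Real.sqrt ((n * a) ^ 2) := Real.sqrt_le_sqrt h2
    _ = n * a := Real.sqrt_sq (by positivity)

theorem abs_coord_le {n : ℕ} (x y : E n) (i : Fin n) : |x i - y i| ≤ dist x y := by
  rw [EuclideanSpace.dist_eq]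
  have h1 : |x i - y i| = Real.sqrt ((dist (x i) (y i)) ^ 2) := by
    rw [Real.sqrt_sq dist_nonneg, Real.dist_eq]
  rw [h1]
  apply Real.sqrt_le_sqrt
  exact Finset.single_le_sum (f := fun i => dist (x i) (y i) ^ 2) (fun _ _ => sq_nonneg _)
    (Finset.mem_univ i)

/-- a direct labelling -/
noncomputable def lab {m : ℕ} (p z : E m) : ℕ := by
  classical
  exact if h : ∃ i : Fin m, z i ≤ p i then ((Classical.choose h : Fin m) : ℕ) + 1 else 0

theorem lab_le {m : ℕ} (p z : E m) : lab p z ≤ m := by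
  unfold lab
  split_ifs with h
  · exact (Classical.choose h).2
  · exact Nat.zero_le _

theorem lab_zero {m : ℕ} {p z : E m} (h : lab p z = 0) (i : Fin m) : p i < z i := by
  unfold lab at h
  split_ifs at h with h1
  push Not at h1
  exact h1 i

theorem lab_succ {m : ℕ} {p z : E m} {i : Fin m} (h : lab p z = (i : ℕ) + 1) : z i ≤ p i := by
  unfold lab at h
  split_ifs at h with h1
  · have h2 : Classical.choose h1 = i := Fin.ext (by omega)
    rw [← h2]
    exact Classical.choose_spec h1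

end HOLEaux

open HOLEaux in
theorem t_HOLE (hR : S_REP) (hD : S_DZH) : S_HOLE := by
  classical
  intro m N hm M _ g y t ε μ ρ X ht hε hμ0 hμ hC hM hI p0 hp0 hρ hhole
  have hm0 : (0 : ℝ) < m := by exact_mod_cast hm
  refine hD m N hm M g y t ε μ X ht hε hμ0 hμ hC hM hI (fun v => lab p0 (X (g v))) p0 0 hp0
    le_rfl (by positivity) ⟨fun v => lab_le _ _, fun v _ => ⟨fun h i => ?_, fun i h => ?_⟩⟩ ?_
  · rw [sub_zero]
    exact (lab_zero h i).le
  · rw [add_zero]
    exact lab_succ h
  · unfold cutB cut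
    obtain ⟨S, hS, hcell⟩ := hR m N
    rw [hS]
    apply Multiset.sum_eq_zero
    intro a ha
    obtain ⟨l, hl, rfl⟩ := Multiset.mem_map.1 ha
    split_ifs with hW
    · unfold rain H63Fed.Kuhn.ind
      split_ifs with hrain
      · exfalso
        obtain ⟨hlen, x, hx⟩ := hcell l hl
        have hmem : ∀ j, j ≤ m → ∃ v ∈ l, lab p0 (X (g v)) = j := by
          intro j hj
          have h1 : j ∈ ((l.map fun v => lab p0 (X (g v)) : List ℕ) : Multiset ℕ) := by
            rw [hrain, Multiset.mem_range]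
            omega
          rw [Multiset.mem_coe, List.mem_map] at h1
          exact h1
        obtain ⟨v0, hv0, hl0⟩ := hmem 0 (Nat.zero_le _)
        have h1 : ‖X (g v0) - p0‖ ≤ m * μ := by
          refine norm_le_mul hm _ hμ0 fun i => ?_
          obtain ⟨vi, hvi, hli⟩ := hmem ((i : ℕ) + 1) i.2
          have h2 := lab_zero hl0 i
          have h3 := lab_succ hli
          have h4 := abs_coord_le (X (g v0)) (X (g vi)) i
          have h5 := hC.2.1 (g v0) (g vi)
          have h6 := hM x v0 vi (hx v0 hv0) (hx vi hvi)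
          have h7 := (abs_le.1 (h4.trans (h5.trans h6))).2
          have e : (X (g v0) - p0) i = X (g v0) i - p0 i := rfl
          rw [e, abs_le]
          constructor <;> linarith
        exact absurd (hhole v0 (hW v0 hv0)) (not_lt.2 (h1.trans hρ))
      · rfl
    · rfl

end R859.BT
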