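import Pool.Agent.R859.BT.Stm

set_option autoImplicit false

/-!
Project BT (MP_e0d06b_an), piece REP: the grid sum is a sum over a finite multiset of simplices.
-/

namespace R859.BT

namespace REP

/-- the lists of the prism operator -/
def prismL {V' W : Type} (b t : V' → W) : List V' → Multiset (List W)
  | [] => 0
  | v :: l => (b v :: t v :: l.map t) ::ₘ (prismL b t l).map (fun l' => b v :: l')

theorem prism_eq {V' W : Type} (b t : V' → W) (l : List V') (φ : List W → ZMod 2) :
    H63Fed.Kuhn.prism b t l φ = ((prismL b t l).map φ).sum := by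
  induction l generalizing φ with
  | nil => simp [H63Fed.Kuhn.prism, prismL]
  | cons v l ih =>
    simp only [H63Fed.Kuhn.prism, prismL, Multiset.map_cons, Multiset.sum_cons, Multiset.map_map]
    rw [ih]
    rfl

theorem prismL_length {V' W : Type} (b t : V' → W) (l : List V') :
    ∀ l' ∈ prismL b t l, l'.length = l.length + 1 := by
  induction l with
  | nil => simp [prismL]
  | cons v l ih =>
    intro l' hl'
    simp only [prismL, Multiset.mem_cons, Multiset.mem_map] at hl'
    rcases hl' with rfl | ⟨l'', h, rfl⟩
    · simp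
    · simp [ih l'' h]

theorem prismL_mem {V' W : Type} (b t : V' → W) (l : List V') :
    ∀ l' ∈ prismL b t l, ∀ w ∈ l', ∃ v ∈ l, w = b v ∨ w = t v := by
  induction l with
  | nil => simp [prismL]
  | cons v l ih =>
    intro l' hl' w hw
    simp only [prismL, Multiset.mem_cons, Multiset.mem_map] at hl'
    rcases hl' with rfl | ⟨l'', h, rfl⟩
    · rcases List.mem_cons.1 hw with rfl | hw
      · exact ⟨v, List.mem_cons_self, Or.inl rfl⟩
      rcases List.mem_cons.1 hw with rfl | hw
      · exact ⟨v, List.mem_cons_self, Or.inr rfl⟩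
      · obtain ⟨v', hv', e⟩ := List.mem_map.1 hw
        exact ⟨v', List.mem_cons_of_mem _ hv', Or.inr e.symm⟩
    · rcases List.mem_cons.1 hw with rfl | hw
      · exact ⟨v, List.mem_cons_self, Or.inl rfl⟩
      · obtain ⟨v', hv', e⟩ := ih l'' h w hw
        exact ⟨v', List.mem_cons_of_mem _ hv', e⟩

/-- the lists of the grid sum -/
def gridL (N : ℕ) : ℕ → Multiset (List V)
  | 0 => {[fun _ => 0]}
  | k + 1 => (Multiset.range N).bind fun t => (gridL N k).bind fun l =>
      prismL (fun v => Function.update v k t) (fun v => Function.update v k (t + 1)) l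

theorem grid_eq (N k : ℕ) (φ : List V → ZMod 2) :
    H63Fed.Kuhn.grid N (fun _ => 0) k φ = ((gridL N k).map φ).sum := by
  induction k generalizing φ with
  | zero => simp [H63Fed.Kuhn.grid, gridL]
  | succ k ih =>
    simp only [H63Fed.Kuhn.grid, gridL, Multiset.map_bind, Multiset.sum_bind]
    show ((Multiset.range N).map _).sum = _
    congr 1
    refine Multiset.map_congr rfl fun t _ => ?_
    rw [ih]
    congr 1
    refine Multiset.map_congr rfl fun l _ => ?_
    exact prism_eq _ _ l φ

theorem gridL_cell (N k : ℕ) : ∀ l ∈ gridL N k,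
    l.length = k + 1 ∧ ∃ x, ∀ v ∈ l, Cell k N x v := by
  induction k with
  | zero =>
    intro l hl
    simp only [gridL, Multiset.mem_singleton] at hl
    subst hl
    refine ⟨rfl, fun _ => 0, fun v hv => ?_⟩
    rw [List.mem_singleton] at hv
    subst hv
    exact ⟨fun i hi => absurd hi (by omega), fun i hi => absurd hi (by omega), fun i _ => rfl⟩
  | succ k ih =>
    intro l' hl'
    simp only [gridL, Multiset.mem_bind, Multiset.mem_range] at hl'
    obtain ⟨t, ht, l, hl, h⟩ := hl'
    obtain ⟨h1, x, h2⟩ := ih l hl
    refine ⟨by rw [prismL_length _ _ _ _ h, h1], Function.update x k t, fun w hw => ?_⟩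
    obtain ⟨v, hv, e⟩ := prismL_mem _ _ _ _ h w hw
    obtain ⟨h3, h4, h5⟩ := h2 v hv
    refine ⟨fun i hi => ?_, fun i hi => ?_, fun i hi => ?_⟩
    · by_cases hik : i = k
      · subst hik
        simpa using ht
      · rw [Function.update_of_ne hik]
        exact h3 i (by omega)
    · by_cases hik : i = k
      · subst hik
        rcases e with rfl | rfl <;> simp
      · rcases e with rfl | rfl <;> simp only [Function.update_of_ne hik] <;>
          exact h4 i (by omega)
    · have hik : i ≠ k := by omega
      rcases e with rfl | rfl <;> simp only [Function.update_of_ne hik] <;>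
        exact h5 i (by omega)

end REP

/-- REP -/
theorem t_REP : S_REP := fun m N => ⟨REP.gridL N m, REP.grid_eq N m, REP.gridL_cell N m⟩

end R859.BT
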