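import Pool.Agent.R859.BT.Stm
import Pool.Agent.R859.BT.REP

set_option autoImplicit false

/-!
Project BT (MP_e0d06b_an), piece HOM: invariance of the number of completely labelled simplices
inside a set `W` of interior grid points under a change of the labelling.
-/

namespace R859.BT

open scoped Classical
open H63Fed.Kuhn

namespace HOM

theorem sumG_congr {m N : ℕ} {φ ψ : List V → ZMod 2}
    (h : ∀ l, (∃ x, ∀ v ∈ l, Cell m N x v) → φ l = ψ l) : sumG m N φ = sumG m N ψ := by
  obtain ⟨S, h1, h2⟩ := t_REP m N
  rw [h1, h1]
  congr 1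
  exact Multiset.map_congr rfl fun l hl => h l (h2 l hl).2

theorem del_congr {V' : Type} (l : List V') (ψ ψ' : List V' → ZMod 2)
    (h : ∀ l', (∀ v ∈ l', v ∈ l) → ψ l' = ψ' l') : del l ψ = del l ψ' := by
  induction l generalizing ψ ψ' with
  | nil => rfl
  | cons v l ih =>
    simp only [del]
    rw [h l (fun w hw => List.mem_cons_of_mem _ hw)]
    rw [ih (fun l' => ψ (v :: l')) (fun l' => ψ' (v :: l')) ?_]
    intro l' hl'
    apply h
    intro w hw
    rcases List.mem_cons.1 hw with rfl | hw
    · exact List.mem_cons_self
    · exact List.mem_cons_of_mem _ (hl' w hw)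

theorem del_zero' {V' : Type} (l : List V') (ψ : List V' → ZMod 2)
    (h : ∀ l', (∀ v ∈ l', v ∈ l) → ψ l' = 0) : del l ψ = 0 := by
  rw [del_congr l ψ (fun _ => 0) h]
  clear h
  induction l with
  | nil => rfl
  | cons v l ih =>
    simp only [del]
    rw [ih, add_zero]

/-- the mixed prism function -/
noncomputable def chi (m : ℕ) (lam lam' : V → ℕ) (l : List V) : ZMod 2 :=
  prism lam lam' l (rain m)

theorem del_chi {m : ℕ} {lam lam' : V → ℕ} (h : ∀ v, lam v ≤ m) (h' : ∀ v, lam' v ≤ m)
    (l : List V) : del l (chi m lam lam') = rain m (l.map lam) + rain m (l.map lam') := by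
  have h1 := prism_del lam lam' l (rain m)
  have h2 : prism lam lam' l (fun l' => del l' (rain m)) = 0 := by
    by_contra hne
    obtain ⟨L, h3, h4⟩ := prism_supp _ _ _ _ hne
    apply h3
    have h5 := (del_ind L (Multiset.range (m + 1)) (Multiset.nodup_range _)).2
    apply h5
    rintro ⟨a, ha, e⟩
    apply ha
    have ha2 : a ∈ (L : Multiset ℕ) := by rw [e]; exact Multiset.mem_cons_self a _
    obtain ⟨v, _, hv⟩ := h4 a (by simpa using ha2)
    rw [Multiset.mem_range]
    rcases hv with rfl | rfl
    · exact Nat.lt_succ_of_le (h v)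
    · exact Nat.lt_succ_of_le (h' v)
  rw [h2] at h1
  have h6 : del l (fun l' => prism lam lam' l' (rain m)) = del l (chi m lam lam') := rfl
  rw [h6] at h1
  have h8 := two_eq (rain m (l.map lam))
  have h9 := two_eq (rain m (l.map lam'))
  linear_combination -h1 - h8 - h9

end HOM

open HOM in
/-- HOM -/
theorem t_HOM : S_HOM := by
  intro m N W lam lam' hlam hlam' hW hcell
  set chiW : List V → ZMod 2 := fun l => if ∀ v ∈ l, v ∈ W then chi m lam lam' l else 0 with hchiW
  have h1 : sumG m N (fun l => del l chiW) = 0 := by
    refine grid_del_zero N (fun _ => 0) m chiW ?_ ?_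
    · rw [hchiW]
      simp only
      split_ifs <;> rfl
    · intro i hi c hc l hl
      rw [hchiW]
      simp only
      cases l with
      | nil => split_ifs <;> rfl
      | cons v l =>
        rw [if_neg]
        intro h
        have hv := hW v (h v List.mem_cons_self) i hi
        have hvc := hl v List.mem_cons_self
        rcases hc with rfl | rfl
        · exact hv.1 hvc
        · exact hv.2 hvc
  have h2 : sumG m N (fun l => del l chiW) =
      sumG m N (fun l => (if ∀ v ∈ l, v ∈ W then rain m (l.map lam) else 0) +
        (if ∀ v ∈ l, v ∈ W then rain m (l.map lam') else 0)) := by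
    refine sumG_congr ?_
    rintro l ⟨x, hx⟩
    by_cases hl : ∀ v ∈ l, v ∈ W
    · rw [if_pos hl, if_pos hl, ← del_chi hlam hlam' l]
      refine del_congr _ _ _ ?_
      intro l' hl'
      rw [hchiW]
      simp only
      rw [if_pos (fun v hv => hl v (hl' v hv))]
    · rw [if_neg hl, if_neg hl, add_zero]
      refine del_zero' _ _ ?_
      intro l' hl'
      rw [hchiW]
      simp only
      split_ifs with hlW
      · by_contra hne
        obtain ⟨L, h3, h4⟩ := prism_supp _ _ _ _ hne
        have h5 : (L : Multiset ℕ) = Multiset.range (m + 1) := by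
          by_contra hL
          apply h3
          simp only [rain, ind]
          rw [if_neg hL]
        apply hl
        intro v hv
        refine hcell x l' (fun w hw => hx w (hl' w hw)) hlW ?_ v (hx v hv)
        intro j hj
        have h6 : j ∈ (L : Multiset ℕ) := by
          rw [h5, Multiset.mem_range]
          omega
        obtain ⟨w, hw, e⟩ := h4 j (by simpa using h6)
        refine ⟨w, hw, ?_⟩
        rcases e with e | e
        · exact Or.inl e.symm
        · exact Or.inr e.symm
      · rfl
  rw [h1] at h2
  have h3 : sumG m N (fun l => (if ∀ v ∈ l, v ∈ W then rain m (l.map lam) else 0) +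
        (if ∀ v ∈ l, v ∈ W then rain m (l.map lam') else 0)) = cut m N W lam + cut m N W lam' :=
    grid_add _ _ _ _ _
  rw [h3] at h2
  exact CharTwo.add_eq_zero.1 h2.symm

end R859.BT
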