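import Pool.Agent.R859.BT.Stm

set_option autoImplicit false

/-!
# BT-LIN: linear algebra of two planes
-/

namespace R859.BT

theorem lin_pyth {n : ℕ} (P : Submodule ℝ (E n)) (u : E n) :
    ‖u‖ ^ 2 = ‖P.starProjection u‖ ^ 2 + ‖u - P.starProjection u‖ ^ 2 := by
  have h1 : inner ℝ (u - P.starProjection u) (P.starProjection u) = 0 :=
    P.starProjection_inner_eq_zero u _ (P.starProjection_apply_mem u)
  have h2 := norm_add_sq_real (u - P.starProjection u) (P.starProjection u)
  rw [sub_add_cancel, h1] at h2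
  linarith

theorem t_LIN : S_LIN := by
  intro n P Q hfin hQ v hv
  have key : ∀ u ∈ Q, ‖u‖ ≤ 2 * ‖P.starProjection u‖ := by
    intro u hu
    have h1 := lin_pyth P u
    have h2 := hQ u hu
    have h3 : ‖u - P.starProjection u‖ ^ 2 ≤ (4 / 5 * ‖u‖) ^ 2 :=
      pow_le_pow_left₀ (norm_nonneg _) h2 2
    have h4 : ‖u‖ ^ 2 ≤ (2 * ‖P.starProjection u‖) ^ 2 := by
      have : (4 / 5 * ‖u‖) ^ 2 = 16 / 25 * ‖u‖ ^ 2 := by ring
      rw [this] at h3
      have h5 : (2 * ‖P.starProjection u‖) ^ 2 = 4 * ‖P.starProjection u‖ ^ 2 := by ring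
      rw [h5]
      nlinarith [sq_nonneg ‖u‖]
    exact le_of_sq_le_sq h4 (by positivity)
  let T : Q →ₗ[ℝ] P := (P.orthogonalProjection : E n →L[ℝ] P).toLinearMap ∘ₗ Q.subtype
  have hT : ∀ u : Q, ((T u : P) : E n) = P.starProjection (u : E n) := fun u => rfl
  have hinj : Function.Injective T := by
    rw [injective_iff_map_eq_zero]
    intro u hu
    have h1 := key u u.2
    rw [← hT u, hu] at h1
    have h2 : ‖(u : E n)‖ ≤ 0 := by simpa using h1
    exact Subtype.ext (norm_le_zero_iff.1 h2)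
  have hsurj : Function.Surjective T :=
    (LinearMap.injective_iff_surjective_of_finrank_eq_finrank hfin.symm).1 hinj
  obtain ⟨u, hu⟩ := hsurj ⟨v, hv⟩
  have h1 : P.starProjection (u : E n) = v := by
    rw [← hT u, hu]
  refine ⟨u, u.2, h1, ?_⟩
  have := key u u.2
  rwa [h1] at this

end R859.BT
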