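import Pool.Agent.R859.BT.Stm

set_option autoImplicit false

/-!
Piece BT-NET: subsets of `ℝ^n` have nets with a bounded number of classes.
-/

namespace R859.BT

open Metric Set Filter Topology

namespace NETaux

theorem abs_coord_le {n : ℕ} (x y : E n) (i : Fin n) : |x i - y i| ≤ dist x y := by
  rw [EuclideanSpace.dist_eq]
  have h1 : |x i - y i| = Real.sqrt ((dist (x i) (y i)) ^ 2) := by
    rw [Real.sqrt_sq dist_nonneg, Real.dist_eq]
  rw [h1]
  apply Real.sqrt_le_sqrt
  exact Finset.single_le_sum (f := fun i => dist (x i) (y i) ^ 2) (fun _ _ => sq_nonneg _)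
    (Finset.mem_univ i)

theorem dist_le_mul {n : ℕ} (x y : E n) {a : ℝ} (ha : 0 ≤ a) (h : ∀ i, |x i - y i| ≤ a) :
    dist x y ≤ n * a := by
  rw [EuclideanSpace.dist_eq]
  have h1 : ∑ i, dist (x i) (y i) ^ 2 ≤ n * a ^ 2 := by
    calc ∑ i, dist (x i) (y i) ^ 2 ≤ ∑ _i : Fin n, a ^ 2 := by
          refine Finset.sum_le_sum fun i _ => ?_
          rw [Real.dist_eq]
          exact pow_le_pow_left₀ (abs_nonneg _) (h i) 2
      _ = n * a ^ 2 := by simp
  rcases Nat.eq_zero_or_pos n with rfl | hn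
  · simp
  have hn1 : (1 : ℝ) ≤ n := by exact_mod_cast hn
  have h2 : ∑ i, dist (x i) (y i) ^ 2 ≤ (n * a) ^ 2 := by
    refine h1.trans ?_
    have : 0 ≤ a ^ 2 := sq_nonneg a
    nlinarith
  calc Real.sqrt (∑ i, dist (x i) (y i) ^ 2) ≤ Real.sqrt ((n * a) ^ 2) := Real.sqrt_le_sqrt h2
    _ = n * a := Real.sqrt_sq (by positivity)

end NETaux

open NETaux in
theorem t_NET : S_NET := by
  classical
  intro n
  obtain ⟨q, hq⟩ : ∃ q : ℕ, q = 24 * n + 26 := ⟨_, rfl⟩
  have : NeZero q := ⟨by omega⟩
  refine ⟨Fintype.card (Fin n → ZMod q), fun M t ht => ?_⟩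
  obtain ⟨a, ha⟩ : ∃ a : ℝ, a = t / (8 * n + 8) := ⟨_, rfl⟩
  have hn0 : (0 : ℝ) < 8 * n + 8 := by positivity
  have ha0 : 0 < a := by rw [ha]; positivity
  have hat : (8 * n + 8) * a = t := by
    rw [ha]
    field_simp
  let idx : M → Fin n → ℤ := fun z i => ⌊(z : E n) i / a⌋
  let e := Fintype.equivFin (Fin n → ZMod q)
  let cls : (Fin n → ℤ) → Fin n → ZMod q := fun c i => ((c i : ℤ) : ZMod q)
  refine ⟨fun k => {y | ∃ (c : Fin n → ℤ) (h : ∃ w : M, idx w = c), y = Classical.choose h ∧
    (e (cls c) : ℕ) = k}, ?_, ?_⟩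
  · rintro k - y ⟨c, h, rfl, hk⟩ y' ⟨c', h', rfl, hk'⟩ hne
    have hcc : cls c = cls c' := e.injective (Fin.ext (hk.trans hk'.symm))
    have hne' : c ≠ c' := by
      rintro rfl
      exact hne rfl
    obtain ⟨i, hi⟩ : ∃ i, c i ≠ c' i := by
      by_contra hcon
      push Not at hcon
      exact hne' (funext hcon)
    have hdvd : (q : ℤ) ∣ c' i - c i := by
      have h1 : ((c i : ℤ) : ZMod q) = ((c' i : ℤ) : ZMod q) := congrFun hcc i
      exact (ZMod.intCast_eq_intCast_iff_dvd_sub _ _ _).1 h1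
    have habs : (q : ℤ) ≤ |c' i - c i| := by
      refine Int.le_of_dvd (abs_pos.2 (sub_ne_zero.2 hi.symm)) ?_
      rwa [dvd_abs]
    have hy : idx (Classical.choose h) = c := Classical.choose_spec h
    have hy' : idx (Classical.choose h') = c' := Classical.choose_spec h'
    set y := Classical.choose h with hyd
    set y' := Classical.choose h' with hyd'
    have f1 : (c i : ℝ) ≤ (y : E n) i / a ∧ (y : E n) i / a < c i + 1 := by
      have h2 : ⌊(y : E n) i / a⌋ = c i := congrFun hy i
      rw [← h2]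
      exact ⟨Int.floor_le _, Int.lt_floor_add_one _⟩
    have f2 : (c' i : ℝ) ≤ (y' : E n) i / a ∧ (y' : E n) i / a < c' i + 1 := by
      have h2 : ⌊(y' : E n) i / a⌋ = c' i := congrFun hy' i
      rw [← h2]
      exact ⟨Int.floor_le _, Int.lt_floor_add_one _⟩
    have f3 : (24 * n + 25 : ℝ) * a < |(y : E n) i - (y' : E n) i| := by
      have e1 : (y : E n) i = (y : E n) i / a * a := by field_simp
      have e2 : (y' : E n) i = (y' : E n) i / a * a := by field_simp
      have e3 : (y : E n) i - (y' : E n) i = ((y : E n) i / a - (y' : E n) i / a) * a := by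
        rw [sub_mul, ← e1, ← e2]
      rw [e3, abs_mul, abs_of_pos ha0]
      refine mul_lt_mul_of_pos_right ?_ ha0
      have h3 : (q : ℝ) ≤ |(c' i : ℝ) - c i| := by exact_mod_cast habs
      have h4 : (q : ℝ) = 24 * n + 26 := by
        rw [hq]
        push_cast
        ring
      rw [h4] at h3
      rcases le_abs.1 h3 with h5 | h5
      · rw [lt_abs]
        right
        linarith [f1.1, f1.2, f2.1, f2.2]
      · rw [lt_abs]
        left
        linarith [f1.1, f1.2, f2.1, f2.2]
    have f4 := abs_coord_le (y : E n) (y' : E n) i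
    have f5 : dist y y' = dist (y : E n) (y' : E n) := rfl
    rw [f5]
    nlinarith
  · intro z
    refine ⟨e (cls (idx z)), (e (cls (idx z))).2, Classical.choose (⟨z, rfl⟩ : ∃ w : M, idx w = idx z),
      ⟨idx z, ⟨z, rfl⟩, rfl, rfl⟩, ?_⟩
    have hy : idx (Classical.choose (⟨z, rfl⟩ : ∃ w : M, idx w = idx z)) = idx z :=
      Classical.choose_spec (⟨z, rfl⟩ : ∃ w : M, idx w = idx z)
    set y := Classical.choose (⟨z, rfl⟩ : ∃ w : M, idx w = idx z) with hyd
    have h1 : dist (z : E n) (y : E n) ≤ n * a := by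
      refine dist_le_mul _ _ ha0.le fun i => ?_
      have h2 : ⌊(y : E n) i / a⌋ = ⌊(z : E n) i / a⌋ := congrFun hy i
      have f1 := Int.floor_le ((z : E n) i / a)
      have f2 := Int.lt_floor_add_one ((z : E n) i / a)
      have f3 := Int.floor_le ((y : E n) i / a)
      have f4 := Int.lt_floor_add_one ((y : E n) i / a)
      rw [h2] at f3 f4
      have e1 : (y : E n) i = (y : E n) i / a * a := by field_simp
      have e2 : (z : E n) i = (z : E n) i / a * a := by field_simp
      have e3 : (z : E n) i - (y : E n) i = ((z : E n) i / a - (y : E n) i / a) * a := by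
        rw [sub_mul, ← e1, ← e2]
      rw [e3, abs_mul, abs_of_pos ha0]
      have h5 : |(z : E n) i / a - (y : E n) i / a| ≤ 1 := by
        rw [abs_le]
        constructor <;> linarith
      nlinarith
    have h3 : dist z y = dist (z : E n) (y : E n) := rfl
    rw [h3]
    nlinarith

end R859.BT
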