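import Pool.Agent.R859.BT.Stm

set_option autoImplicit false

/-!
BT-PROP (MP_e0d06b_an): propagation of degree zero to neighbouring balls.
-/

namespace R859.BT

open Metric Set Filter Topology
open scoped Classical

namespace PROP

lemma coord_le {m : ℕ} (x z : E m) (i : Fin m) : |x i - z i| ≤ dist x z := by
  rw [dist_eq_norm]
  have h := PiLp.norm_apply_le (x - z) i
  rwa [PiLp.sub_apply, Real.norm_eq_abs] at h

lemma dist_le {m : ℕ} (hm : 1 ≤ m) (x z : E m) {c : ℝ} (hc : 0 ≤ c)
    (h : ∀ i, |x i - z i| ≤ c) : dist x z ≤ m * c := by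
  have hm' : (1 : ℝ) ≤ m := by exact_mod_cast hm
  rw [EuclideanSpace.dist_eq]
  refine Real.sqrt_le_iff.2 ⟨by positivity, ?_⟩
  calc ∑ i, dist (x i) (z i) ^ 2 ≤ ∑ _i : Fin m, c ^ 2 := by
        refine Finset.sum_le_sum fun i _ => ?_
        rw [Real.dist_eq]
        exact pow_le_pow_left₀ (abs_nonneg _) (h i) 2
    _ = m * c ^ 2 := by simp
    _ ≤ (m * c) ^ 2 := by
        rw [mul_pow]
        have h2 : (m : ℝ) ≤ m ^ 2 := by nlinarith
        exact mul_le_mul_of_nonneg_right h2 (sq_nonneg _)

/-- a labelling by the position with respect to `p` -/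
noncomputable def dl {m : ℕ} (p x : E m) : ℕ :=
  if h : ∃ i : Fin m, x i ≤ p i then (h.choose : ℕ) + 1 else 0

lemma dl_le {m : ℕ} (p x : E m) : dl p x ≤ m := by
  unfold dl
  split_ifs with h
  · exact h.choose.2
  · exact Nat.zero_le _

lemma dl_zero {m : ℕ} {p x : E m} (h : dl p x = 0) (i : Fin m) : p i < x i := by
  unfold dl at h
  split_ifs at h with h'
  by_contra hc
  exact h' ⟨i, not_lt.1 hc⟩

lemma dl_succ {m : ℕ} {p x : E m} {i : Fin m} (h : dl p x = (i : ℕ) + 1) : x i ≤ p i := by
  unfold dl at h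
  split_ifs at h with h'
  · have h1 : h'.choose = i := Fin.ext (Nat.succ_injective h)
    have h2 := h'.choose_spec
    rwa [h1] at h2

lemma rain_perm {m : ℕ} {L L' : List ℕ} (h : L.Perm L') : rain m L = rain m L' := by
  unfold rain H63Fed.Kuhn.ind
  rw [Multiset.coe_eq_coe.2 h]

lemma rain_ne {m : ℕ} {L : List ℕ} (h : rain m L ≠ 0) :
    ((L : List ℕ) : Multiset ℕ) = Multiset.range (m + 1) := by
  by_contra hc
  apply h
  unfold rain H63Fed.Kuhn.ind
  exact if_neg hc

end PROP

open PROP

theorem t_PROP (hR : S_REP) (hS : S_SNAP) (hG : S_GRP) (hE : S_EL) (hD : S_DZH) : S_PROP := by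
  intro m N hm M _ g y y' t ε μ X X' ht hε0 hε hμ0 hμ hX hX' hmesh hint hyy hdz
  have hm' : (1 : ℝ) ≤ m := by exact_mod_cast hm
  have hm0 : (0 : ℝ) < m := by linarith
  obtain ⟨s, hs⟩ := hS m
  set h : ℝ := t / (1000 * (m : ℝ) ^ 2) with hh
  have hh0 : 0 < h := by positivity
  -- the elimination map
  set F : M → M := fun z => if dist z y ≤ 8 / 10 * t then
    (if hex : ∃ z0, dist z0 y ≤ 8 / 10 * t ∧ snapX s X h z0 = snapX s X h z then hex.choose else y)
    else z with hF
  have hF1 : ∀ z, dist z y ≤ 8 / 10 * t → dist (F z) y ≤ 8 / 10 * t ∧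
      snapX s X h (F z) = snapX s X h z := by
    intro z hz
    have hex : ∃ z0, dist z0 y ≤ 8 / 10 * t ∧ snapX s X h z0 = snapX s X h z := ⟨z, hz, rfl⟩
    have e : F z = hex.choose := by
      rw [hF]
      simp only [hz, if_true]
      rw [dif_pos hex]
    rw [e]
    exact hex.choose_spec
  have hF2 : ∀ z w, dist z y ≤ 8 / 10 * t → dist w y ≤ 8 / 10 * t →
      snapX s X h z = snapX s X h w → F z = F w := by
    intro z w hz hw hzw
    rw [hF]
    simp only [hz, hw, if_true]
    simp only [hzw]
  have hF3 : ∀ z, ¬ dist z y ≤ 8 / 10 * t → F z = z := by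
    intro z hz
    rw [hF]
    simp only [hz, if_false]
  have helim : IsElim s X y t h F := ⟨hF1, hF2⟩
  set D : ℝ := 2 * m * h + ε with hDdef
  have hD0 : 0 ≤ D := by positivity
  have hmh : (m : ℝ) * h = t / (1000 * m) := by
    rw [hh]
    field_simp
  have hDle : D ≤ 3 * t / (1000 * m) := by
    have e1 : 2 * (m : ℝ) * h = 2 * (t / (1000 * m)) := by rw [← hmh]; ring
    have e2 : 3 * t / (1000 * (m : ℝ)) = 2 * (t / (1000 * m)) + t / (1000 * m) := by ring
    rw [hDdef, e1, e2]
    linarith
  have hmD : (m : ℝ) * D ≤ 3 * t / 1000 := by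
    have := mul_le_mul_of_nonneg_left hDle hm0.le
    refine this.trans (le_of_eq ?_)
    field_simp
  have hD3 : D ≤ 3 * t / 1000 := by nlinarith
  have hFD : ∀ z, dist (F z) z ≤ D := by
    intro z
    by_cases hz : dist z y ≤ 8 / 10 * t
    · obtain ⟨h1, h2⟩ := hF1 z hz
      have h3 : ∀ i, |X (F z) i - X z i| ≤ 2 * h := by
        intro i
        have a1 := hs.1 (fun i => X (F z) i / h) i
        have a2 := hs.1 (fun i => X z i / h) i
        have e1 : s (fun i => X (F z) i / h) i = s (fun i => X z i / h) i := congrFun h2 i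
        rw [e1] at a1
        rw [abs_lt] at a1 a2
        have e2 : X (F z) i = X (F z) i / h * h := by field_simp
        have e3 : X z i = X z i / h * h := by field_simp
        have e4 : X (F z) i - X z i = (X (F z) i / h - X z i / h) * h := by
          rw [sub_mul, ← e2, ← e3]
        rw [e4, abs_mul, abs_of_pos hh0]
        refine mul_le_mul_of_nonneg_right ?_ hh0.le
        rw [abs_le]
        constructor <;> linarith
      have h4 := dist_le hm (X (F z)) (X z) (by positivity) h3
      have h5 := hX.2.2 (F z) z (by linarith) (by linarith)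
      rw [hDdef]
      linarith
    · rw [hF3 z hz, dist_self]
      exact hD0
  have hmu1 : μ ≤ t / 10000 := by
    refine hμ.trans ?_
    refine div_le_div_of_nonneg_left ht.le (by norm_num) ?_
    have : (1 : ℝ) ≤ ((m : ℝ) + 1) ^ 3 := one_le_pow₀ (by linarith)
    linarith
  have hmmu : (m : ℝ) * μ ≤ t / 10000 := by
    have h1 : (m : ℝ) * μ ≤ m * (t / (10000 * ((m : ℝ) + 1) ^ 3)) :=
      mul_le_mul_of_nonneg_left hμ hm0.le
    refine h1.trans ?_
    rw [mul_div_assoc', div_le_div_iff₀ (by positivity) (by norm_num)]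
    have h2 : (m : ℝ) ≤ ((m : ℝ) + 1) ^ 3 := by nlinarith [sq_nonneg (m : ℝ)]
    nlinarith [mul_le_mul_of_nonneg_left h2 ht.le]
  have hεt : ε ≤ t / 1000 := by
    refine hε.trans ?_
    refine div_le_div_of_nonneg_left ht.le (by norm_num) ?_
    linarith
  have hel := hE m N hm M g g y t ε μ 0 D h X s F ht hh0
    (by
      rw [hh]
      refine div_le_div_of_nonneg_left ht.le (by positivity) ?_
      nlinarith)
    (by linarith) hX hs helim hFD (by linarith) (fun v => by rw [dist_self]) le_rfl (by positivity)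
    hmesh
    (by
      refine lt_of_le_of_lt hμ ?_
      rw [hh, div_div, div_lt_div_iff_of_pos_left ht (by positivity) (by positivity)]
      have e1 : (10000 : ℝ) * ((m : ℝ) + 1) ^ 3 - 1000 * (m : ℝ) ^ 2 * (2 * (m + 1)) =
        (m + 1) * (8000 * (m : ℝ) ^ 2 + 20000 * m + 10000) := by ring
      have e2 : 0 < ((m : ℝ) + 1) * (8000 * (m : ℝ) ^ 2 + 20000 * m + 10000) := by positivity
      linarith)
    hdz
  -- the labelling
  set p0 : E m := X' y with hp0
  set lam0 : V → ℕ := fun v => dl p0 (X' (F (g v))) with hlam0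
  have hcoordF : ∀ v (i : Fin m), |X' (F (g v)) i - X' (g v) i| ≤ D := fun v i =>
    (coord_le _ _ i).trans ((hX'.2.1 _ _).trans (hFD _))
  have hadm : Adm g y' t X' p0 D lam0 := by
    refine ⟨fun v => dl_le _ _, fun v _ => ⟨fun h0 i => ?_, fun i hi => ?_⟩⟩
    · have h1 := dl_zero h0 i
      have h2 := abs_le.1 (hcoordF v i)
      linarith [h2.2]
    · have h1 := dl_succ hi
      have h2 := abs_le.1 (hcoordF v i)
      linarith [h2.1]
  have hp0n : ‖p0‖ ≤ t / 8 := by
    have h1 := hX'.2.1 y y'
    rw [hX'.1, dist_zero_right] at h1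
    exact h1.trans hyy
  -- the sum
  obtain ⟨S, hS1, hS2⟩ := hR m N
  set φ : List M → ZMod 2 := fun L => if ∀ z ∈ L, dist z y ≤ t / 4 then
    rain m (L.map fun z => dl p0 (X' z)) else 0 with hφ
  have hsum : sumG m N (fun l => φ (l.map fun v => F (g v))) = 0 := by
    refine hG m N M (fun v => F (g v)) {z | dist z y ≤ t / 2} φ ?_ ?_ ?_ ?_
    · intro l l' hl
      rw [hφ]
      simp only
      have e1 : (∀ z ∈ l, dist z y ≤ t / 4) ↔ ∀ z ∈ l', dist z y ≤ t / 4 :=
        forall_congr' fun z => by rw [hl.mem_iff]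
      rw [rain_perm (hl.map _)]
      by_cases h1 : ∀ z ∈ l, dist z y ≤ t / 4
      · rw [if_pos h1, if_pos (e1.1 h1)]
      · rw [if_neg h1, if_neg fun h2 => h1 (e1.2 h2)]
    · intro l hl
      rw [hφ]
      simp only
      by_contra hc
      have h1 : rain m (l.map fun z => dl p0 (X' z)) ≠ 0 := by
        intro h0
        apply hc
        rw [h0]
        simp
      have h2 := rain_ne h1
      have h3 : (l.map fun z => dl p0 (X' z)).Nodup := by
        rw [← Multiset.coe_nodup, h2]
        exact Multiset.nodup_range _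
      exact hl (List.Nodup.of_map _ h3)
    · intro x l _ hl
      rw [hφ] at hl
      simp only at hl
      have h1 : ∀ z ∈ l.map (fun v => F (g v)), dist z y ≤ t / 4 := by
        by_contra hc
        rw [if_neg hc] at hl
        exact hl rfl
      rw [if_pos h1] at hl
      have h2 := rain_ne hl
      have h3 : l ≠ [] := by
        rintro rfl
        have h4 := congrArg Multiset.card h2
        simp at h4
      obtain ⟨v, hv⟩ := List.exists_mem_of_ne_nil l h3
      refine ⟨v, hv, ?_⟩
      have h5 := h1 (F (g v)) (List.mem_map.2 ⟨v, hv, rfl⟩)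
      show dist (F (g v)) y ≤ t / 2
      linarith
    · intro A hA hAc hAe
      exact hel A hA hAc hAe
  have hcut : cutB m N g y' t lam0 = 0 := by
    unfold cutB cut
    refine Eq.trans ?_ hsum
    rw [hS1, hS1]
    congr 1
    refine Multiset.map_congr rfl fun l hl => ?_
    obtain ⟨-, x, hx⟩ := hS2 l hl
    rw [hφ]
    simp only
    have e0 : (l.map fun v => F (g v)).map (fun z => dl p0 (X' z)) = l.map lam0 := by
      rw [List.map_map]
      rfl
    rw [e0]
    by_cases hrain : rain m (l.map lam0) = 0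
    · rw [hrain]
      simp
    · have hr := rain_ne hrain
      have hlab : ∀ j, j ≤ m → ∃ v ∈ l, lam0 v = j := by
        intro j hj
        have h1 : j ∈ ((l.map lam0 : List ℕ) : Multiset ℕ) := by
          rw [hr, Multiset.mem_range]
          omega
        rw [Multiset.mem_coe, List.mem_map] at h1
        obtain ⟨v, hv, hv'⟩ := h1
        exact ⟨v, hv, hv'⟩
      have hFF : ∀ v ∈ l, ∀ w ∈ l, dist (F (g v)) (F (g w)) ≤ μ + 2 * D := by
        intro v hv w hw
        have h1 := hmesh x v w (hx v hv) (hx w hw)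
        have h2 := hFD (g v)
        have h3 := hFD (g w)
        have h4 := dist_triangle (F (g v)) (g v) (F (g w))
        have h5 := dist_triangle (g v) (g w) (F (g w))
        rw [dist_comm (g w) (F (g w))] at h5
        linarith
      have hiff : (∀ v ∈ l, v ∈ {v | dist (g v) y' ≤ 9 / 10 * t}) ↔
          ∀ z ∈ l.map (fun v => F (g v)), dist z y ≤ t / 4 := by
        constructor
        · intro h1 z hz
          obtain ⟨v, hv, rfl⟩ := List.mem_map.1 hz
          have h2 : dist (g v) y' ≤ 9 / 10 * t := h1 v hv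
          have h3 : ∀ i : Fin m, |X' (F (g v)) i - p0 i| ≤ μ + 2 * D := by
            intro i
            obtain ⟨w, hw, hwl⟩ := hlab ((i : ℕ) + 1) i.2
            obtain ⟨w0, hw0, hwl0⟩ := hlab 0 (Nat.zero_le _)
            have a1 := dl_succ hwl
            have a2 := dl_zero hwl0 i
            have a3 := abs_le.1 ((coord_le (X' (F (g v))) (X' (F (g w))) i).trans
              ((hX'.2.1 _ _).trans (hFF v hv w hw)))
            have a4 := abs_le.1 ((coord_le (X' (F (g v))) (X' (F (g w0))) i).trans
              ((hX'.2.1 _ _).trans (hFF v hv w0 hw0)))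
            rw [abs_le]
            constructor
            · linarith [a4.1]
            · linarith [a3.2]
          have h4 := dist_le hm (X' (F (g v))) p0 (by positivity) h3
          have h5 : dist (F (g v)) y' ≤ t := by
            have b1 := dist_triangle (F (g v)) (g v) y'
            have b2 := hFD (g v)
            linarith
          have h6 := hX'.2.2 (F (g v)) y h5 (by linarith)
          have h7 : (m : ℝ) * (μ + 2 * D) = m * μ + 2 * (m * D) := by ring
          rw [h7] at h4
          linarith
        · intro h1 v hv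
          have h2 := h1 (F (g v)) (List.mem_map.2 ⟨v, hv, rfl⟩)
          show dist (g v) y' ≤ 9 / 10 * t
          have b1 := dist_triangle (g v) (F (g v)) y'
          have b2 := hFD (g v)
          have b3 := dist_triangle (F (g v)) y y'
          rw [dist_comm (g v) (F (g v))] at b1
          linarith
      by_cases h1 : ∀ v ∈ l, v ∈ {v | dist (g v) y' ≤ 9 / 10 * t}
      · rw [if_pos h1, if_pos (hiff.1 h1)]
      · rw [if_neg h1, if_neg fun h2 => h1 (hiff.2 h2)]
  refine hD m N hm M g y' t ε μ X' ht (by linarith) hμ0 ?_ hX' hmesh hint lam0 p0 D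
    (by linarith) hD0 ?_ hadm hcut
  · rw [le_div_iff₀ (by positivity)]
    nlinarith
  · refine hDle.trans ?_
    rw [div_le_div_iff₀ (by positivity) (by positivity)]
    nlinarith [mul_pos ht hm0]

end R859.BT
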