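import Pool.Agent.R859.BT.Stm

set_option autoImplicit false

/-!
BT-SEQ: elimination in all the balls of a net (MP_e0d06b_an).
-/

namespace R859.BT

open Metric Set Filter Topology
open scoped Classical

namespace SeqAux

theorem norm_le_of_coord {m : ℕ} (hm : 1 ≤ m) (x : E m) {c : ℝ} (hc : 0 ≤ c)
    (h : ∀ i, |x i| ≤ c) : ‖x‖ ≤ m * c := by
  have hm1 : (1 : ℝ) ≤ m := by exact_mod_cast hm
  rw [EuclideanSpace.norm_eq]
  have h1 : ∑ i, ‖x i‖ ^ 2 ≤ (m * c) ^ 2 := by
    calc ∑ i, ‖x i‖ ^ 2 ≤ ∑ _i : Fin m, c ^ 2 :=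
          Finset.sum_le_sum fun i _ => by
            rw [Real.norm_eq_abs]
            exact pow_le_pow_left₀ (abs_nonneg _) (h i) 2
      _ = m * c ^ 2 := by rw [Finset.sum_const, Finset.card_univ, Fintype.card_fin, nsmul_eq_mul]
      _ ≤ (m * c) ^ 2 := by
          rw [mul_pow]
          refine mul_le_mul_of_nonneg_right ?_ (sq_nonneg c)
          nlinarith
  calc Real.sqrt (∑ i, ‖x i‖ ^ 2) ≤ Real.sqrt ((m * c) ^ 2) := Real.sqrt_le_sqrt h1
    _ = m * c := Real.sqrt_sq (by positivity)

variable {M : Type} [MetricSpace M]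

theorem snap_dist {m : ℕ} (hm : 1 ≤ m) {s : (Fin m → ℝ) → (Fin m → ℤ)} (hs : IsSnap s)
    {X : M → E m} {y : M} {t ε h : ℝ} (ht : 0 < t) (hh : 0 < h) (hX : Coord y t ε X) {z w : M}
    (hz : dist z y ≤ 8 / 10 * t) (hw : dist w y ≤ 8 / 10 * t)
    (hsn : snapX s X h w = snapX s X h z) : dist w z ≤ 2 * m * h + ε := by
  have h1 := hX.2.2 w z (by linarith) (by linarith)
  have h2 : dist (X w) (X z) ≤ m * (2 * h) := by
    rw [dist_eq_norm]
    refine norm_le_of_coord hm _ (by positivity) fun i => ?_
    have a1 := hs.1 (fun i => X w i / h) i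
    have a2 := hs.1 (fun i => X z i / h) i
    have a3 : s (fun i => X w i / h) i = s (fun i => X z i / h) i := congrFun hsn i
    rw [a3] at a1
    have a4 : |X w i / h - X z i / h| ≤ 2 := by
      have e : X w i / h - X z i / h = (X w i / h - (s (fun i => X z i / h) i : ℝ)) -
        (X z i / h - (s (fun i => X z i / h) i : ℝ)) := by ring
      rw [e]
      exact (abs_sub _ _).trans (by linarith)
    have a5 : X w i / h - X z i / h = (X w i - X z i) / h := by ring
    rw [a5, abs_div, abs_of_pos hh, div_le_iff₀ hh] at a4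
    exact a4
  linarith

/-- the elimination map for a separated family of centres -/
theorem exists_elim {m : ℕ} (hm : 1 ≤ m) {s : (Fin m → ℝ) → (Fin m → ℤ)} (hs : IsSnap s)
    {Y : Set M} {X : M → M → E m} {t ε h : ℝ} (ht : 0 < t) (hε : 0 ≤ ε) (hh : 0 < h)
    (hsep : ∀ y ∈ Y, ∀ y' ∈ Y, y ≠ y' → 3 * t < dist y y')
    (hX : ∀ y ∈ Y, Coord y t ε (X y)) :
    ∃ F : M → M, (∀ y ∈ Y, IsElim s (X y) y t h F) ∧ (∀ z, dist (F z) z ≤ 2 * m * h + ε) ∧
      ∀ z, (∀ y ∈ Y, 8 / 10 * t < dist z y) → F z = z := by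
  let β : M → (Fin m → ℤ) → M := fun y n =>
    if hex : ∃ w, dist w y ≤ 8 / 10 * t ∧ snapX s (X y) h w = n then hex.choose else y
  have hβ : ∀ y z, dist z y ≤ 8 / 10 * t → dist (β y (snapX s (X y) h z)) y ≤ 8 / 10 * t ∧
      snapX s (X y) h (β y (snapX s (X y) h z)) = snapX s (X y) h z := by
    intro y z hz
    have hex : ∃ w, dist w y ≤ 8 / 10 * t ∧ snapX s (X y) h w = snapX s (X y) h z :=
      ⟨z, hz, rfl⟩
    have e : β y (snapX s (X y) h z) = hex.choose := dif_pos hex
    rw [e]
    exact hex.choose_spec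
  let F : M → M := fun z =>
    if hex : ∃ y, y ∈ Y ∧ dist z y ≤ 8 / 10 * t then
      β hex.choose (snapX s (X hex.choose) h z) else z
  have hF : ∀ y ∈ Y, ∀ z, dist z y ≤ 8 / 10 * t → F z = β y (snapX s (X y) h z) := by
    intro y hy z hz
    have hex : ∃ y, y ∈ Y ∧ dist z y ≤ 8 / 10 * t := ⟨y, hy, hz⟩
    have e : F z = β hex.choose (snapX s (X hex.choose) h z) := dif_pos hex
    have h1 := hex.choose_spec
    have h2 : hex.choose = y := by
      by_contra hne
      have h3 := hsep _ h1.1 _ hy hne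
      have h4 := dist_triangle_left hex.choose y z
      linarith [h1.2]
    rw [e, h2]
  refine ⟨F, fun y hy => ⟨fun z hz => ?_, fun z w hz hw hzw => ?_⟩, fun z => ?_, fun z hz => ?_⟩
  · rw [hF y hy z hz]
    exact hβ y z hz
  · rw [hF y hy z hz, hF y hy w hw, hzw]
  · by_cases hex : ∃ y, y ∈ Y ∧ dist z y ≤ 8 / 10 * t
    · obtain ⟨y, hy, hz⟩ := hex
      rw [hF y hy z hz]
      exact snap_dist hm hs ht hh (hX y hy) hz (hβ y z hz).1 (hβ y z hz).2
    · have e : F z = z := dif_neg hex
      rw [e, dist_self]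
      positivity
  · refine dif_neg ?_
    rintro ⟨y, hy, h1⟩
    exact absurd (hz y hy) (not_lt.2 h1)

/-- old zeros are preserved by a small displacement -/
theorem old_par (hGRP : S_GRP) {m N : ℕ} {f : V → M} {F : M → M} {D : ℝ}
    (hF : ∀ z, dist (F z) z ≤ D) {C : Set M} {R R' : ℝ} (hR : R' + D ≤ R)
    (hold : ∀ A : Multiset M, A.Nodup → Multiset.card A = m + 1 →
      (∃ a ∈ A, ∃ y ∈ C, dist a y ≤ R) → par m N f A = 0)
    (A : Multiset M) (hA : A.Nodup) (hA2 : ∃ a ∈ A, ∃ y ∈ C, dist a y ≤ R') :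
    par m N (fun v => F (f v)) A = 0 := by
  have h := hGRP m N M f {z | ∃ y ∈ C, dist z y ≤ R}
    (fun l => if ((l.map F : List M) : Multiset M) = A then 1 else 0) ?_ ?_ ?_ ?_
  · have e : (fun l : List V => if ((l.map (fun v => F (f v)) : List M) : Multiset M) = A
        then (1 : ZMod 2) else 0) =
        fun l => (fun l : List M => if ((l.map F : List M) : Multiset M) = A
          then (1 : ZMod 2) else 0) (l.map f) := by
      funext l
      simp only [List.map_map]
      rfl
    unfold par
    rw [e]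
    exact h
  · intro l l' hp
    have : ((l.map F : List M) : Multiset M) = ((l'.map F : List M) : Multiset M) :=
      Multiset.coe_eq_coe.2 (hp.map F)
    simp only [this]
  · intro l hl
    refine if_neg fun h => hl ?_
    rw [← h, Multiset.coe_nodup] at hA
    exact List.Nodup.of_map F hA
  · intro x l _ hne
    have h1 : (((l.map f).map F : List M) : Multiset M) = A := by
      by_contra hc
      exact hne (if_neg hc)
    obtain ⟨a, ha, y, hy, hay⟩ := hA2
    rw [← h1, Multiset.mem_coe, List.mem_map] at ha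
    obtain ⟨b, hb, rfl⟩ := ha
    obtain ⟨v, hv, rfl⟩ := List.mem_map.1 hb
    refine ⟨v, hv, y, hy, ?_⟩
    have h2 := hF (f v)
    have h3 := dist_triangle_left (f v) y (F (f v))
    linarith
  · intro B hB hBc hBE
    exact hold B hB hBc hBE

end SeqAux

open SeqAux in
theorem t_SEQ (hSNAP : S_SNAP) (hGRP : S_GRP) (hEL : S_EL) : S_SEQ := by
  intro m L hm
  obtain ⟨s, hs⟩ := hSNAP m
  set q : ℝ := (m : ℝ) + 1 with hq
  have hm1 : (1 : ℝ) ≤ m := by exact_mod_cast hm
  have hq2 : 2 ≤ q := by rw [hq]; linarith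
  have hL1 : (1 : ℝ) ≤ (L : ℝ) + 1 := by
    have : (0 : ℝ) ≤ L := Nat.cast_nonneg L
    linarith
  set a : ℝ := 20 * q ^ 2 with ha
  have ha1 : 1 ≤ a := by rw [ha]; nlinarith
  have ha0 : 0 < a := by linarith
  refine ⟨(a ^ (L + 1))⁻¹ / (8000 * q ^ 2 * (L + 1)), by positivity, ?_⟩
  set c : ℝ := (a ^ (L + 1))⁻¹ / (8000 * q ^ 2 * (L + 1)) with hc
  intro N M _ g t ε μ Y X ht hε0 hε hμ0 hμ hmesh hsep hY
  have hc0 : 0 < c := by rw [hc]; positivity
  -- the meshes
  set h : ℕ → ℝ := fun k => a ^ (k + 1) * (c * t) with hh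
  have hpos : ∀ k, 0 < h k := fun k => by rw [hh]; positivity
  have hsucc : ∀ k, h (k + 1) = a * h k := fun k => by
    simp only [hh]; ring
  have hct : ∀ k, c * t ≤ h k := fun k => by
    simp only [hh]
    have : 1 ≤ a ^ (k + 1) := one_le_pow₀ ha1
    have h2 : 0 < c * t := by positivity
    nlinarith
  have hL : h L = t / (8000 * q ^ 2 * (L + 1)) := by
    simp only [hh, hc]
    field_simp
  have hmono : ∀ k, k ≤ L → h k ≤ h L := by
    intro k hk
    simp only [hh]
    exact mul_le_mul_of_nonneg_right (pow_le_pow_right₀ ha1 (by omega)) (by positivity)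
  have hLle : h L ≤ t / (8000 * q ^ 2) := by
    rw [hL]
    refine div_le_div_of_nonneg_left ht.le (by positivity) ?_
    nlinarith [sq_nonneg q]
  -- displacement bound
  have hD : ∀ k, 2 * m * h k + ε ≤ 2 * q * h k := by
    intro k
    have h1 := hct k
    have h2 := hpos k
    rw [hq]
    nlinarith
  have hDL : ∀ k, k < L → 2 * m * h k + ε ≤ t / (80000 * (L + 1)) := by
    intro k hk
    have h1 := hmono (k + 1) hk
    rw [hsucc, hL] at h1
    have h2 : 2 * q * h k ≤ t / (80000 * (L + 1)) := by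
      rw [le_div_iff₀ (by positivity)]
      rw [le_div_iff₀ (by positivity), ha] at h1
      have h3 := hpos k
      have h4 : 2 * q * h k * (80000 * ((L : ℝ) + 1)) ≤
          20 * q ^ 2 * h k * (8000 * q ^ 2 * (L + 1)) := by
        have h5 : 0 < h k * ((L : ℝ) + 1) := by positivity
        have h6 : q ≤ q ^ 4 := by
          have : 1 ≤ q ^ 3 := one_le_pow₀ (by linarith)
          nlinarith
        nlinarith
      linarith
    exact (hD k).trans h2
  -- the sequence of maps
  have key : ∀ k, k ≤ L → ∃ f : V → M, (∀ v, dist (f v) (g v) ≤ h k / (8 * q)) ∧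
      Mesh m N f (h k / (3 * q)) ∧
      (∀ v, (∀ k, k < L → ∀ y ∈ Y k, t < dist (g v) y) → f v = g v) ∧
      ∀ A : Multiset M, A.Nodup → Multiset.card A = m + 1 →
        (∃ a ∈ A, ∃ y ∈ {y | ∃ j, j < k ∧ y ∈ Y j}, dist a y ≤ t / 2 - k * (t / (8 * (L + 1)))) →
        par m N f A = 0 := by
    intro k
    induction k with
    | zero =>
      intro _
      refine ⟨g, fun v => ?_, fun x v w hv hw => ?_, fun v _ => rfl, ?_⟩
      · rw [dist_self]
        have := hpos 0
        positivity
      · refine (hmesh x v w hv hw).trans (hμ.trans ?_)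
        rw [le_div_iff₀ (by positivity)]
        simp only [hh, ha, zero_add, pow_one]
        have h2 : 0 < c * t := by positivity
        have h3 : 3 * q ≤ 20 * q ^ 2 := by nlinarith
        nlinarith
      · rintro A _ _ ⟨a, _, y, ⟨j, hj, _⟩, _⟩
        omega
    | succ k ih =>
      intro hk
      obtain ⟨f, hf1, hf2, hf3, hf4⟩ := ih (by omega)
      have hkL : k < L := by omega
      have hhk := hpos k
      obtain ⟨F, hF1, hF2, hF3⟩ := exists_elim (h := h k) hm hs (Y := Y k) (X := X) ht hε0 hhk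
        (hsep k hkL) (fun y hy => (hY k hkL y hy).1)
      have hDk := hD k
      have hDk' := hDL k hkL
      have hkL' := (hmono k (by omega)).trans hLle
      have hq4 : 4 ≤ q ^ 2 := by nlinarith
      have hkt : h k ≤ t / (8000 * q) := by
        refine hkL'.trans (div_le_div_of_nonneg_left ht.le (by positivity) ?_)
        nlinarith
      have hkm : h k ≤ t / (1000 * m) := by
        refine hkt.trans (div_le_div_of_nonneg_left ht.le (by positivity) ?_)
        rw [hq]; linarith
      have hsmall : t / (80000 * ((L : ℝ) + 1)) ≤ t / 80000 := by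
        refine div_le_div_of_nonneg_left ht.le (by positivity) ?_
        linarith
      have hsq : h (k + 1) / (8 * q) = 5 / 2 * q * h k := by
        rw [hsucc, ha]
        field_simp
        norm_num
      have hsq3 : h (k + 1) / (3 * q) = 20 / 3 * q * h k := by
        rw [hsucc, ha]
        field_simp
      have h8 : h k / (8 * q) ≤ h k / 16 := by
        refine div_le_div_of_nonneg_left hhk.le (by norm_num) (by linarith)
      have h3 : h k / (3 * q) ≤ h k / 6 := by
        refine div_le_div_of_nonneg_left hhk.le (by norm_num) (by linarith)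
      refine ⟨fun v => F (f v), fun v => ?_, fun x v w hv hw => ?_, fun v hv => ?_,
        fun A hA hAc hAE => ?_⟩
      · have h1 := hF2 (f v)
        have h2 := hf1 v
        have h4 := dist_triangle (F (f v)) (f v) (g v)
        rw [hsq]
        nlinarith
      · have h1 := hF2 (f v)
        have h2 := hF2 (f w)
        have h4 := hf2 x v w hv hw
        have h5 := dist_triangle (F (f v)) (f v) (F (f w))
        have h6 := dist_triangle (f v) (f w) (F (f w))
        rw [dist_comm (f w) (F (f w))] at h6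
        rw [hsq3]
        nlinarith
      · have h1 := hf3 v hv
        show F (f v) = g v
        rw [h1]
        refine hF3 _ fun y hy => ?_
        have := hv k hkL y hy
        linarith
      · obtain ⟨b, hb, y, ⟨j, hj, hyj⟩, hby⟩ := hAE
        have hRk : (0 : ℝ) ≤ (k : ℝ) * (t / (8 * (L + 1))) := by positivity
        rcases Nat.lt_succ_iff_lt_or_eq.1 hj with hj | hj
        · refine old_par hGRP hF2 (C := {y | ∃ j, j < k ∧ y ∈ Y j}) ?_ hf4 A hA
            ⟨b, hb, y, ⟨j, hj, hyj⟩, hby⟩
          have h7 : t / (80000 * ((L : ℝ) + 1)) ≤ t / (8 * (L + 1)) :=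
            div_le_div_of_nonneg_left ht.le (by positivity) (by linarith)
          push_cast
          linarith
        · subst hj
          obtain ⟨hC, hDZ⟩ := hY j hkL y hyj
          refine hEL m N hm M g f y t ε (h j / (3 * q)) (h j / (8 * q)) (2 * m * h j + ε) (h j)
            (X y) s F ht hhk hkm ?_ hC hs (hF1 y hyj) hF2 ?_ hf1 (by positivity) ?_ hf2 ?_ hDZ
            A hA hAc ⟨b, hb, ?_⟩
          · have h9 := hct j
            have h10 : t / (8000 * q) ≤ t / 100 :=
              div_le_div_of_nonneg_left ht.le (by norm_num) (by linarith)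
            linarith
          · linarith
          · have h11 : h j / 16 ≤ h j := by linarith
            linarith
          · rw [← hq]
            exact div_lt_div_of_pos_left hhk (by positivity) (by linarith)
          · have h12 : (0 : ℝ) ≤ ((j + 1 : ℕ) : ℝ) * (t / (8 * (L + 1))) := by positivity
            linarith
  obtain ⟨f, hf1, -, hf3, hf4⟩ := key L le_rfl
  refine ⟨f, fun v => (hf1 v).trans ?_, hf3, fun A hA hAc hAE => hf4 A hA hAc ?_⟩
  · have h1 : h L / (8 * q) ≤ h L / 1 :=
      div_le_div_of_nonneg_left (hpos L).le (by norm_num) (by linarith)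
    have h2 : t / (8000 * q ^ 2) ≤ t / 50 :=
      div_le_div_of_nonneg_left ht.le (by norm_num) (by nlinarith)
    rw [div_one] at h1
    linarith
  · obtain ⟨b, hb, k, hk, y, hy, hby⟩ := hAE
    refine ⟨b, hb, y, ⟨k, hk, hy⟩, hby.trans ?_⟩
    have h1 : (L : ℝ) * (t / (8 * (L + 1))) ≤ t / 8 := by
      rw [mul_div_assoc', div_le_div_iff₀ (by positivity) (by norm_num)]
      nlinarith
    linarith

end R859.BT
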