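import Pool.Agent.R859.BT.Stm

set_option autoImplicit false

/-!
Piece BT-SNAP: rounding onto the Kuhn triangulation of `ℤ^m`.
-/

namespace R859.BT

namespace SNAP

/-- good rounding -/
def Good {m : ℕ} (x : Fin m → ℝ) (g : Fin m → ℤ) : Prop :=
  ∃ a : ℝ, a ≤ 0 ∧ 0 ≤ a + (m : ℝ) / (m + 1) ∧
    ∀ i, a ≤ x i - (g i : ℝ) ∧ x i - (g i : ℝ) ≤ a + (m : ℝ) / (m + 1)

lemma exists_good {m : ℕ} (x : Fin m → ℝ) : ∃ g : Fin m → ℤ, Good x g := by
  have hm : (0 : ℝ) < (m : ℝ) + 1 := by positivity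
  have hfl : ∀ i, ⌊((m : ℝ) + 1) * Int.fract (x i)⌋₊ < m + 1 := by
    intro i
    rw [Nat.floor_lt (mul_nonneg hm.le (Int.fract_nonneg _))]
    push_cast
    calc ((m : ℝ) + 1) * Int.fract (x i) < ((m : ℝ) + 1) * 1 :=
          mul_lt_mul_of_pos_left (Int.fract_lt_one _) hm
      _ = (m : ℝ) + 1 := mul_one _
  let f : Fin m → Fin (m + 1) := fun i => ⟨⌊((m : ℝ) + 1) * Int.fract (x i)⌋₊, hfl i⟩
  have hns : ¬ Function.Surjective f := by
    intro h
    have := Fintype.card_le_of_surjective f h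
    simp at this
  rw [Function.Surjective] at hns
  push Not at hns
  obtain ⟨k, hk⟩ := hns
  have hkm : ((k : ℕ) : ℝ) ≤ m := by
    have := k.2
    exact_mod_cast Nat.lt_succ_iff.1 this
  refine ⟨fun i => if ⌊((m : ℝ) + 1) * Int.fract (x i)⌋₊ < (k : ℕ) then ⌊x i⌋ else ⌊x i⌋ + 1,
    ((k : ℕ) : ℝ) / (m + 1) - (m : ℝ) / (m + 1), ?_, ?_, ?_⟩
  · rw [← sub_div]
    apply div_nonpos_of_nonpos_of_nonneg
    · linarith
    · exact hm.le
  · rw [sub_add_cancel]; positivity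
  · intro i
    have h0 := Int.fract_nonneg (x i)
    have h1 := Int.fract_lt_one (x i)
    have hx : x i = ⌊x i⌋ + Int.fract (x i) := (Int.floor_add_fract (x i)).symm
    rw [sub_add_cancel]
    beta_reduce
    split_ifs with h
    · have h2 : ((m : ℝ) + 1) * Int.fract (x i) < k := by
        rwa [Nat.floor_lt (mul_nonneg hm.le h0)] at h
      have h3 : x i - (⌊x i⌋ : ℝ) = Int.fract (x i) := by linarith
      rw [h3]
      constructor
      · have : ((k : ℕ) : ℝ) / (m + 1) - (m : ℝ) / (m + 1) ≤ 0 := by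
          rw [← sub_div]
          exact div_nonpos_of_nonpos_of_nonneg (by linarith) hm.le
        linarith
      · rw [le_div_iff₀ hm]
        linarith
    · have hne : ⌊((m : ℝ) + 1) * Int.fract (x i)⌋₊ ≠ (k : ℕ) := by
        intro e
        exact hk i (Fin.ext e)
      have h2 : (k : ℕ) + 1 ≤ ⌊((m : ℝ) + 1) * Int.fract (x i)⌋₊ := by omega
      have h4 : (((k : ℕ) + 1 : ℕ) : ℝ) ≤ ((m : ℝ) + 1) * Int.fract (x i) := by
        rwa [Nat.le_floor_iff (mul_nonneg hm.le h0)] at h2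
      push_cast at h4 ⊢
      have h3 : x i - ((⌊x i⌋ : ℝ) + 1) = Int.fract (x i) - 1 := by linarith
      rw [h3]
      constructor
      · have h5 : ((k : ℕ) : ℝ) / (m + 1) - (m : ℝ) / (m + 1) = ((k : ℕ) + 1 : ℝ) / (m + 1) - 1 := by
          field_simp
          ring
        rw [h5]
        have : ((k : ℕ) + 1 : ℝ) / (m + 1) ≤ Int.fract (x i) := by
          rw [div_le_iff₀ hm]; linarith
        linarith
      · have : (0 : ℝ) ≤ ((k : ℕ) : ℝ) / (m + 1) := by positivity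
        linarith

lemma width {m : ℕ} : (m : ℝ) / (m + 1) = 1 - 1 / (m + 1) := by
  have hm : (0 : ℝ) < (m : ℝ) + 1 := by positivity
  field_simp
  ring

lemma comp {m : ℕ} (x y : Fin m → ℝ) (g h : Fin m → ℤ) (hg : Good x g) (hh : Good y h)
    (hxy : ∀ i, |x i - y i| < 1 / (2 * ((m : ℝ) + 1))) :
    (g ≤ h ∨ h ≤ g) ∧ ∀ i, |g i - h i| ≤ 1 := by
  obtain ⟨a, ha0, ha1, ha⟩ := hg
  obtain ⟨b, hb0, hb1, hb⟩ := hh
  have hm : (0 : ℝ) < (m : ℝ) + 1 := by positivity
  have hw := width (m := m)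
  have hd : 0 < 1 / ((m : ℝ) + 1) := by positivity
  have hhalf : 1 / (2 * ((m : ℝ) + 1)) = 1 / ((m : ℝ) + 1) / 2 := by
    field_simp
  rw [hw] at ha1 ha hb1 hb
  rw [hhalf] at hxy
  set d := 1 / ((m : ℝ) + 1)
  have hx : ∀ i, b - d / 2 < x i - h i ∧ x i - h i < b + (1 - d) + d / 2 := by
    intro i
    obtain ⟨h1, h2⟩ := hb i
    obtain ⟨h3, h4⟩ := abs_lt.1 (hxy i)
    constructor <;> linarith
  constructor
  · by_contra hcon
    push Not at hcon
    obtain ⟨h1, h2⟩ := hcon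
    simp only [Pi.le_def, not_forall, not_le] at h1 h2
    obtain ⟨j, hj⟩ := h1
    obtain ⟨i, hi⟩ := h2
    have hj' : (h j : ℝ) + 1 ≤ g j := by exact_mod_cast hj
    have hi' : (g i : ℝ) + 1 ≤ h i := by exact_mod_cast hi
    obtain ⟨a1, a2⟩ := ha i
    obtain ⟨a3, a4⟩ := ha j
    obtain ⟨b1, b2⟩ := hx i
    obtain ⟨b3, b4⟩ := hx j
    linarith
  · intro i
    obtain ⟨a1, a2⟩ := ha i
    obtain ⟨b1, b2⟩ := hx i
    have h1 : (g i : ℝ) - h i < 2 := by linarith
    have h2 : -2 < (g i : ℝ) - h i := by linarith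
    have h1' : g i - h i < 2 := by exact_mod_cast h1
    have h2' : -2 < g i - h i := by exact_mod_cast h2
    rw [abs_le]
    constructor <;> omega

end SNAP

theorem t_SNAP : S_SNAP := by
  intro m
  choose s hs using fun x : Fin m → ℝ => SNAP.exists_good x
  refine ⟨s, ?_, ?_⟩
  · intro x i
    obtain ⟨a, ha0, ha1, ha⟩ := hs x
    have hw := SNAP.width (m := m)
    have hd : 0 < 1 / ((m : ℝ) + 1) := by positivity
    rw [hw] at ha1 ha
    obtain ⟨h1, h2⟩ := ha i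
    rw [abs_lt]
    constructor <;> linarith
  · intro x y hxy
    exact SNAP.comp x y (s x) (s y) (hs x) (hs y) hxy

end R859.BT
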