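import Pool.Agent.R859.BT.Defs

set_option autoImplicit false

/-!
Project BT (MP_e0d06b_an): the statements of the pieces.  Complete proofs in notes.md.
-/

namespace R859.BT

open Metric Set Filter Topology
open scoped Classical

/-! ### A. combinatorics of the grid -/

/-- BT-REP: the grid sum is a sum over a finite multiset of simplices. -/
def S_REP : Prop := ∀ m N : ℕ, ∃ S : Multiset (List V),
  (∀ φ : List V → ZMod 2, sumG m N φ = (S.map φ).sum) ∧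
  ∀ l ∈ S, l.length = m + 1 ∧ ∃ x, ∀ v ∈ l, Cell m N x v

/-- BT-GRP: grouping the simplices according to their image. -/
def S_GRP : Prop := ∀ (m N : ℕ) (M : Type) (f : V → M) (Ex : Set M) (φ : List M → ZMod 2),
  (∀ l l' : List M, l.Perm l' → φ l = φ l') → (∀ l : List M, ¬ l.Nodup → φ l = 0) →
  (∀ x (l : List V), (∀ v ∈ l, Cell m N x v) → φ (l.map f) ≠ 0 → ∃ v ∈ l, f v ∈ Ex) →
  (∀ A : Multiset M, A.Nodup → Multiset.card A = m + 1 → (∃ a ∈ A, a ∈ Ex) → par m N f A = 0) →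
  sumG m N (fun l => φ (l.map f)) = 0

/-- BT-HOM: invariance of the number of completely labelled simplices. -/
def S_HOM : Prop := ∀ (m N : ℕ) (W : Set V) (lam lam' : V → ℕ),
  (∀ v, lam v ≤ m) → (∀ v, lam' v ≤ m) → (∀ v ∈ W, ∀ i, i < m → v i ≠ 0 ∧ v i ≠ N) →
  (∀ x (l : List V), (∀ v ∈ l, Cell m N x v) → (∀ v ∈ l, v ∈ W) →
    (∀ j, j ≤ m → ∃ v ∈ l, lam v = j ∨ lam' v = j) → ∀ v, Cell m N x v → v ∈ W) →
  cut m N W lam = cut m N W lam'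

/-- BT-SNAP: rounding. -/
def S_SNAP : Prop := ∀ m : ℕ, ∃ s : (Fin m → ℝ) → (Fin m → ℤ), IsSnap s

/-- BT-UNIQ: a labelling of the integer points with exactly one completely labelled simplex. -/
def S_UNIQ : Prop := ∀ (m : ℕ) (σ : Multiset (Fin m → ℤ)), σ.Nodup → Multiset.card σ = m + 1 →
  Simp σ → ∃ p ∈ σ, ∃ lam : (Fin m → ℤ) → ℕ, (∀ g, lam g ≤ m) ∧
    (∀ g, lam g = 0 → ∀ i, p i < g i) ∧ (∀ g, ∀ i : Fin m, lam g = (i : ℕ) + 1 → g i ≤ p i) ∧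
    σ.map lam = Multiset.range (m + 1) ∧
    ∀ τ : Multiset (Fin m → ℤ), Simp τ → τ.map lam = Multiset.range (m + 1) → τ = σ

/-! ### B. local degrees -/

/-- BT-DZH: if one admissible labelling gives degree zero then all do. -/
def S_DZH : Prop := ∀ (m N : ℕ), 1 ≤ m → ∀ (M : Type) [MetricSpace M] (g : V → M) (y : M)
  (t ε μ : ℝ) (X : M → E m), 0 < t → ε ≤ t / 100 → 0 ≤ μ → μ ≤ t / (100 * m) →
  Coord y t ε X → Mesh m N g μ → Inter m N g y t →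
  ∀ (lam0 : V → ℕ) (p0 : E m) (r0 : ℝ), ‖p0‖ ≤ 6 / 10 * t → 0 ≤ r0 → r0 ≤ t / (100 * m) →
  Adm g y t X p0 r0 lam0 → cutB m N g y t lam0 = 0 → DZ m N g y t X

/-- BT-HOLE: a hole gives degree zero. -/
def S_HOLE : Prop := ∀ (m N : ℕ), 1 ≤ m → ∀ (M : Type) [MetricSpace M] (g : V → M) (y : M)
  (t ε μ ρ : ℝ) (X : M → E m), 0 < t → ε ≤ t / 100 → 0 ≤ μ → μ ≤ t / (100 * m) →
  Coord y t ε X → Mesh m N g μ → Inter m N g y t →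
  ∀ p0 : E m, ‖p0‖ ≤ 6 / 10 * t → m * μ ≤ ρ →
  (∀ v, dist (g v) y ≤ 9 / 10 * t → ρ < ‖X (g v) - p0‖) → DZ m N g y t X

/-- BT-EL: after the elimination map at `y` no simplex is left near `y`. -/
def S_EL : Prop := ∀ (m N : ℕ), 1 ≤ m → ∀ (M : Type) [MetricSpace M] (g f : V → M) (y : M)
  (t ε μ D0 D h : ℝ) (X : M → E m) (s : (Fin m → ℝ) → (Fin m → ℤ)) (F : M → M),
  0 < t → 0 < h → h ≤ t / (1000 * m) → ε ≤ t / 100 → Coord y t ε X → IsSnap s →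
  IsElim s X y t h F → (∀ z, dist (F z) z ≤ D) → D ≤ t / 50 →
  (∀ v, dist (f v) (g v) ≤ D0) → 0 ≤ D0 → D0 ≤ t / (1000 * m) →
  Mesh m N f μ → μ < h / (2 * (m + 1)) → DZ m N g y t X →
  ∀ A : Multiset M, A.Nodup → Multiset.card A = m + 1 → (∃ a ∈ A, dist a y ≤ t / 2) →
    par m N (fun v => F (f v)) A = 0

/-- BT-PROP: propagation of degree zero to neighbouring balls. -/
def S_PROP : Prop := ∀ (m N : ℕ), 1 ≤ m → ∀ (M : Type) [MetricSpace M] (g : V → M) (y y' : M)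
  (t ε μ : ℝ) (X X' : M → E m), 0 < t → 0 ≤ ε → ε ≤ t / (1000 * m) → 0 ≤ μ →
  μ ≤ t / (10000 * (m + 1) ^ 3) → Coord y t ε X → Coord y' t ε X' → Mesh m N g μ →
  Inter m N g y' t → dist y y' ≤ t / 8 → DZ m N g y t X → DZ m N g y' t X'

/-- BT-SEQ: elimination in all the balls of a net. -/
def S_SEQ : Prop := ∀ (m L : ℕ), 1 ≤ m → ∃ c : ℝ, 0 < c ∧
  ∀ (N : ℕ) (M : Type) [MetricSpace M] (g : V → M) (t ε μ : ℝ) (Y : ℕ → Set M)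
    (X : M → M → E m), 0 < t → 0 ≤ ε → ε ≤ c * t → 0 ≤ μ → μ ≤ c * t → Mesh m N g μ →
    (∀ k, k < L → ∀ y ∈ Y k, ∀ y' ∈ Y k, y ≠ y' → 3 * t < dist y y') →
    (∀ k, k < L → ∀ y ∈ Y k, Coord y t ε (X y) ∧ DZ m N g y t (X y)) →
    ∃ f : V → M, (∀ v, dist (f v) (g v) ≤ t / 50) ∧
      (∀ v, (∀ k, k < L → ∀ y ∈ Y k, t < dist (g v) y) → f v = g v) ∧
      ∀ A : Multiset M, A.Nodup → Multiset.card A = m + 1 →
        (∃ a ∈ A, ∃ k, k < L ∧ ∃ y ∈ Y k, dist a y ≤ t / 4) → par m N f A = 0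

/-- BT-CORE: small scales. -/
def S_CORE : Prop := ∀ (m L : ℕ), 1 ≤ m → ∃ δ0 : ℝ, 0 < δ0 ∧
  ∀ (M : Type) [MetricSpace M] (δ R ρ : ℝ) (ψ : (Fin m → ℝ) → M), 0 < δ → δ ≤ δ0 → 0 < R →
    0 < ρ → (∀ t, 0 < t → Net M L t) →
    (∀ (y : M) (t : ℝ), 0 < t → t < R → ∃ X : M → E m, Coord y t (2 * (δ * t)) X) →
    Chart m ψ ρ → ∃ t0 : ℝ, 0 < t0 ∧ t0 ≤ R ∧ ∀ t, 0 < t → t < t0 →
      ∀ u ∈ Icc (fun _ : Fin m => (-1 / 2 : ℝ)) (fun _ => 1 / 2),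
      ∀ X : M → E m, Coord (ψ u) t (2 * (δ * t)) X → ∀ p : E m, ‖p‖ ≤ t / 4 →
        ∃ w, dist w (ψ u) ≤ 9 / 10 * t ∧ ‖X w - p‖ ≤ t / 400

/-! ### C. Euclidean geometry -/

/-- BT-NET: subsets of `ℝ^n` have nets with a bounded number of classes. -/
def S_NET : Prop := ∀ n : ℕ, ∃ L : ℕ, ∀ (M : Set (E n)) (t : ℝ), 0 < t → Net ↥M L t

/-- BT-GEO: flatness gives coordinates. -/
def S_GEO : Prop := ∀ (m n : ℕ) (M : Set (E n)) (y : ↥M) (t ε : ℝ) (P : Submodule ℝ (E n)),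
  0 < t → 0 ≤ ε → Module.finrank ℝ P = m → Flat M P (y : E n) t ε →
  ∃ X : ↥M → E m, Coord y t (2 * ε) X ∧
    ∀ u ∈ P, ∃ p : E m, ‖p‖ = ‖u‖ ∧
      ∀ w : ↥M, ‖X w - p‖ = ‖P.starProjection ((w : E n) - (y : E n)) - u‖

/-- BT-CHART: charts of closed manifolds. -/
def S_CHART : Prop := ∀ (m n : ℕ) (M : Set (E n)), 1 ≤ m → ClosedManifold m M → ∀ x : ↥M,
  ∃ (ψ : (Fin m → ℝ) → ↥M) (ρ : ℝ), 0 < ρ ∧ Chart m ψ ρ ∧ ∃ r : ℝ, 0 < r ∧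
    ∀ z : ↥M, dist z x < r → ∃ u ∈ Icc (fun _ : Fin m => (-1 / 2 : ℝ)) (fun _ => 1 / 2), ψ u = z

/-- BT-BASE: small scales, Euclidean form. -/
def S_BASE : Prop := ∀ m n : ℕ, 1 ≤ m → ∃ δ0 : ℝ, 0 < δ0 ∧ ∀ (M : Set (E n)) (δ R : ℝ),
  ClosedManifold m M → 0 < δ → δ ≤ δ0 → 0 < R → LAP' m δ R M →
  ∃ t0 : ℝ, 0 < t0 ∧ ∀ t, 0 < t → t < t0 → t < R → FF m δ M t

/-- BT-LIN: linear algebra. -/
def S_LIN : Prop := ∀ (n : ℕ) (P Q : Submodule ℝ (E n)),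
  Module.finrank ℝ P = Module.finrank ℝ Q →
  (∀ u ∈ Q, ‖u - P.starProjection u‖ ≤ 4 / 5 * ‖u‖) →
  ∀ v ∈ P, ∃ u ∈ Q, P.starProjection u = v ∧ ‖u‖ ≤ 2 * ‖v‖

/-- BT-CLIMB: from small scales to all scales. -/
def S_CLIMB : Prop := ∀ (m n : ℕ) (M : Set (E n)) (δ R t0 : ℝ), IsCompact M → 0 < δ →
  δ ≤ 1 / 1000 → 0 < t0 → LAP' m δ R M → (∀ t, 0 < t → t < t0 → t < R → FF m δ M t) →
  ∀ t, 0 < t → t < R → FF m δ M t

/-- BT-FINE: the sharp estimate. -/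
def S_FINE : Prop := ∀ (m n : ℕ) (M : Set (E n)) (δ R : ℝ), IsCompact M → 0 < δ →
  δ ≤ 1 / 10000000 → LAP' m δ R M → (∀ t, 0 < t → t < R → FF m δ M t) →
  ∀ x ∈ M, ∀ r, 0 < r → r < R → ∀ P : Submodule ℝ (E n), Module.finrank ℝ P = m →
  ∀ b, 0 < b → b < δ → Flat M P x r (b * r) →
  ∀ p ∈ P, ‖p‖ ≤ r → ∃ z ∈ M, dist z x ≤ r ∧ dist z (x + p) ≤ (1 + 5000000 * δ ^ 2) * (b * r)

/-- The final theorem (Q1 of MP_e0d06b_an, positive answer). -/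
def S_FINAL : Prop := ∀ m n : ℕ, 2 ≤ m → m + 1 ≤ n →
  ∃ δm : ℝ, 0 < δm ∧ δm < 1 ∧ ∃ φ : ℝ → ℝ, (∀ t ∈ Icc (0 : ℝ) 1, φ t ∈ Icc (0 : ℝ) 1) ∧
    Tendsto φ (𝓝[>] 0) (𝓝 0) ∧
    ∀ M : Set (E n), ClosedManifold m M → ∀ δ R : ℝ, 0 < δ → δ < δm → 0 < R → LAP m δ R M →
      ∀ x ∈ M, ∀ r, 0 < r → r < R → theta m M x r ≤ (1 + φ δ) * beta m M x r

end R859.BT
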