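import Pool.Agent.R859.BT.Stm

set_option autoImplicit false

namespace R859.BT

theorem t_UNIQ : S_UNIQ := by
  classical
  intro m σ hnd hcard hS
  set S : Finset (Fin m → ℤ) := σ.toFinset with hSdef
  have hSσ : ∀ g, g ∈ S ↔ g ∈ σ := fun g => Multiset.mem_toFinset
  have hScard : S.card = m + 1 := by
    rw [hSdef, Multiset.toFinset_card_of_nodup hnd, hcard]
  have hSne : S.Nonempty := by
    rw [← Finset.card_pos]; omega
  -- the minimum
  obtain ⟨p, hpS, hpmin⟩ : ∃ p ∈ S, ∀ g ∈ S, p ≤ g := by
    obtain ⟨p, hp, hmin⟩ := S.exists_minimal hSne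
    refine ⟨p, hp, fun g hg => ?_⟩
    rcases (hS p ((hSσ p).1 hp) g ((hSσ g).1 hg)).1 with h | h
    · exact h
    · exact hmin hg h
  have hpσ : p ∈ σ := (hSσ p).1 hpS
  have hup : ∀ g ∈ S, ∀ i, g i ≤ p i + 1 := by
    intro g hg i
    have := (hS g ((hSσ g).1 hg) p hpσ).2 i
    have := (abs_le.1 this).2
    omega
  -- the rank
  set rk : Fin m → ℕ := fun i => (S.filter (fun g => g i ≤ p i)).card with hrk
  have hlow : ∀ i j : Fin m, rk i ≤ rk j → ∀ g ∈ S, p j < g j → p i < g i := by
    intro i j hij g hg hgj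
    by_contra hgi
    push Not at hgi
    have hlt : rk j < rk i := by
      apply Finset.card_lt_card
      refine ⟨?_, ?_⟩
      · intro h hh
        rw [Finset.mem_filter] at hh ⊢
        refine ⟨hh.1, ?_⟩
        rcases (hS g ((hSσ g).1 hg) h ((hSσ h).1 hh.1)).1 with h1 | h1
        · have h2 : g j ≤ h j := h1 j
          have h3 := hh.2
          omega
        · exact le_trans (h1 i) hgi
      · intro hsub
        have : g ∈ S.filter (fun g => g j ≤ p j) := hsub (Finset.mem_filter.2 ⟨hg, hgi⟩)
        have := (Finset.mem_filter.1 this).2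
        omega
    omega
  have hinj : ∀ i j : Fin m, rk i = rk j → i = j := by
    intro i j hij
    by_contra hne
    have hiff : ∀ g ∈ S, p i < g i ↔ p j < g j := fun g hg =>
      ⟨hlow j i hij.ge g hg, hlow i j hij.le g hg⟩
    -- pigeonhole
    let A : (Fin m → ℤ) → Finset (Fin m) := fun g => (Finset.univ.filter (fun k => p k < g k)).erase j
    have hmem : ∀ g k, k ∈ A g ↔ k ≠ j ∧ p k < g k := by
      intro g k
      simp [A]
    have hmaps : ∀ g ∈ S, (A g).card ∈ Finset.range m := by
      intro g _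
      rw [Finset.mem_range]
      have h1 : A g ⊆ Finset.univ.erase j := by
        intro k hk
        rw [hmem] at hk
        exact Finset.mem_erase.2 ⟨hk.1, Finset.mem_univ _⟩
      have h2 := Finset.card_le_card h1
      rw [Finset.card_erase_of_mem (Finset.mem_univ j), Finset.card_univ, Fintype.card_fin] at h2
      have := j.2
      omega
    obtain ⟨g, hg, g', hg', hgg, heq⟩ := Finset.exists_ne_map_eq_of_card_lt_of_maps_to
      (s := S) (t := Finset.range m) (by rw [hScard, Finset.card_range]; omega) hmaps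
    -- wlog by a lemma
    have key : ∀ g ∈ S, ∀ g' ∈ S, g ≤ g' → (A g).card = (A g').card → g = g' := by
      intro g hg g' hg' hle hc
      have hsub : A g ⊆ A g' := by
        intro k hk
        rw [hmem] at hk ⊢
        exact ⟨hk.1, lt_of_lt_of_le hk.2 (hle k)⟩
      have hA : A g = A g' := Finset.eq_of_subset_of_card_le hsub hc.ge
      have hkk : ∀ k, p k < g k ↔ p k < g' k := by
        intro k
        by_cases hk : k = j
        · rw [hk, ← hiff g hg, ← hiff g' hg']
          have h1 := hmem g i
          have h2 := hmem g' i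
          rw [hA] at h1
          constructor
          · intro h
            exact (h2.1 (h1.2 ⟨hne, h⟩)).2
          · intro h
            exact (h1.1 (h2.2 ⟨hne, h⟩)).2
        · have h1 := hmem g k
          have h2 := hmem g' k
          rw [hA] at h1
          constructor
          · intro h
            exact (h2.1 (h1.2 ⟨hk, h⟩)).2
          · intro h
            exact (h1.1 (h2.2 ⟨hk, h⟩)).2
      funext k
      have h1 := hpmin g hg k
      have h2 := hup g hg k
      have h3 := hpmin g' hg' k
      have h4 := hup g' hg' k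
      have h5 := hkk k
      have h1' : p k ≤ g k := h1
      have h3' : p k ≤ g' k := h3
      by_cases h6 : p k < g k
      · have h7 := h5.1 h6
        omega
      · have h7 : ¬ p k < g' k := fun h => h6 (h5.2 h)
        omega
    rcases (hS g ((hSσ g).1 hg) g' ((hSσ g').1 hg')).1 with h | h
    · exact hgg (key g hg g' hg' h heq)
    · exact hgg (key g' hg' g hg h heq.symm).symm
  -- the labelling
  have hex : ∀ g : Fin m → ℤ, ∃ l : ℕ, (l = 0 ∧ ∀ i, p i < g i) ∨
      (∃ i : Fin m, l = (i : ℕ) + 1 ∧ g i ≤ p i ∧ ∀ j, g j ≤ p j → rk i ≤ rk j) := by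
    intro g
    by_cases h : ∀ i, p i < g i
    · exact ⟨0, Or.inl ⟨rfl, h⟩⟩
    · push Not at h
      obtain ⟨i0, hi0⟩ := h
      obtain ⟨i, hi, himin⟩ := Finset.exists_min_image (Finset.univ.filter (fun i => g i ≤ p i)) rk
        ⟨i0, Finset.mem_filter.2 ⟨Finset.mem_univ _, hi0⟩⟩
      refine ⟨(i : ℕ) + 1, Or.inr ⟨i, rfl, (Finset.mem_filter.1 hi).2, fun j hj => ?_⟩⟩
      exact himin j (Finset.mem_filter.2 ⟨Finset.mem_univ _, hj⟩)
  choose lam hlam using hex
  have hlam0 : ∀ g, lam g = 0 → ∀ i, p i < g i := by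
    intro g hg
    rcases hlam g with h | ⟨i, h, _⟩
    · exact h.2
    · omega
  have hlam1 : ∀ g, ∀ i : Fin m, lam g = (i : ℕ) + 1 →
      g i ≤ p i ∧ ∀ j, g j ≤ p j → rk i ≤ rk j := by
    intro g i hg
    rcases hlam g with h | ⟨i', h, h2⟩
    · omega
    · have : i = i' := Fin.ext (by omega)
      rw [this]; exact h2
  have hlamle : ∀ g, lam g ≤ m := by
    intro g
    rcases hlam g with h | ⟨i, h, _⟩
    · omega
    · have := i.2
      omega
  let G : ℕ → (Fin m → ℤ) := fun l j =>
    if ∃ i : Fin m, l = (i : ℕ) + 1 ∧ rk i ≤ rk j then p j else p j + 1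
  -- criterion
  have hG : ∀ h : Fin m → ℤ, (∀ j, p j ≤ h j ∧ h j ≤ p j + 1) →
      (∀ i : Fin m, lam h = (i : ℕ) + 1 → ∀ j, rk i ≤ rk j → h j ≤ p j) → h = G (lam h) := by
    intro h hb hd
    funext j
    by_cases hc : ∃ i : Fin m, lam h = (i : ℕ) + 1 ∧ rk i ≤ rk j
    · have : G (lam h) j = p j := if_pos hc
      rw [this]
      obtain ⟨i, h1, h2⟩ := hc
      have := hd i h1 j h2
      have := (hb j).1
      omega
    · have : G (lam h) j = p j + 1 := if_neg hc
      rw [this]
      have h3 : p j < h j := by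
        by_contra hle
        push Not at hle
        apply hc
        rcases hlam h with h4 | ⟨i, h4, h5, h6⟩
        · have := h4.2 j
          omega
        · exact ⟨i, h4, h6 j hle⟩
      have := (hb j).2
      omega
  have hGσ : ∀ h ∈ σ, h = G (lam h) := by
    intro h hh
    have hh' := (hSσ h).2 hh
    refine hG h (fun j => ⟨hpmin h hh' j, hup h hh' j⟩) ?_
    intro i hi j hij
    by_contra hc
    push Not at hc
    have h1 := hlow i j hij h hh' hc
    have h2 := (hlam1 h i hi).1
    omega
  have hmapσ : σ.map lam = Multiset.range (m + 1) := by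
    have hn : (σ.map lam).Nodup := by
      apply Multiset.Nodup.map_on _ hnd
      intro x hx y hy hxy
      rw [hGσ x hx, hGσ y hy, hxy]
    apply Multiset.eq_of_le_of_card_le
    · rw [Multiset.le_iff_subset hn]
      intro l hl
      obtain ⟨g, _, rfl⟩ := Multiset.mem_map.1 hl
      rw [Multiset.mem_range]
      have := hlamle g
      omega
    · rw [Multiset.card_range, Multiset.card_map, hcard]
  have hfin : ∀ τ : Multiset (Fin m → ℤ), (∀ h ∈ τ, h = G (lam h)) →
      τ.map lam = Multiset.range (m + 1) → τ = (Multiset.range (m + 1)).map G := by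
    intro τ h1 h2
    rw [← h2, Multiset.map_map]
    conv_lhs => rw [← Multiset.map_id τ]
    exact Multiset.map_congr rfl (fun x hx => h1 x hx)
  refine ⟨p, hpσ, lam, hlamle, hlam0, fun g i hg => (hlam1 g i hg).1, hmapσ, ?_⟩
  intro τ hτ hτm
  rw [hfin σ hGσ hmapσ]
  apply hfin τ _ hτm
  have hlab : ∀ l, l < m + 1 → ∃ h ∈ τ, lam h = l := by
    intro l hl
    have : l ∈ τ.map lam := by rw [hτm]; exact Multiset.mem_range.2 hl
    exact Multiset.mem_map.1 this
  obtain ⟨h0, hh0, hl0⟩ := hlab 0 (by omega)
  intro h hh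
  refine hG h (fun j => ⟨?_, ?_⟩) ?_
  · have h1 := hlam0 h0 hl0 j
    have h2 := (abs_le.1 ((hτ h0 hh0 h hh).2 j)).2
    omega
  · obtain ⟨h', hh', hl'⟩ := hlab ((j : ℕ) + 1) (by have := j.2; omega)
    have h1 := (hlam1 h' j hl').1
    have h2 := (abs_le.1 ((hτ h hh h' hh').2 j)).2
    omega
  · intro i hi j hij
    by_contra hc
    push Not at hc
    obtain ⟨h', hh', hl'⟩ := hlab ((j : ℕ) + 1) (by have := j.2; omega)
    have h1 := hlam1 h' j hl'
    have h2 := hlam1 h i hi
    have h3 : p i < h' i := by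
      by_contra h4
      push Not at h4
      have h5 := h1.2 i h4
      have h6 := hinj i j (le_antisymm hij h5)
      rw [h6] at h2
      have := h2.1
      omega
    rcases (hτ h hh h' hh').1 with h4 | h4
    · have h5 : h j ≤ h' j := h4 j
      have h6 := h1.1
      omega
    · have h5 : h' i ≤ h i := h4 i
      have h6 := h2.1
      omega

end R859.BT
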